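import Mathlib

set_option autoImplicit false

open MeasureTheory Set Filter Topology FourierTransform SchwartzMap
open scoped ContDiff

namespace H76DD

/-- spinors -/
abbrev Sp := EuclideanSpace ℂ (Fin 2)

/-- square-integrable spinor fields -/
noncomputable abbrev L2 := Lp (α := ℝ) Sp 2

lemma integral_fourier_smul {f : ℝ → ℂ} {g : ℝ → Sp} (hf : Integrable f) (hg : Integrable g) :
    ∫ ξ, (𝓕 f ξ) • g ξ = ∫ x, f x • 𝓕 g x := by
  have := VectorFourier.integral_fourierIntegral_smul_eq_flip (L := innerₗ ℝ) (μ := volume)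
    (ν := volume) Real.continuous_fourierChar continuous_inner hf hg
  rwa [flip_innerₗ] at this

lemma integral_fourierInv_smul {f : ℝ → ℂ} {g : ℝ → Sp} (hf : Integrable f)
    (hg : Integrable g) :
    ∫ ξ, (𝓕⁻ f ξ) • g ξ = ∫ x, f x • 𝓕⁻ g x := by
  have h1 : ∫ ξ, (𝓕⁻ f ξ) • g ξ = ∫ ξ, (𝓕 f ξ) • g (-ξ) := by
    rw [← integral_neg_eq_self (fun ξ => (𝓕 f ξ) • g (-ξ))]
    simp only [Real.fourierInv_eq_fourier_neg, neg_neg]
  rw [h1, integral_fourier_smul hf hg.comp_neg, Real.fourierInv_eq_fourier_comp_neg]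

lemma continuous_fourierInv {g : ℝ → Sp} (hg : Integrable g) : Continuous (𝓕⁻ g) := by
  rw [Real.fourierInv_eq_fourier_comp_neg]
  exact VectorFourier.fourierIntegral_continuous Real.continuous_fourierChar continuous_inner
    hg.comp_neg

/-- an `L²` field with integrable Fourier transform is the inverse Fourier integral -/
lemma ae_eq_fourierInv {α : L2} {G : ℝ → Sp} (hG : Integrable G)
    (h : ((𝓕 α : L2) : ℝ → Sp) =ᵐ[volume] G) : (α : ℝ → Sp) =ᵐ[volume] 𝓕⁻ G := by
  refine ae_eq_of_integral_contDiff_smul_eq ?_ ?_ ?_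
  · exact (Lp.memLp α).locallyIntegrable (by norm_num)
  · exact (continuous_fourierInv hG).locallyIntegrable
  · intro g hg hgs
    -- the test function as a Schwartz function
    have hgc : ContDiff ℝ ∞ (fun x => (g x : ℂ)) := Complex.ofRealCLM.contDiff.comp hg
    have hgcs : HasCompactSupport (fun x => (g x : ℂ)) := hgs.comp_left Complex.ofReal_zero
    set φ : 𝓢(ℝ, ℂ) := hgcs.toSchwartzMap hgc with hφ
    have hφx : ∀ x, φ x = (g x : ℂ) := fun x => rfl
    have h1 := congrArg (fun T : 𝓢'(ℝ, Sp) => T (𝓕⁻ φ))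
      (Lp.fourier_toTemperedDistribution_eq α)
    simp only [TemperedDistribution.fourier_apply, Lp.toTemperedDistribution_apply,
      fourier_fourierInv_eq] at h1
    have h2 : ∫ x, (φ x) • (α x) = ∫ x, g x • α x := by
      refine integral_congr_ae (Eventually.of_forall fun x => ?_)
      simp only [hφx]
      exact Complex.coe_smul (g x) (α x)
    have h3 : ∫ x, ((𝓕⁻ φ : 𝓢(ℝ, ℂ)) x) • ((𝓕 α : L2) x) = ∫ x, (𝓕⁻ (φ : ℝ → ℂ) x) • G x := by
      refine integral_congr_ae ?_
      filter_upwards [h] with x hx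
      rw [hx]
      congr 1
      exact congrFun (SchwartzMap.fourierInv_coe φ) x
    rw [← h2, h1, h3, integral_fourierInv_smul φ.integrable hG]
    refine integral_congr_ae (Eventually.of_forall fun x => ?_)
    simp only [hφx]
    exact Complex.coe_smul (g x) _

/-- if a continuous function is bounded almost everywhere, it is bounded everywhere -/
lemma bound_everywhere {K : ℝ → Sp} (hK : Continuous K) {C : ℝ} (h : ∀ᵐ x, ‖K x‖ ≤ C) (x : ℝ) :
    ‖K x‖ ≤ C := by
  have h1 : (fun x => min ‖K x‖ C) =ᵐ[volume] fun x => ‖K x‖ := by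
    filter_upwards [h] with x hx
    exact min_eq_left hx
  have h2 := (Continuous.ae_eq_iff_eq volume (by fun_prop) (by fun_prop)).1 h1
  have h3 : min ‖K x‖ C = ‖K x‖ := congrFun h2 x
  rw [← h3]
  exact min_le_right _ _

end H76DD
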