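import Mathlib

set_option autoImplicit false

open MeasureTheory Set Filter Topology

namespace H76DD

/-- the character `k ↦ exp (i ω k)` -/
noncomputable def ch (ω k : ℝ) : ℂ := Complex.exp (((ω * k : ℝ) : ℂ) * Complex.I)

lemma norm_ch (ω k : ℝ) : ‖ch ω k‖ = 1 := Complex.norm_exp_ofReal_mul_I _

lemma ch_add (ω ω' k : ℝ) : ch (ω + ω') k = ch ω k * ch ω' k := by
  unfold ch
  rw [← Complex.exp_add]
  congr 1
  push_cast
  ring

lemma ch_zero (k : ℝ) : ch 0 k = 1 := by simp [ch]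

lemma hasDerivAt_ch (ω k : ℝ) : HasDerivAt (ch ω) (((ω : ℂ) * Complex.I) * ch ω k) k := by
  unfold ch
  have h1 : HasDerivAt (fun k : ℝ => ω * k) (ω * 1) k := (hasDerivAt_id k).const_mul ω
  have h2 := (h1.ofReal_comp.mul_const Complex.I).cexp
  refine h2.congr_deriv ?_
  push_cast
  ring

/-- `F` has at `+∞` an expansion `∑ exp (i ω k) g (1/k)` with finitely many frequencies and
coefficients analytic at infinity -/
def GA (F : ℝ → ℂ) : Prop :=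
  ∃ (ι : Type) (_ : Fintype ι) (ω : ι → ℝ) (g : ι → ℝ → ℂ), (∀ i, AnalyticAt ℝ (g i) 0) ∧
    ∀ᶠ k : ℝ in atTop, F k = ∑ i, ch (ω i) k * g i k⁻¹

lemma GA.congr {F G : ℝ → ℂ} (hF : GA F) (h : ∀ᶠ k in atTop, G k = F k) : GA G := by
  obtain ⟨ι, hι, ω, g, hg, hF⟩ := hF
  exact ⟨ι, hι, ω, g, hg, by filter_upwards [hF, h] with k h1 h2; rw [h2, h1]⟩

lemma GA.single (ω : ℝ) {g : ℝ → ℂ} (hg : AnalyticAt ℝ g 0) :
    GA (fun k => ch ω k * g k⁻¹) :=
  ⟨Unit, inferInstance, fun _ => ω, fun _ => g, fun _ => hg, by simp⟩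

lemma GA.of_analytic {g : ℝ → ℂ} (hg : AnalyticAt ℝ g 0) : GA (fun k => g k⁻¹) := by
  refine (GA.single 0 hg).congr (Eventually.of_forall fun k => ?_)
  simp [ch_zero]

lemma GA.const (c : ℂ) : GA (fun _ => c) := GA.of_analytic (g := fun _ => c) analyticAt_const

lemma GA.add {F G : ℝ → ℂ} (hF : GA F) (hG : GA G) : GA (fun k => F k + G k) := by
  obtain ⟨ι, hι, ω, g, hg, hF⟩ := hF
  obtain ⟨κ, hκ, υ, h, hh, hG⟩ := hG
  refine ⟨ι ⊕ κ, inferInstance, Sum.elim ω υ, Sum.elim g h, ?_, ?_⟩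
  · rintro (i | i)
    · exact hg i
    · exact hh i
  · filter_upwards [hF, hG] with k h1 h2
    rw [h1, h2, Fintype.sum_sum_type]
    rfl

lemma GA.mul {F G : ℝ → ℂ} (hF : GA F) (hG : GA G) : GA (fun k => F k * G k) := by
  obtain ⟨ι, hι, ω, g, hg, hF⟩ := hF
  obtain ⟨κ, hκ, υ, h, hh, hG⟩ := hG
  refine ⟨ι × κ, inferInstance, fun p => ω p.1 + υ p.2, fun p z => g p.1 z * h p.2 z, ?_, ?_⟩
  · rintro ⟨i, j⟩
    exact (hg i).mul (hh j)
  · filter_upwards [hF, hG] with k h1 h2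
    rw [h1, h2, Finset.sum_mul_sum, Fintype.sum_prod_type]
    refine Finset.sum_congr rfl fun i _ => Finset.sum_congr rfl fun j _ => ?_
    rw [ch_add]
    ring

lemma GA.const_mul {F : ℝ → ℂ} (hF : GA F) (c : ℂ) : GA (fun k => c * F k) :=
  (GA.const c).mul hF

lemma GA.neg {F : ℝ → ℂ} (hF : GA F) : GA (fun k => - F k) :=
  (hF.const_mul (-1)).congr (Eventually.of_forall fun k => by ring)

lemma GA.sub {F G : ℝ → ℂ} (hF : GA F) (hG : GA G) : GA (fun k => F k - G k) :=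
  (hF.add hG.neg).congr (Eventually.of_forall fun k => by ring)

/-- derivative of an expansion -/
lemma deriv_expansion {ι : Type} {s : Finset ι} {F : ℝ → ℂ} {ω : ι → ℝ} {u : ι → ℝ → ℂ}
    (hu : ∀ i ∈ s, AnalyticAt ℝ (u i) 0)
    (hF : ∀ᶠ k : ℝ in atTop, F k = ∑ i ∈ s, ch (ω i) k * u i k⁻¹) :
    ∀ᶠ k : ℝ in atTop, (∀ i ∈ s, DifferentiableAt ℝ (u i) k⁻¹) ∧
      HasDerivAt F (∑ i ∈ s, ch (ω i) k *
        ((ω i : ℂ) * Complex.I * u i k⁻¹ - (k⁻¹ : ℝ) ^ 2 * deriv (u i) k⁻¹)) k := by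
  obtain ⟨K, hK⟩ := eventually_atTop.1 hF
  have h0 : ∀ᶠ z in 𝓝 (0:ℝ), ∀ i ∈ s, DifferentiableAt ℝ (u i) z := by
    rw [Filter.eventually_all_finset]
    intro i hi
    exact (hu i hi).eventually_analyticAt.mono fun z hz => hz.differentiableAt
  have h1 : ∀ᶠ k : ℝ in atTop, ∀ i ∈ s, DifferentiableAt ℝ (u i) k⁻¹ :=
    tendsto_inv_atTop_zero.eventually h0
  filter_upwards [h1, eventually_gt_atTop K, eventually_gt_atTop 0] with k hk hkK hk0
  refine ⟨hk, ?_⟩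
  have h2 : F =ᶠ[𝓝 k] fun k => ∑ i ∈ s, ch (ω i) k * u i k⁻¹ := by
    filter_upwards [Ioi_mem_nhds hkK] with x hx
    exact hK x (le_of_lt hx)
  refine HasDerivAt.congr_of_eventuallyEq ?_ h2
  refine HasDerivAt.fun_sum fun i hi => ?_
  have h3 : HasDerivAt (fun k : ℝ => k⁻¹) (-(k ^ 2)⁻¹) k := hasDerivAt_inv hk0.ne'
  have h4 := (hk i hi).hasDerivAt.scomp k h3
  have h5 := (hasDerivAt_ch (ω i) k).mul h4
  refine h5.congr_deriv ?_
  simp only [Function.comp, Complex.real_smul]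
  push_cast
  rw [inv_pow]
  ring

lemma GA.deriv {F : ℝ → ℂ} (hF : GA F) : GA (deriv F) := by
  obtain ⟨ι, hι, ω, g, hg, hF⟩ := hF
  refine ⟨ι, hι, ω, fun i z => (ω i : ℂ) * Complex.I * g i z - (z : ℝ) ^ 2 * _root_.deriv (g i) z,
    ?_, ?_⟩
  · intro i
    have h1 := (hg i).deriv
    have h2 := hg i
    have h3 : AnalyticAt ℝ (fun z : ℝ => ((z : ℝ) : ℂ)) 0 :=
      Complex.ofRealCLM.analyticAt 0
    have h4 : AnalyticAt ℝ (fun z : ℝ => ((z : ℝ) : ℂ) ^ 2 * _root_.deriv (g i) z) 0 :=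
      (h3.pow 2).mul h1
    exact (analyticAt_const.mul h2).sub h4
  · filter_upwards [deriv_expansion (s := Finset.univ) (fun i _ => hg i) hF] with k hk
    rw [hk.2.deriv]

lemma GA.bounded {F : ℝ → ℂ} (hF : GA F) : ∃ C K : ℝ, ∀ k, K ≤ k → ‖F k‖ ≤ C := by
  obtain ⟨ι, hι, ω, g, hg, hF⟩ := hF
  have h1 : ∀ᶠ k : ℝ in atTop, ∀ i ∈ (Finset.univ : Finset ι), ‖g i k⁻¹‖ ≤ ‖g i 0‖ + 1 := by
    rw [Filter.eventually_all_finset]
    intro i _
    have : Tendsto (fun z => ‖g i z‖) (𝓝 0) (𝓝 ‖g i 0‖) := (hg i).continuousAt.norm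
    exact (tendsto_inv_atTop_zero.eventually (this.eventually_lt_const
      (by linarith : ‖g i 0‖ < ‖g i 0‖ + 1))).mono fun k hk => hk.le
  obtain ⟨K, hK⟩ := eventually_atTop.1 (hF.and h1)
  refine ⟨∑ i, (‖g i 0‖ + 1), K, fun k hk => ?_⟩
  obtain ⟨h2, h3⟩ := hK k hk
  rw [h2]
  refine (norm_sum_le _ _).trans (Finset.sum_le_sum fun i _ => ?_)
  rw [norm_mul, norm_ch, one_mul]
  exact h3 i (Finset.mem_univ i)

/-- polynomial lower bound for some derivative at `+∞` -/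
def LB (F : ℝ → ℂ) : Prop :=
  ∃ (N p : ℕ) (c : ℝ), 0 < c ∧ ∀ᶠ k : ℝ in atTop, ∃ j < N, c * (k⁻¹) ^ p ≤ ‖iteratedDeriv j F k‖

lemma LB.of_sub {F : ℝ → ℂ} (hF : ContDiff ℝ (⊤ : ℕ∞) F) (ω : ℝ)
    (h : LB (fun k => deriv F k - ((ω : ℂ) * Complex.I) * F k)) : LB F := by
  obtain ⟨N, p, c, hc, h⟩ := h
  refine ⟨N + 1, p, c / (1 + |ω|), by positivity, ?_⟩
  filter_upwards [h, eventually_gt_atTop 0] with k hk hk0
  obtain ⟨j, hj, hj'⟩ := hk
  have hd : ContDiff ℝ (⊤ : ℕ∞) (deriv F) := by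
    exact (contDiff_infty_iff_deriv.1 hF).2
  have e : iteratedDeriv j (fun k => deriv F k - ((ω : ℂ) * Complex.I) * F k) k =
      iteratedDeriv (j + 1) F k - ((ω : ℂ) * Complex.I) * iteratedDeriv j F k := by
    have h1 := iteratedDeriv_sub (n := j) (x := k) (f := deriv F)
      (g := fun k => ((ω : ℂ) * Complex.I) * F k)
      (hd.contDiffAt.of_le (by exact_mod_cast le_top))
      ((contDiff_const.mul hF).contDiffAt.of_le (by exact_mod_cast le_top))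
    have h2 := iteratedDeriv_const_mul (n := j) (x := k) (f := F) ((ω : ℂ) * Complex.I)
      (hF.contDiffAt.of_le (by exact_mod_cast le_top))
    rw [iteratedDeriv_succ', ← h2, ← h1]
    rfl
  rw [e] at hj'
  by_contra hcon
  push Not at hcon
  have h1 := hcon j (by omega)
  have h2 := hcon (j + 1) (by omega)
  have h3 := norm_sub_le (iteratedDeriv (j + 1) F k)
    (((ω : ℂ) * Complex.I) * iteratedDeriv j F k)
  have h4 : ‖((ω : ℂ) * Complex.I) * iteratedDeriv j F k‖ = |ω| * ‖iteratedDeriv j F k‖ := by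
    rw [norm_mul, norm_mul, Complex.norm_I, mul_one, Complex.norm_real, Real.norm_eq_abs]
  rw [h4] at h3
  have h5 : |ω| * ‖iteratedDeriv j F k‖ ≤ |ω| * (c / (1 + |ω|) * k⁻¹ ^ p) :=
    mul_le_mul_of_nonneg_left h1.le (abs_nonneg _)
  have h6 : c * k⁻¹ ^ p = c / (1 + |ω|) * k⁻¹ ^ p + |ω| * (c / (1 + |ω|) * k⁻¹ ^ p) := by
    field_simp
  linarith

lemma LB_core (t : Finset ℝ) : ∀ (s : Finset ℝ) (h : ℝ → ℝ → ℂ) (p : ℕ) (ω₀ : ℝ) (F : ℝ → ℂ),
    ω₀ ∈ s → ω₀ ∉ t → (∀ ω ∈ s, AnalyticAt ℝ (h ω) 0) →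
    (∀ ω ∈ s, ω ≠ ω₀ → ω ∉ t → h ω 0 = 0) → h ω₀ 0 ≠ 0 → ContDiff ℝ (⊤ : ℕ∞) F →
    (∀ᶠ k : ℝ in atTop, F k = ∑ ω ∈ s, ch ω k * ((k⁻¹ : ℝ) ^ p * h ω k⁻¹)) → LB F := by
  induction t using Finset.induction_on with
  | empty =>
    intro s h p ω₀ F h0 _ han hz hne hFc hF
    refine ⟨1, p, ‖h ω₀ 0‖ / 2, by positivity, ?_⟩
    have hT : Tendsto (fun z : ℝ => ‖h ω₀ z‖ - ∑ ω ∈ s.erase ω₀, ‖h ω z‖) (𝓝 0)
        (𝓝 (‖h ω₀ 0‖ - ∑ ω ∈ s.erase ω₀, ‖h ω 0‖)) := by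
      refine (han ω₀ h0).continuousAt.norm.sub (tendsto_finsetSum _ fun ω hω => ?_)
      exact (han ω (Finset.mem_of_mem_erase hω)).continuousAt.norm
    have hs0 : ∑ ω ∈ s.erase ω₀, ‖h ω 0‖ = 0 := by
      refine Finset.sum_eq_zero fun ω hω => ?_
      rw [hz ω (Finset.mem_of_mem_erase hω) (Finset.ne_of_mem_erase hω) (by simp), norm_zero]
    rw [hs0, sub_zero] at hT
    have hpos : 0 < ‖h ω₀ 0‖ := norm_pos_iff.2 hne
    have h1 := tendsto_inv_atTop_zero.eventually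
      (hT.eventually_const_lt (by linarith : ‖h ω₀ 0‖ / 2 < ‖h ω₀ 0‖))
    filter_upwards [hF, h1, eventually_gt_atTop 0] with k hk hk1 hk0
    refine ⟨0, by norm_num, ?_⟩
    rw [iteratedDeriv_zero, hk]
    have e : ∑ ω ∈ s, ch ω k * ((k⁻¹ : ℝ) ^ p * h ω k⁻¹) =
        (((k⁻¹ : ℝ) : ℂ) ^ p) * ∑ ω ∈ s, ch ω k * h ω k⁻¹ := by
      rw [Finset.mul_sum]
      refine Finset.sum_congr rfl fun ω _ => ?_
      ring
    rw [e, norm_mul, norm_pow, Complex.norm_real, Real.norm_eq_abs,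
      abs_of_pos (inv_pos.2 hk0), mul_comm]
    refine mul_le_mul_of_nonneg_left ?_ (by positivity)
    rw [← Finset.add_sum_erase s _ h0]
    have h2 : ‖∑ ω ∈ s.erase ω₀, ch ω k * h ω k⁻¹‖ ≤ ∑ ω ∈ s.erase ω₀, ‖h ω k⁻¹‖ := by
      refine (norm_sum_le _ _).trans (Finset.sum_le_sum fun ω _ => ?_)
      rw [norm_mul, norm_ch, one_mul]
    have h3 : ‖ch ω₀ k * h ω₀ k⁻¹‖ = ‖h ω₀ k⁻¹‖ := by rw [norm_mul, norm_ch, one_mul]
    have h4 := norm_sub_norm_le (ch ω₀ k * h ω₀ k⁻¹) (-∑ ω ∈ s.erase ω₀, ch ω k * h ω k⁻¹)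
    rw [norm_neg, sub_neg_eq_add, h3] at h4
    linarith
  | insert ω' t hω' ih =>
    intro s h p ω₀ F h0 hnt han hz hne hFc hF
    rw [Finset.mem_insert, not_or] at hnt
    apply LB.of_sub hFc ω'
    have hd : ContDiff ℝ (⊤ : ℕ∞) (deriv F) := (contDiff_infty_iff_deriv.1 hFc).2
    refine ih s (fun ω z => ((ω : ℂ) - ω') * Complex.I * h ω z - (p * (z : ℝ)) * h ω z
      - (z : ℝ) ^ 2 * deriv (h ω) z) p ω₀ _ h0 hnt.2 ?_ ?_ ?_
      (hd.sub (contDiff_const.mul hFc)) ?_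
    · intro ω hω
      have h1 := (han ω hω).deriv
      have h2 := han ω hω
      have h3 : AnalyticAt ℝ (fun z : ℝ => ((z : ℝ) : ℂ)) 0 :=
        Complex.ofRealCLM.analyticAt 0
      exact ((analyticAt_const.mul h2).sub ((analyticAt_const.mul h3).mul h2)).sub
        ((h3.pow 2).mul h1)
    · intro ω hω hω1 hω2
      by_cases hc : ω = ω'
      · simp [hc]
      · have : h ω 0 = 0 := hz ω hω hω1 (by simp [hc, hω2])
        simp [this]
    · have : (ω₀ : ℂ) - ω' ≠ 0 := by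
        rw [sub_ne_zero]
        exact_mod_cast hnt.1
      simp [this, hne]
    · have hA : ∀ ω ∈ s, AnalyticAt ℝ (fun z : ℝ => ((z : ℝ) : ℂ) ^ p * h ω z) 0 := by
        intro ω hω
        have h3 : AnalyticAt ℝ (fun z : ℝ => ((z : ℝ) : ℂ)) 0 :=
          Complex.ofRealCLM.analyticAt 0
        exact (h3.pow p).mul (han ω hω)
      have hD := deriv_expansion (s := s) (F := F) (ω := fun ω => ω)
        (u := fun ω z => ((z : ℝ) : ℂ) ^ p * h ω z) hA hF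
      have h0' : ∀ᶠ z in 𝓝 (0:ℝ), ∀ i ∈ s, DifferentiableAt ℝ (h i) z := by
        rw [Filter.eventually_all_finset]
        intro i hi
        exact (han i hi).eventually_analyticAt.mono fun z hz => hz.differentiableAt
      filter_upwards [hD, hF, tendsto_inv_atTop_zero.eventually h0', eventually_gt_atTop 0]
        with k hk hk2 hk3 hk0
      rw [hk.2.deriv, hk2, Finset.mul_sum, ← Finset.sum_sub_distrib]
      refine Finset.sum_congr rfl fun ω hω => ?_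
      have hz0 : (k⁻¹ : ℝ) ≠ 0 := (inv_pos.2 hk0).ne'
      have hd1 : HasDerivAt (fun z : ℝ => ((z : ℝ) : ℂ) ^ p * h ω z)
          ((p * (((k⁻¹ : ℝ) : ℂ)) ^ (p - 1) * 1) * h ω k⁻¹ +
            (((k⁻¹ : ℝ) : ℂ)) ^ p * deriv (h ω) k⁻¹) k⁻¹ := by
        have ha : HasDerivAt (fun z : ℝ => ((z : ℝ) : ℂ)) 1 k⁻¹ :=
          (hasDerivAt_id _).ofReal_comp
        exact (ha.pow p).mul (hk3 ω hω).hasDerivAt
      rw [hd1.deriv]
      have hz0' : (((k⁻¹ : ℝ) : ℂ)) ≠ 0 := by exact_mod_cast hz0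
      have hpz : (((k⁻¹ : ℝ) : ℂ)) ^ 2 * ((p:ℂ) * (((k⁻¹ : ℝ) : ℂ)) ^ (p - 1)) =
          (((k⁻¹ : ℝ) : ℂ)) ^ p * (p * (((k⁻¹ : ℝ) : ℂ))) := by
        rcases Nat.eq_zero_or_pos p with hp | hp
        · simp [hp]
        · obtain ⟨q, rfl⟩ : ∃ q, p = q + 1 := ⟨p - 1, by omega⟩
          simp only [Nat.add_sub_cancel]
          ring
      generalize (((k⁻¹ : ℝ) : ℂ)) = z at *
      linear_combination (-(ch ω k) * h ω k⁻¹) * hpz

/-- dichotomy for expansions at infinity -/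
lemma GA.LB {F : ℝ → ℂ} (hFc : ContDiff ℝ (⊤ : ℕ∞) F) (hF : GA F)
    (hne : ¬ ∀ᶠ k in atTop, F k = 0) : LB F := by
  classical
  obtain ⟨ι, hι, ω, g, hg, hF⟩ := hF
  set s : Finset ℝ := Finset.univ.image ω with hs
  set G : ℝ → ℝ → ℂ := fun w z => ∑ i ∈ Finset.univ.filter (fun i => ω i = w), g i z with hG
  have hGan : ∀ w, AnalyticAt ℝ (G w) 0 := by
    intro w
    exact Finset.analyticAt_fun_sum _ fun i _ => hg i
  have hF' : ∀ᶠ k : ℝ in atTop, F k = ∑ w ∈ s, ch w k * G w k⁻¹ := by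
    filter_upwards [hF] with k hk
    rw [hk, hs, hG]
    simp only
    rw [← Finset.sum_fiberwise_of_maps_to (s := Finset.univ) (t := Finset.univ.image ω)
      (g := ω) (fun i _ => Finset.mem_image_of_mem _ (Finset.mem_univ i))]
    refine Finset.sum_congr rfl fun w _ => ?_
    rw [Finset.mul_sum]
    refine Finset.sum_congr rfl fun i hi => ?_
    rw [(Finset.mem_filter.1 hi).2]
  have hsne : s.Nonempty := by
    rw [Finset.nonempty_iff_ne_empty]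
    intro h
    apply hne
    filter_upwards [hF'] with k hk
    rw [hk, h, Finset.sum_empty]
  obtain ⟨w₀, hw₀, hmin⟩ := Finset.exists_min_image s (fun w => analyticOrderAt (G w) 0) hsne
  have hfin : analyticOrderAt (G w₀) 0 ≠ ⊤ := by
    intro htop
    apply hne
    have h1 : ∀ᶠ z in 𝓝 (0:ℝ), ∀ w ∈ s, G w z = 0 := by
      rw [Filter.eventually_all_finset]
      intro w hw
      have := hmin w hw
      simp only [htop, top_le_iff] at this
      exact analyticOrderAt_eq_top.1 this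
    filter_upwards [hF', tendsto_inv_atTop_zero.eventually h1] with k hk hk1
    rw [hk]
    exact Finset.sum_eq_zero fun w hw => by rw [hk1 w hw, mul_zero]
  obtain ⟨p, hp⟩ := ENat.ne_top_iff_exists.1 hfin
  have hfac : ∀ w ∈ s, ∃ h : ℝ → ℂ, AnalyticAt ℝ h 0 ∧ ∀ᶠ z in 𝓝 (0:ℝ),
      G w z = ((z : ℝ) : ℂ) ^ p * h z := by
    intro w hw
    have h1 : (p : ℕ∞) ≤ analyticOrderAt (G w) 0 := by
      rw [hp]
      exact hmin w hw
    obtain ⟨h, hh, hh'⟩ := (natCast_le_analyticOrderAt (hGan w)).1 h1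
    refine ⟨h, hh, ?_⟩
    filter_upwards [hh'] with z hz
    rw [hz, sub_zero, Complex.real_smul]
    push_cast
    rfl
  choose! h hh hh' using hfac
  refine LB_core (s.erase w₀) s h p w₀ F hw₀ (by simp) hh ?_ ?_ hFc ?_
  · intro w hw h1 h2
    exact absurd (Finset.mem_erase.2 ⟨h1, hw⟩) h2
  · intro h0
    -- then the order would be larger
    have h1 : ((p + 1 : ℕ) : ℕ∞) ≤ analyticOrderAt (G w₀) 0 := by
      rw [natCast_le_analyticOrderAt (hGan w₀)]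
      have h2 : (1 : ℕ∞) ≤ analyticOrderAt (h w₀) 0 := by
        rw [Order.one_le_iff_ne_zero, analyticOrderAt_ne_zero]
        exact ⟨hh w₀ hw₀, h0⟩
      obtain ⟨h', hh1, hh2⟩ := (natCast_le_analyticOrderAt (n := 1) (hh w₀ hw₀)).1
        (by exact_mod_cast h2)
      refine ⟨h', hh1, ?_⟩
      filter_upwards [hh2, hh' w₀ hw₀] with z hz1 hz2
      rw [hz2, hz1, sub_zero, Complex.real_smul, Complex.real_smul]
      push_cast
      ring
    rw [← hp] at h1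
    have : p + 1 ≤ p := by exact_mod_cast h1
    omega
  · have h1 : ∀ᶠ z in 𝓝 (0:ℝ), ∀ w ∈ s, G w z = ((z : ℝ) : ℂ) ^ p * h w z := by
      rw [Filter.eventually_all_finset]
      exact hh'
    filter_upwards [hF', tendsto_inv_atTop_zero.eventually h1] with k hk hk1
    rw [hk]
    exact Finset.sum_congr rfl fun w hw => by rw [hk1 w hw]

end H76DD
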