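import Mathlib
import Pool.Agent.L5helper76.DD.GA

set_option autoImplicit false

open MeasureTheory Set Filter Topology
open scoped ContDiff

namespace H76DD

/-- real-analytic functions on the line with expansions at both ends -/
structure Good (f : ℝ → ℝ) : Prop where
  an : AnalyticOnNhd ℝ f univ
  top : GA (fun k => (f k : ℂ))
  bot : GA (fun k => (f (-k) : ℂ))

namespace Good

variable {f g : ℝ → ℝ}

lemma contDiff (hf : Good f) {n : WithTop ℕ∞} : ContDiff ℝ n f := hf.an.contDiff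

lemma differentiable (hf : Good f) : Differentiable ℝ f :=
  (hf.contDiff (n := 1)).differentiable (by norm_num)

lemma continuous (hf : Good f) : Continuous f := (hf.contDiff (n := 0)).continuous

lemma const (c : ℝ) : Good (fun _ => c) :=
  ⟨fun _ _ => analyticAt_const, GA.const _, GA.const _⟩

lemma add (hf : Good f) (hg : Good g) : Good (fun k => f k + g k) := by
  refine ⟨fun x hx => (hf.an x hx).add (hg.an x hx), ?_, ?_⟩
  · exact (hf.top.add hg.top).congr (Eventually.of_forall fun k => by push_cast; rfl)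
  · exact (hf.bot.add hg.bot).congr (Eventually.of_forall fun k => by push_cast; rfl)

lemma mul (hf : Good f) (hg : Good g) : Good (fun k => f k * g k) := by
  refine ⟨fun x hx => (hf.an x hx).mul (hg.an x hx), ?_, ?_⟩
  · exact (hf.top.mul hg.top).congr (Eventually.of_forall fun k => by push_cast; rfl)
  · exact (hf.bot.mul hg.bot).congr (Eventually.of_forall fun k => by push_cast; rfl)

lemma const_mul (hf : Good f) (c : ℝ) : Good (fun k => c * f k) := (const c).mul hf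

lemma neg (hf : Good f) : Good (fun k => - f k) := by
  have := hf.const_mul (-1)
  simpa using this

lemma sub (hf : Good f) (hg : Good g) : Good (fun k => f k - g k) := by
  have := hf.add hg.neg
  simpa [sub_eq_add_neg] using this

lemma deriv_ofReal (hf : Differentiable ℝ f) :
    _root_.deriv (fun k => (f k : ℂ)) = fun k => ((_root_.deriv f k : ℝ) : ℂ) := by
  ext k
  exact (hf k).hasDerivAt.ofReal_comp.deriv

lemma deriv (hf : Good f) : Good (deriv f) := by
  refine ⟨hf.an.deriv, ?_, ?_⟩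
  · refine hf.top.deriv.congr (Eventually.of_forall fun k => ?_)
    rw [deriv_ofReal hf.differentiable]
  · refine hf.bot.deriv.neg.congr (Eventually.of_forall fun k => ?_)
    have h1 : HasDerivAt (fun k => f (-k)) (_root_.deriv f (-k) * (-1)) k :=
      (hf.differentiable (-k)).hasDerivAt.comp k (hasDerivAt_neg k)
    rw [h1.ofReal_comp.deriv]
    push_cast
    ring

lemma iteratedDeriv (hf : Good f) (j : ℕ) : Good (iteratedDeriv j f) := by
  induction j with
  | zero => rw [iteratedDeriv_zero]; exact hf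
  | succ j ih => rw [iteratedDeriv_succ]; exact ih.deriv

lemma bounded (hf : Good f) : ∃ C : ℝ, 0 < C ∧ ∀ x, |f x| ≤ C := by
  obtain ⟨C₁, K₁, h1⟩ := hf.top.bounded
  obtain ⟨C₂, K₂, h2⟩ := hf.bot.bounded
  set K := max (max K₁ K₂) 0
  obtain ⟨C₃, h3⟩ := (isCompact_Icc (a := -K) (b := K)).exists_bound_of_continuousOn
    hf.continuous.continuousOn
  refine ⟨max (max C₁ C₂) (max C₃ 1), by positivity, fun x => ?_⟩
  rcases le_or_gt K x with h | h
  · have := h1 x ((le_max_left _ _).trans ((le_max_left _ _).trans h))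
    rw [Complex.norm_real, Real.norm_eq_abs] at this
    exact this.trans ((le_max_left _ _).trans (le_max_left _ _))
  rcases le_or_gt x (-K) with h' | h'
  · have := h2 (-x) ((le_max_right _ _).trans ((le_max_left _ _).trans (by linarith)))
    rw [neg_neg, Complex.norm_real, Real.norm_eq_abs] at this
    exact this.trans ((le_max_right _ _).trans (le_max_left _ _))
  · have := h3 x ⟨h'.le, h.le⟩
    rw [Real.norm_eq_abs] at this
    exact this.trans ((le_max_left _ _).trans (le_max_right _ _))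

/-- all derivatives up to a given order are bounded -/
lemma bounded_iter (hf : Good f) (N : ℕ) :
    ∃ C : ℝ, 0 < C ∧ ∀ j ≤ N, ∀ x, |_root_.iteratedDeriv j f x| ≤ C := by
  induction N with
  | zero =>
    obtain ⟨C, hC, h⟩ := hf.bounded
    refine ⟨C, hC, fun j hj x => ?_⟩
    rw [Nat.le_zero.1 hj, iteratedDeriv_zero]
    exact h x
  | succ N ih =>
    obtain ⟨C, hC, h⟩ := ih
    obtain ⟨C', hC', h'⟩ := (hf.iteratedDeriv (N + 1)).bounded
    refine ⟨max C C', lt_max_of_lt_left hC, fun j hj x => ?_⟩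
    rcases Nat.of_le_succ hj with h1 | h1
    · exact (h j h1 x).trans (le_max_left _ _)
    · rw [h1]
      exact (h' x).trans (le_max_right _ _)

lemma iteratedDeriv_ofReal (hf : ContDiff ℝ (⊤ : ℕ∞) f) (j : ℕ) :
    _root_.iteratedDeriv j (fun k => (f k : ℂ)) =
      fun k => ((_root_.iteratedDeriv j f k : ℝ) : ℂ) := by
  induction j with
  | zero => simp [iteratedDeriv_zero]
  | succ j ih =>
    rw [iteratedDeriv_succ, ih, deriv_ofReal (hf.differentiable_iteratedDeriv j (by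
      exact_mod_cast WithTop.coe_lt_top (j : ℕ))), iteratedDeriv_succ]

lemma compact_lower (hf : AnalyticOnNhd ℝ f univ) (hne : ∃ x, f x ≠ 0) (K : ℝ) :
    ∃ (N : ℕ) (c : ℝ), 0 < c ∧ ∀ x ∈ Icc (-K) K, ∃ j < N, c ≤ |_root_.iteratedDeriv j f x| := by
  have hcd : ContDiff ℝ (⊤ : ℕ∞) f := hf.contDiff
  refine (isCompact_Icc (a := -K) (b := K)).induction_on
    (p := fun s => ∃ (N : ℕ) (c : ℝ), 0 < c ∧ ∀ x ∈ s, ∃ j < N,
      c ≤ |_root_.iteratedDeriv j f x|) ?_ ?_ ?_ ?_
  · exact ⟨0, 1, one_pos, fun x hx => absurd hx (notMem_empty x)⟩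
  · rintro s t hst ⟨N, c, hc, h⟩
    exact ⟨N, c, hc, fun x hx => h x (hst hx)⟩
  · rintro s t ⟨N, c, hc, h⟩ ⟨N', c', hc', h'⟩
    refine ⟨max N N', min c c', lt_min hc hc', ?_⟩
    rintro x (hx | hx)
    · obtain ⟨j, hj, hj'⟩ := h x hx
      exact ⟨j, lt_max_of_lt_left hj, (min_le_left _ _).trans hj'⟩
    · obtain ⟨j, hj, hj'⟩ := h' x hx
      exact ⟨j, lt_max_of_lt_right hj, (min_le_right _ _).trans hj'⟩
  · intro x _
    obtain ⟨j, hj⟩ : ∃ j, _root_.iteratedDeriv j f x ≠ 0 := by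
      by_contra hcon
      push Not at hcon
      have h1 : analyticOrderAt f x = ⊤ := by
        rw [ENat.eq_top_iff_forall_ge]
        intro m
        rw [natCast_le_analyticOrderAt_iff_iteratedDeriv_eq_zero (hf x (mem_univ x))]
        exact fun i _ => hcon i
      have h2 : f =ᶠ[𝓝 x] fun _ => 0 := analyticOrderAt_eq_top.1 h1
      have h3 := hf.eq_of_eventuallyEq (fun _ _ => analyticAt_const) h2
      obtain ⟨y, hy⟩ := hne
      exact hy (by rw [h3])
    have hcont : Continuous (_root_.iteratedDeriv j f) :=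
      hcd.continuous_iteratedDeriv j (by exact_mod_cast le_top)
    have hpos : 0 < |_root_.iteratedDeriv j f x| := abs_pos.2 hj
    refine ⟨{y | |_root_.iteratedDeriv j f x| / 2 < |_root_.iteratedDeriv j f y|},
      mem_nhdsWithin_of_mem_nhds ?_, j + 1, |_root_.iteratedDeriv j f x| / 2, by positivity, ?_⟩
    · exact (isOpen_lt continuous_const hcont.abs).mem_nhds (by
        show |_root_.iteratedDeriv j f x| / 2 < |_root_.iteratedDeriv j f x|
        linarith)
    · intro y hy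
      exact ⟨j, by omega, le_of_lt hy⟩

lemma not_eventually_zero (hf : AnalyticOnNhd ℝ f univ) (hne : ∃ x, f x ≠ 0) :
    ¬ ∀ᶠ k in atTop, ((f k : ℝ) : ℂ) = 0 := by
  intro h
  obtain ⟨K, hK⟩ := eventually_atTop.1 h
  have h2 : f =ᶠ[𝓝 (K + 1)] fun _ => 0 := by
    filter_upwards [Ioi_mem_nhds (by linarith : K < K + 1)] with x hx
    exact_mod_cast hK x (le_of_lt hx)
  have h3 := hf.eq_of_eventuallyEq (fun _ _ => analyticAt_const) h2
  obtain ⟨y, hy⟩ := hne
  exact hy (by rw [h3])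

/-- uniform polynomial lower bound for some derivative -/
lemma lower (hf : Good f) (hne : ∃ x, f x ≠ 0) :
    ∃ (N p : ℕ) (c : ℝ), 0 < c ∧ ∀ x, ∃ j < N,
      c * ((1 + |x|)⁻¹) ^ p ≤ |_root_.iteratedDeriv j f x| := by
  have hcd : ContDiff ℝ (⊤ : ℕ∞) f := hf.contDiff
  have hofr : ContDiff ℝ (⊤ : ℕ∞) (fun x : ℝ => (x : ℂ)) := Complex.ofRealCLM.contDiff
  -- plus infinity
  obtain ⟨N₁, p₁, c₁, hc₁, h1⟩ := GA.LB (hofr.comp hcd) hf.top (not_eventually_zero hf.an hne)
  -- minus infinity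
  have hneg : AnalyticOnNhd ℝ (fun k => f (-k)) univ := by
    intro x _
    exact (hf.an (-x) (mem_univ _)).fun_comp (analyticAt_id.neg)
  have hcdn : ContDiff ℝ (⊤ : ℕ∞) (fun k => f (-k)) := hcd.comp contDiff_neg
  obtain ⟨N₂, p₂, c₂, hc₂, h2⟩ := GA.LB (hofr.comp hcdn) hf.bot
    (not_eventually_zero (f := fun k => f (-k)) hneg (by
      obtain ⟨x, hx⟩ := hne
      exact ⟨-x, by simpa using hx⟩))
  obtain ⟨K₁, hK₁⟩ := eventually_atTop.1 h1
  obtain ⟨K₂, hK₂⟩ := eventually_atTop.1 h2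
  set K := max (max K₁ K₂) 1 with hK
  obtain ⟨N₃, c₃, hc₃, h3⟩ := compact_lower hf.an hne K
  have hKK : 1 ≤ K := le_max_right _ _
  refine ⟨max (max N₁ N₂) N₃, max p₁ p₂, min (min c₁ c₂) c₃, lt_min (lt_min hc₁ hc₂) hc₃,
    fun x => ?_⟩
  have hinv : (0:ℝ) ≤ (1 + |x|)⁻¹ := by positivity
  have hinv1 : (1 + |x|)⁻¹ ≤ 1 := inv_le_one_of_one_le₀ (by linarith [abs_nonneg x])
  rcases le_or_gt K x with h | h
  · obtain ⟨j, hj, hj'⟩ := hK₁ x ((le_max_left _ _).trans ((le_max_left _ _).trans h))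
    refine ⟨j, lt_max_of_lt_left (lt_max_of_lt_left hj), ?_⟩
    have e := congrFun (iteratedDeriv_ofReal hcd j) x
    have hj2 : c₁ * x⁻¹ ^ p₁ ≤ |_root_.iteratedDeriv j f x| := by
      refine hj'.trans (le_of_eq ?_)
      change ‖_root_.iteratedDeriv j (fun k => (f k : ℂ)) x‖ = _
      rw [e, Complex.norm_real, Real.norm_eq_abs]
    refine le_trans ?_ hj2
    have hx0 : 0 < x := by linarith
    have h4 : (1 + |x|)⁻¹ ≤ x⁻¹ := by
      rw [abs_of_pos hx0]
      exact inv_anti₀ hx0 (by linarith)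
    calc min (min c₁ c₂) c₃ * (1 + |x|)⁻¹ ^ max p₁ p₂ ≤ c₁ * (1 + |x|)⁻¹ ^ max p₁ p₂ :=
          mul_le_mul_of_nonneg_right ((min_le_left _ _).trans (min_le_left _ _)) (by positivity)
      _ ≤ c₁ * (1 + |x|)⁻¹ ^ p₁ := mul_le_mul_of_nonneg_left
          (pow_le_pow_of_le_one hinv hinv1 (le_max_left _ _)) hc₁.le
      _ ≤ c₁ * x⁻¹ ^ p₁ := mul_le_mul_of_nonneg_left (pow_le_pow_left₀ hinv h4 _) hc₁.le
  rcases le_or_gt x (-K) with h' | h'
  · obtain ⟨j, hj, hj'⟩ := hK₂ (-x) ((le_max_right _ _).trans ((le_max_left _ _).trans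
      (by linarith)))
    refine ⟨j, lt_max_of_lt_left (lt_max_of_lt_right hj), ?_⟩
    have e := congrFun (iteratedDeriv_ofReal hcdn j) (-x)
    have e2 := iteratedDeriv_comp_neg j f (-x)
    have hj2 : c₂ * (-x)⁻¹ ^ p₂ ≤ |_root_.iteratedDeriv j f x| := by
      refine hj'.trans (le_of_eq ?_)
      change ‖_root_.iteratedDeriv j (fun k => ((f (-k) : ℝ) : ℂ)) (-x)‖ = _
      rw [e, Complex.norm_real, e2, neg_neg, norm_smul, norm_pow, norm_neg, norm_one, one_pow,
        one_mul, Real.norm_eq_abs]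
    refine le_trans ?_ hj2
    have hx0 : 0 < -x := by linarith
    have h4 : (1 + |x|)⁻¹ ≤ (-x)⁻¹ := by
      rw [abs_of_neg (by linarith)]
      exact inv_anti₀ hx0 (by linarith)
    calc min (min c₁ c₂) c₃ * (1 + |x|)⁻¹ ^ max p₁ p₂ ≤ c₂ * (1 + |x|)⁻¹ ^ max p₁ p₂ :=
          mul_le_mul_of_nonneg_right ((min_le_left _ _).trans (min_le_right _ _)) (by positivity)
      _ ≤ c₂ * (1 + |x|)⁻¹ ^ p₂ := mul_le_mul_of_nonneg_left
          (pow_le_pow_of_le_one hinv hinv1 (le_max_right _ _)) hc₂.le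
      _ ≤ c₂ * (-x)⁻¹ ^ p₂ := mul_le_mul_of_nonneg_left (pow_le_pow_left₀ hinv h4 _) hc₂.le
  · obtain ⟨j, hj, hj'⟩ := h3 x ⟨h'.le, h.le⟩
    refine ⟨j, lt_max_of_lt_right hj, le_trans ?_ hj'⟩
    calc min (min c₁ c₂) c₃ * (1 + |x|)⁻¹ ^ max p₁ p₂ ≤ c₃ * 1 :=
          mul_le_mul (min_le_right _ _) (pow_le_one₀ hinv hinv1) (by positivity) hc₃.le
      _ = c₃ := mul_one _

end Good

/-- the local frequency `√(k² + b²)` -/
noncomputable def rho (b k : ℝ) : ℝ := Real.sqrt (k ^ 2 + b ^ 2)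

lemma rho_arg_pos {b : ℝ} (hb : b ≠ 0) (k : ℝ) : 0 < k ^ 2 + b ^ 2 := by positivity

lemma rho_pos {b : ℝ} (hb : b ≠ 0) (k : ℝ) : 0 < rho b k := Real.sqrt_pos.2 (rho_arg_pos hb k)

lemma rho_sq (b k : ℝ) : rho b k ^ 2 = k ^ 2 + b ^ 2 := Real.sq_sqrt (by positivity)

lemma rho_neg (b k : ℝ) : rho b (-k) = rho b k := by simp [rho]

lemma contDiff_rho {b : ℝ} (hb : b ≠ 0) {n : WithTop ℕ∞} : ContDiff ℝ n (rho b) := by
  unfold rho
  exact ((contDiff_id.pow 2).add contDiff_const).sqrt fun k => (rho_arg_pos hb k).ne'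

/-- `√(1 + b² z²)` -/
noncomputable def sg (b z : ℝ) : ℝ := Real.sqrt (1 + b ^ 2 * z ^ 2)

lemma sg_pos (b z : ℝ) : 0 < sg b z := Real.sqrt_pos.2 (by positivity)

lemma contDiff_sg (b : ℝ) {n : WithTop ℕ∞} : ContDiff ℝ n (sg b) := by
  unfold sg
  refine (contDiff_const.add (contDiff_const.mul (contDiff_id.pow 2))).sqrt fun z => ?_
  simp only [id]
  positivity

lemma rho_eq {b k : ℝ} (hk : 0 < k) : rho b k = k * sg b k⁻¹ := by
  unfold rho sg
  rw [show k ^ 2 + b ^ 2 = k ^ 2 * (1 + b ^ 2 * k⁻¹ ^ 2) by field_simp,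
    Real.sqrt_mul (by positivity), Real.sqrt_sq hk.le]

/-- phase correction -/
noncomputable def mu (b z : ℝ) : ℝ := b ^ 2 * z * (sg b z + 1)⁻¹

lemma contDiff_mu (b : ℝ) {n : WithTop ℕ∞} : ContDiff ℝ n (mu b) := by
  unfold mu
  refine (contDiff_const.mul contDiff_id).mul ?_
  exact ((contDiff_sg b).add contDiff_const).inv fun z => by
    have := sg_pos b z
    positivity

lemma rho_eq_add {b k : ℝ} (hk : 0 < k) : rho b k = k + mu b k⁻¹ := by
  rw [rho_eq hk]
  unfold mu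
  have h1 := sg_pos b k⁻¹
  have h2 : sg b k⁻¹ ^ 2 = 1 + b ^ 2 * k⁻¹ ^ 2 := Real.sq_sqrt (by positivity)
  generalize sg b k⁻¹ = σ at *
  have h3 : σ + 1 ≠ 0 := by positivity
  field_simp
  have h4 : k ^ 2 * σ ^ 2 = k ^ 2 + b ^ 2 := by
    rw [h2]; field_simp
  nlinarith

lemma contDiff_ch (s : ℝ) {n : WithTop ℕ∞} : ContDiff ℝ n (ch s) := by
  unfold ch
  have h1 : ContDiff ℝ n (fun k : ℝ => ((s * k : ℝ) : ℂ)) :=
    Complex.ofRealCLM.contDiff.comp (contDiff_const.mul contDiff_id)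
  exact (h1.mul contDiff_const).cexp

lemma ch_add' (s x y : ℝ) : ch s (x + y) = ch s x * ch s y := by
  unfold ch
  rw [← Complex.exp_add]
  congr 1
  push_cast
  ring

lemma GA_ch_rho (s b : ℝ) : GA (fun k => ch s (rho b k)) := by
  have h : AnalyticAt ℝ (fun z => ch s (mu b z)) 0 := by
    have : ContDiff ℝ ω (fun z => ch s (mu b z)) := (contDiff_ch s).comp (contDiff_mu b)
    exact contDiff_omega_iff_analyticOnNhd.1 this 0 (mem_univ _)
  refine (GA.single s h).congr ?_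
  filter_upwards [eventually_gt_atTop 0] with k hk
  rw [rho_eq_add hk, ch_add']

lemma GA_inv_rho (b : ℝ) : GA (fun k => (((rho b k)⁻¹ : ℝ) : ℂ)) := by
  have h : AnalyticAt ℝ (fun z : ℝ => ((z * (sg b z)⁻¹ : ℝ) : ℂ)) 0 := by
    have : ContDiff ℝ ω (fun z : ℝ => ((z * (sg b z)⁻¹ : ℝ) : ℂ)) :=
      Complex.ofRealCLM.contDiff.comp (contDiff_id.mul ((contDiff_sg b).inv fun z =>
        (sg_pos b z).ne'))
    exact contDiff_omega_iff_analyticOnNhd.1 this 0 (mem_univ _)
  refine (GA.of_analytic h).congr ?_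
  filter_upwards [eventually_gt_atTop 0] with k hk
  rw [rho_eq hk, mul_inv]

lemma GA_div_rho (b : ℝ) : GA (fun k => ((k * (rho b k)⁻¹ : ℝ) : ℂ)) := by
  have h : AnalyticAt ℝ (fun z : ℝ => (((sg b z)⁻¹ : ℝ) : ℂ)) 0 := by
    have : ContDiff ℝ ω (fun z : ℝ => (((sg b z)⁻¹ : ℝ) : ℂ)) :=
      Complex.ofRealCLM.contDiff.comp ((contDiff_sg b).inv fun z => (sg_pos b z).ne')
    exact contDiff_omega_iff_analyticOnNhd.1 this 0 (mem_univ _)
  refine (GA.of_analytic h).congr ?_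
  filter_upwards [eventually_gt_atTop 0] with k hk
  rw [rho_eq hk, mul_inv, ← mul_assoc, mul_inv_cancel₀ hk.ne', one_mul]

lemma GA_cos (s b : ℝ) : GA (fun k => ((Real.cos (s * rho b k) : ℝ) : ℂ)) := by
  refine (((GA_ch_rho s b).add (GA_ch_rho (-s) b)).const_mul (1 / 2)).congr
    (Eventually.of_forall fun k => ?_)
  simp only [Complex.ofReal_cos, Complex.cos, ch]
  push_cast
  ring_nf

lemma GA_sin (s b : ℝ) : GA (fun k => ((Real.sin (s * rho b k) : ℝ) : ℂ)) := by
  refine (((GA_ch_rho (-s) b).sub (GA_ch_rho s b)).const_mul (Complex.I / 2)).congr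
    (Eventually.of_forall fun k => ?_)
  simp only [Complex.ofReal_sin, Complex.sin, ch]
  push_cast
  ring_nf

lemma good_cos (s : ℝ) {b : ℝ} (hb : b ≠ 0) : Good (fun k => Real.cos (s * rho b k)) := by
  refine ⟨?_, GA_cos s b, ?_⟩
  · rw [← contDiff_omega_iff_analyticOnNhd]
    exact Real.contDiff_cos.comp (contDiff_const.mul (contDiff_rho hb))
  · simp only [rho_neg]
    exact GA_cos s b

/-- `sin (s ρ) / ρ` -/
noncomputable def snc (s b k : ℝ) : ℝ := Real.sin (s * rho b k) * (rho b k)⁻¹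

lemma contDiff_snc (s : ℝ) {b : ℝ} (hb : b ≠ 0) {n : WithTop ℕ∞} :
    ContDiff ℝ n (snc s b) := by
  unfold snc
  exact (Real.contDiff_sin.comp (contDiff_const.mul (contDiff_rho hb))).mul
    ((contDiff_rho hb).inv fun k => (rho_pos hb k).ne')

lemma snc_neg (s b k : ℝ) : snc s b (-k) = snc s b k := by simp [snc, rho_neg]

lemma GA_snc (s b : ℝ) : GA (fun k => ((snc s b k : ℝ) : ℂ)) :=
  ((GA_sin s b).mul (GA_inv_rho b)).congr (Eventually.of_forall fun k => by
    simp only [snc]; push_cast; ring)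

lemma good_snc (s : ℝ) {b : ℝ} (hb : b ≠ 0) : Good (snc s b) := by
  refine ⟨contDiff_omega_iff_analyticOnNhd.1 (contDiff_snc s hb), GA_snc s b, ?_⟩
  simp only [snc_neg]
  exact GA_snc s b

lemma GA_ksnc (s b : ℝ) : GA (fun k => ((k * snc s b k : ℝ) : ℂ)) :=
  ((GA_sin s b).mul (GA_div_rho b)).congr (Eventually.of_forall fun k => by
    simp only [snc]; push_cast; ring)

lemma good_ksnc (s : ℝ) {b : ℝ} (hb : b ≠ 0) : Good (fun k => k * snc s b k) := by
  refine ⟨contDiff_omega_iff_analyticOnNhd.1 (contDiff_id.mul (contDiff_snc s hb)),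
    GA_ksnc s b, ?_⟩
  refine (GA_ksnc s b).neg.congr (Eventually.of_forall fun k => ?_)
  rw [snc_neg]
  push_cast
  ring

end H76DD
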