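import Mathlib
import Pool.Agent.L5helper76.DD.Good

set_option autoImplicit false

open MeasureTheory Set Filter Topology
open scoped ContDiff Quaternion

namespace H76DD

noncomputable def qI : ℍ := ⟨0, 1, 0, 0⟩
noncomputable def qJ : ℍ := ⟨0, 0, 1, 0⟩

@[simp] lemma qI_re : qI.re = 0 := rfl
@[simp] lemma qI_imI : qI.imI = 1 := rfl
@[simp] lemma qI_imJ : qI.imJ = 0 := rfl
@[simp] lemma qI_imK : qI.imK = 0 := rfl
@[simp] lemma qJ_re : qJ.re = 0 := rfl
@[simp] lemma qJ_imI : qJ.imI = 0 := rfl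
@[simp] lemma qJ_imJ : qJ.imJ = 1 := rfl
@[simp] lemma qJ_imK : qJ.imK = 0 := rfl

/-- the propagator of a constant field `b` during time `s` at frequency `k` -/
noncomputable def el (s b k : ℝ) : ℍ :=
  Real.cos (s * rho b k) • (1 : ℍ) + (k * snc s b k) • qI - (b * snc s b k) • qJ

@[simp] lemma el_re (s b k : ℝ) : (el s b k).re = Real.cos (s * rho b k) := by
  simp [el]

@[simp] lemma el_imI (s b k : ℝ) : (el s b k).imI = k * snc s b k := by
  simp [el]

@[simp] lemma el_imJ (s b k : ℝ) : (el s b k).imJ = -(b * snc s b k) := by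
  simp [el]

@[simp] lemma el_imK (s b k : ℝ) : (el s b k).imK = 0 := by
  simp [el]

lemma snc_rho {b : ℝ} (hb : b ≠ 0) (s k : ℝ) :
    snc s b k * rho b k = Real.sin (s * rho b k) := by
  unfold snc
  have := rho_pos hb k
  field_simp

lemma snc_sq {b : ℝ} (hb : b ≠ 0) (s k : ℝ) :
    snc s b k ^ 2 * (k ^ 2 + b ^ 2) = Real.sin (s * rho b k) ^ 2 := by
  rw [← snc_rho hb, mul_pow, rho_sq]

lemma norm_eq_one_of_normSq {q : ℍ} (h : Quaternion.normSq q = 1) : ‖q‖ = 1 := by
  have h1 := Quaternion.normSq_eq_norm_mul_self q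
  rw [h] at h1
  nlinarith [norm_nonneg q]

lemma norm_el {b : ℝ} (hb : b ≠ 0) (s k : ℝ) : ‖el s b k‖ = 1 := by
  apply norm_eq_one_of_normSq
  rw [Quaternion.normSq_def']
  change (el s b k).re ^ 2 + (el s b k).imI ^ 2 + (el s b k).imJ ^ 2 + (el s b k).imK ^ 2 = 1
  simp only [el_re, el_imI, el_imJ, el_imK]
  have := snc_sq hb s k
  nlinarith [Real.sin_sq_add_cos_sq (s * rho b k)]

/-- time-ordered products -/
noncomputable def P : List (ℝ × ℝ) → ℝ → ℍ
  | [], _ => 1
  | p :: w, k => P w k * el p.1 p.2 k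

@[simp] lemma P_nil (k : ℝ) : P [] k = 1 := rfl
@[simp] lemma P_cons (p : ℝ × ℝ) (w : List (ℝ × ℝ)) (k : ℝ) :
    P (p :: w) k = P w k * el p.1 p.2 k := rfl

lemma P_append (w w' : List (ℝ × ℝ)) (k : ℝ) : P (w ++ w') k = P w' k * P w k := by
  induction w with
  | nil => simp
  | cons p w ih => simp [ih, mul_assoc]

/-- nonvanishing fields -/
def NZ (w : List (ℝ × ℝ)) : Prop := ∀ p ∈ w, 0 ≤ p.1 ∧ p.2 ≠ 0

lemma NZ.tail {p : ℝ × ℝ} {w : List (ℝ × ℝ)} (h : NZ (p :: w)) : NZ w :=
  fun q hq => h q (List.mem_cons_of_mem _ hq)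

lemma norm_P {w : List (ℝ × ℝ)} (hw : NZ w) (k : ℝ) : ‖P w k‖ = 1 := by
  induction w with
  | nil => simp
  | cons p w ih =>
    rw [P_cons, norm_mul, ih hw.tail, norm_el (hw p List.mem_cons_self).2, mul_one]

lemma good_P {w : List (ℝ × ℝ)} (hw : NZ w) :
    Good (fun k => (P w k).re) ∧ Good (fun k => (P w k).imI) ∧ Good (fun k => (P w k).imJ) ∧
      Good (fun k => (P w k).imK) := by
  induction w with
  | nil =>
    simp only [P_nil, Quaternion.re_one, Quaternion.imI_one, Quaternion.imJ_one,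
      Quaternion.imK_one]
    exact ⟨Good.const 1, Good.const 0, Good.const 0, Good.const 0⟩
  | cons p w ih =>
    obtain ⟨h0, h1, h2, h3⟩ := ih hw.tail
    have hb := (hw p List.mem_cons_self).2
    have g0 : Good (fun k => (el p.1 p.2 k).re) := by
      simp only [el_re]; exact good_cos _ hb
    have g1 : Good (fun k => (el p.1 p.2 k).imI) := by
      simp only [el_imI]; exact good_ksnc _ hb
    have g2 : Good (fun k => (el p.1 p.2 k).imJ) := by
      simp only [el_imJ]; exact ((good_snc _ hb).const_mul _).neg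
    have g3 : Good (fun k => (el p.1 p.2 k).imK) := by
      simp only [el_imK]; exact Good.const 0
    refine ⟨?_, ?_, ?_, ?_⟩
    · simp only [P_cons, Quaternion.re_mul]
      exact (((h0.mul g0).sub (h1.mul g1)).sub (h2.mul g2)).sub (h3.mul g3)
    · simp only [P_cons, Quaternion.imI_mul]
      exact (((h0.mul g1).add (h1.mul g0)).add (h2.mul g3)).sub (h3.mul g2)
    · simp only [P_cons, Quaternion.imJ_mul]
      exact (((h0.mul g2).sub (h1.mul g3)).add (h2.mul g0)).add (h3.mul g1)
    · simp only [P_cons, Quaternion.imK_mul]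
      exact (((h0.mul g3).add (h1.mul g2)).sub (h2.mul g1)).add (h3.mul g0)

/-- half the trace -/
noncomputable def tau (w : List (ℝ × ℝ)) (k : ℝ) : ℝ := (P w k).re

lemma good_tau {w : List (ℝ × ℝ)} (hw : NZ w) : Good (tau w) := (good_P hw).1

lemma abs_re_le_norm (q : ℍ) : |q.re| ≤ ‖q‖ := by
  have h1 := Quaternion.normSq_eq_norm_mul_self q
  rw [Quaternion.normSq_def'] at h1
  apply abs_le_of_sq_le_sq _ (norm_nonneg _)
  change q.re ^ 2 ≤ _
  nlinarith [sq_nonneg q.imI, sq_nonneg q.imJ, sq_nonneg q.imK]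

lemma abs_tau_le {w : List (ℝ × ℝ)} (hw : NZ w) (k : ℝ) : |tau w k| ≤ 1 := by
  have := abs_re_le_norm (P w k)
  rwa [norm_P hw] at this

/-- the quadratic equation of a unit quaternion -/
lemma sq_eq {q : ℍ} (hq : ‖q‖ = 1) : q * q = (2 * q.re) • q - 1 := by
  have h1 := Quaternion.normSq_eq_norm_mul_self q
  rw [Quaternion.normSq_def', hq] at h1
  change q.re ^ 2 + q.imI ^ 2 + q.imJ ^ 2 + q.imK ^ 2 = 1 * 1 at h1
  ext
  · simp only [Quaternion.re_mul, Quaternion.re_sub, Quaternion.re_smul, Quaternion.re_one,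
      smul_eq_mul]
    linarith
  · simp only [Quaternion.imI_mul, Quaternion.imI_sub, Quaternion.imI_smul,
      Quaternion.imI_one, smul_eq_mul]
    ring
  · simp only [Quaternion.imJ_mul, Quaternion.imJ_sub, Quaternion.imJ_smul,
      Quaternion.imJ_one, smul_eq_mul]
    ring
  · simp only [Quaternion.imK_mul, Quaternion.imK_sub, Quaternion.imK_smul,
      Quaternion.imK_one, smul_eq_mul]
    ring

/-- symmetry -/
lemma el_neg (s b k : ℝ) : el s b (-k) = -(qJ * el s b k * qJ) := by
  ext <;> simp [snc_neg, rho_neg, Quaternion.re_mul, Quaternion.imI_mul,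
    Quaternion.imJ_mul, Quaternion.imK_mul]

lemma qJ_sq : qJ * qJ = -1 := by
  ext <;> simp [Quaternion.re_mul, Quaternion.imI_mul,
    Quaternion.imJ_mul, Quaternion.imK_mul]

lemma P_neg (w : List (ℝ × ℝ)) (k : ℝ) : P w (-k) = -(qJ * P w k * qJ) := by
  induction w with
  | nil => simp [qJ_sq]
  | cons p w ih =>
    rw [P_cons, P_cons, ih, el_neg]
    have : qJ * P w k * qJ * (qJ * el p.1 p.2 k * qJ) =
        -(qJ * (P w k * el p.1 p.2 k) * qJ) := by
      calc qJ * P w k * qJ * (qJ * el p.1 p.2 k * qJ)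
          = qJ * P w k * (qJ * qJ) * el p.1 p.2 k * qJ := by noncomm_ring
        _ = -(qJ * (P w k * el p.1 p.2 k) * qJ) := by rw [qJ_sq]; noncomm_ring
    rw [neg_mul_neg, this]

lemma tau_neg (w : List (ℝ × ℝ)) (k : ℝ) : tau w (-k) = tau w k := by
  unfold tau
  rw [P_neg]
  simp [Quaternion.re_mul, Quaternion.imI_mul,
    Quaternion.imJ_mul, Quaternion.imK_mul]

/-- scaling -/
lemma rho_scale {r : ℝ} (hr : 0 < r) (b k : ℝ) : rho (b / r) k = rho b (r * k) / r := by
  unfold rho
  rw [show k ^ 2 + (b / r) ^ 2 = ((r * k) ^ 2 + b ^ 2) / r ^ 2 by field_simp,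
    Real.sqrt_div (by positivity), Real.sqrt_sq hr.le]

lemma rho_neg_field (b k : ℝ) : rho (-b) k = rho b k := by simp [rho]

lemma snc_scale {r : ℝ} (hr : 0 < r) (s b k : ℝ) :
    snc (r * s) (b / r) k = r * snc s b (r * k) := by
  unfold snc
  rw [rho_scale hr, inv_div]
  rw [show r * s * (rho b (r * k) / r) = s * rho b (r * k) by field_simp]
  ring

lemma snc_neg_field (s b k : ℝ) : snc s (-b) k = snc s b k := by simp [snc, rho_neg_field]

/-- the scaled inverse element -/
lemma el_inv {r : ℝ} (hr : 0 < r) {b : ℝ} (hb : b ≠ 0) (s k : ℝ) :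
    el (r * s) (-b / r) k * el s b (-(r * k)) = 1 := by
  have h1 : rho (-b / r) k = rho b (r * k) / r := by rw [rho_scale hr, rho_neg_field]
  have h2 : snc (r * s) (-b / r) k = r * snc s b (r * k) := by
    rw [snc_scale hr, snc_neg_field]
  have h3 : Real.cos (r * s * rho (-b / r) k) = Real.cos (s * rho b (r * k)) := by
    rw [h1]; congr 1; field_simp
  have h4 := snc_sq hb s (r * k)
  have h5 := Real.sin_sq_add_cos_sq (s * rho b (r * k))
  ext
  · simp only [Quaternion.re_mul, el_re, el_imI, el_imJ, el_imK, snc_neg, rho_neg, h2, h3,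
      Quaternion.re_one]
    field_simp
    nlinarith
  · simp only [Quaternion.imI_mul, el_re, el_imI, el_imJ, el_imK, snc_neg, rho_neg, h2, h3,
      Quaternion.imI_one]
    ring
  · simp only [Quaternion.imJ_mul, el_re, el_imI, el_imJ, el_imK, snc_neg, rho_neg, h2, h3,
      Quaternion.imJ_one]
    field_simp
    ring
  · simp only [Quaternion.imK_mul, el_re, el_imI, el_imJ, el_imK, snc_neg, rho_neg, h2, h3,
      Quaternion.imK_one]
    field_simp
    ring

/-- the reversed, rescaled word with opposite fields -/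
noncomputable def rw' (r : ℝ) : List (ℝ × ℝ) → List (ℝ × ℝ)
  | [] => []
  | p :: w => rw' r w ++ [(r * p.1, -p.2 / r)]

lemma P_rw' {r : ℝ} (hr : 0 < r) {w : List (ℝ × ℝ)} (hw : NZ w) (k : ℝ) :
    P (rw' r w) k * P w (-(r * k)) = 1 := by
  induction w with
  | nil => simp [rw']
  | cons p w ih =>
    rw [rw', P_append, P_cons, P_cons, P_nil, one_mul]
    calc el (r * p.1) (-p.2 / r) k * P (rw' r w) k * (P w (-(r * k)) * el p.1 p.2 (-(r * k)))
        = el (r * p.1) (-p.2 / r) k * (P (rw' r w) k * P w (-(r * k))) *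
          el p.1 p.2 (-(r * k)) := by noncomm_ring
      _ = 1 := by
          rw [ih hw.tail, mul_one, el_inv hr (hw p List.mem_cons_self).2]

/-- admissible pieces: quarter turns at frequency zero -/
def Adm (w : List (ℝ × ℝ)) : Prop := ∀ p ∈ w, 0 < p.1 ∧ p.2 ≠ 0 ∧ p.1 * |p.2| = Real.pi / 2

lemma Adm.nz {w : List (ℝ × ℝ)} (h : Adm w) : NZ w := fun p hp => ⟨(h p hp).1.le, (h p hp).2.1⟩

lemma Adm.tail {p : ℝ × ℝ} {w : List (ℝ × ℝ)} (h : Adm (p :: w)) : Adm w :=
  fun q hq => h q (List.mem_cons_of_mem _ hq)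

lemma Adm.append {w w' : List (ℝ × ℝ)} (h : Adm w) (h' : Adm w') : Adm (w ++ w') := by
  intro p hp
  rcases List.mem_append.1 hp with h1 | h1
  · exact h p h1
  · exact h' p h1

lemma Adm.rw' {r : ℝ} (hr : 0 < r) {w : List (ℝ × ℝ)} (h : Adm w) : Adm (rw' r w) := by
  induction w with
  | nil => exact h
  | cons p w ih =>
    refine (ih h.tail).append ?_
    intro q hq
    rw [List.mem_singleton] at hq
    subst hq
    obtain ⟨h1, h2, h3⟩ := h p List.mem_cons_self
    refine ⟨by positivity, ?_, ?_⟩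
    · exact div_ne_zero (neg_ne_zero.2 h2) hr.ne'
    · simp only
      rw [abs_div, abs_neg, abs_of_pos hr, ← h3]
      field_simp

lemma length_rw' (r : ℝ) (w : List (ℝ × ℝ)) : (rw' r w).length = w.length := by
  induction w with
  | nil => rfl
  | cons p w ih => simp [H76DD.rw', ih]

lemma P_zero {w : List (ℝ × ℝ)} (h : Adm w) :
    (Even w.length → (P w 0).imI = 0 ∧ (P w 0).imJ = 0 ∧ (P w 0).imK = 0) ∧
    (Odd w.length → (P w 0).re = 0 ∧ (P w 0).imI = 0 ∧ (P w 0).imK = 0) := by
  induction w with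
  | nil => simp
  | cons p w ih =>
    obtain ⟨ie, io⟩ := ih h.tail
    obtain ⟨h1, h2, h3⟩ := h p List.mem_cons_self
    have hr : rho p.2 0 = |p.2| := by simp [rho, Real.sqrt_sq_eq_abs]
    have hre : (el p.1 p.2 0).re = 0 := by rw [el_re, hr, h3, Real.cos_pi_div_two]
    have hi : (el p.1 p.2 0).imI = 0 := by simp
    have hk : (el p.1 p.2 0).imK = 0 := by simp
    constructor
    · intro he
      have ho : Odd w.length := by
        rw [List.length_cons, Nat.even_add_one] at he
        exact Nat.not_even_iff_odd.1 he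
      obtain ⟨a1, a2, a3⟩ := io ho
      simp [Quaternion.imI_mul, Quaternion.imJ_mul, Quaternion.imK_mul, hre, hi, hk, a1, a2, a3,
        -el_re, -el_imI, -el_imJ, -el_imK]
    · intro ho
      have he : Even w.length := by
        rw [List.length_cons, Nat.odd_add_one] at ho
        exact Nat.not_odd_iff_even.1 ho
      obtain ⟨a1, a2, a3⟩ := ie he
      simp [Quaternion.re_mul, Quaternion.imI_mul, Quaternion.imK_mul, hre, hi, hk, a1, a2, a3,
        -el_re, -el_imI, -el_imJ, -el_imK]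

lemma tau_zero {w : List (ℝ × ℝ)} (h : Adm w) (ho : Odd w.length) : tau w 0 = 0 :=
  ((P_zero h).2 ho).1

lemma divide {h : ℝ → ℝ} (ha : AnalyticAt ℝ h 0) (h0 : h 0 = 0) :
    ∃ g : ℝ → ℝ, AnalyticAt ℝ g 0 ∧ ∀ᶠ k in 𝓝 (0:ℝ), h k = k * g k := by
  have h2 : ((1 : ℕ) : ℕ∞) ≤ analyticOrderAt h 0 := by
    have : (1 : ℕ∞) ≤ analyticOrderAt h 0 := by
      rw [Order.one_le_iff_ne_zero, analyticOrderAt_ne_zero]
      exact ⟨ha, h0⟩
    exact_mod_cast this
  obtain ⟨g, hg, hg'⟩ := (natCast_le_analyticOrderAt ha).1 h2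
  refine ⟨g, hg, ?_⟩
  filter_upwards [hg'] with k hk
  rw [hk, sub_zero, pow_one, smul_eq_mul]

/-- words whose half trace vanishes to a given order at zero frequency -/
lemma exists_word (N : ℕ) : ∃ w : List (ℝ × ℝ), Adm w ∧ Odd w.length ∧
    ∃ g : ℝ → ℝ, AnalyticAt ℝ g 0 ∧ ∀ᶠ k in 𝓝 (0:ℝ), tau w k = k ^ N * g k := by
  induction N with
  | zero =>
    have hA : Adm [(Real.pi / 2, 1)] := by
      intro p hp
      rw [List.mem_singleton] at hp
      subst hp
      exact ⟨by positivity, one_ne_zero, by simp⟩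
    refine ⟨[(Real.pi / 2, 1)], hA, by simp, tau [(Real.pi / 2, 1)],
      (good_tau hA.nz).an 0 (mem_univ _), ?_⟩
    simp
  | succ N ih =>
    obtain ⟨w, hw, ho, g, hg, hgw⟩ := ih
    rcases Nat.eq_zero_or_pos N with hN | hN
    · -- order zero to one: the half trace vanishes at zero
      obtain ⟨g₁, hg₁, hg₁'⟩ := divide ((good_tau hw.nz).an 0 (mem_univ _)) (tau_zero hw ho)
      refine ⟨w, hw, ho, g₁, hg₁, ?_⟩
      filter_upwards [hg₁'] with k hk
      rw [hk, hN]
      ring
    · set r : ℝ := (1 / 2 : ℝ) ^ ((N : ℝ)⁻¹) with hr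
      have hr0 : 0 < r := Real.rpow_pos_of_pos (by norm_num) _
      have hrN : r ^ N = 1 / 2 := Real.rpow_inv_natCast_pow (by norm_num) (by omega)
      set v := rw' r w with hv
      have hvA : Adm v := hw.rw' hr0
      have hAB : Adm (v ++ w) := hvA.append hw
      refine ⟨v ++ (v ++ w), hvA.append hAB, ?_, ?_⟩
      · rw [List.length_append, List.length_append, length_rw']
        obtain ⟨m, hm⟩ := ho
        exact ⟨3 * m + 1, by omega⟩
      -- the half trace of the new word
      have hB1 : ∀ k, P v k * P w (-(r * k)) = 1 := P_rw' hr0 hw.nz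
      have htauv : ∀ k, (P v k).re = tau w (r * k) := by
        intro k
        have h1 : P v k = star (P w (-(r * k))) := by
          have h2 : P w (-(r * k)) * star (P w (-(r * k))) = 1 := by
            rw [Quaternion.self_mul_star, Quaternion.normSq_eq_norm_mul_self,
              norm_P hw.nz, mul_one, Quaternion.coe_one]
          calc P v k = P v k * (P w (-(r * k)) * star (P w (-(r * k)))) := by
                rw [h2, mul_one]
            _ = star (P w (-(r * k))) := by rw [← mul_assoc, hB1, one_mul]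
        rw [h1, Quaternion.re_star, ← tau_neg w (r * k)]
        rfl
      have htau' : ∀ k, tau (v ++ (v ++ w)) k =
          2 * tau w (r * k) * tau (v ++ w) k - tau w k := by
        intro k
        unfold tau
        rw [P_append, P_append, mul_assoc, sq_eq (norm_P hvA.nz k), mul_sub, mul_one,
          mul_smul_comm, Quaternion.re_sub, Quaternion.re_smul, htauv, smul_eq_mul]
        rfl
      have hR0 : tau (v ++ w) 0 = 1 := by
        have h1 := hB1 0
        rw [mul_zero, neg_zero] at h1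
        have h2 : P w 0 * P v 0 = 1 := mul_eq_one_comm.1 h1
        unfold tau
        rw [P_append, h2, Quaternion.re_one]
      -- factorisation
      have hga : AnalyticAt ℝ (fun k => g (r * k) * tau (v ++ w) k - g k) 0 := by
        have h1 : AnalyticAt ℝ (fun k => g (r * k)) 0 := by
          have : AnalyticAt ℝ g (r * 0) := by rwa [mul_zero]
          exact this.fun_comp (analyticAt_const.mul analyticAt_id)
        exact (h1.mul ((good_tau hAB.nz).an 0 (mem_univ _))).sub hg
      obtain ⟨g₁, hg₁, hg₁'⟩ := divide hga (by rw [mul_zero, hR0]; ring)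
      refine ⟨g₁, hg₁, ?_⟩
      have hsc : ∀ᶠ k in 𝓝 (0:ℝ), tau w (r * k) = (r * k) ^ N * g (r * k) := by
        have : Tendsto (fun k : ℝ => r * k) (𝓝 0) (𝓝 0) := by
          have h1 : Continuous fun k : ℝ => r * k := by fun_prop
          have h2 := h1.tendsto 0
          rwa [mul_zero] at h2
        exact this.eventually hgw
      filter_upwards [hgw, hsc, hg₁'] with k h1 h2 h3
      rw [htau', h1, h2, mul_pow, hrN]
      have : k ^ (N + 1) * g₁ k = k ^ N * (k * g₁ k) := by ring
      rw [this, ← h3]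
      ring

/-- global form of the vanishing order -/
lemma tau_bound {w : List (ℝ × ℝ)} (hw : NZ w) {N : ℕ} {g : ℝ → ℝ} (hg : AnalyticAt ℝ g 0)
    (h : ∀ᶠ k in 𝓝 (0:ℝ), tau w k = k ^ N * g k) :
    ∃ C : ℝ, 0 < C ∧ ∀ k, |tau w k| ≤ C * |k| ^ N := by
  have h1 : ∀ᶠ k in 𝓝 (0:ℝ), |g k| < |g 0| + 1 :=
    hg.continuousAt.abs.eventually_lt_const (by linarith)
  obtain ⟨δ, hδ, hb⟩ := Metric.eventually_nhds_iff.1 (h.and h1)
  refine ⟨max (|g 0| + 1) ((1 / δ) ^ N), by positivity, fun k => ?_⟩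
  rcases lt_or_ge |k| δ with hk | hk
  · obtain ⟨h2, h3⟩ := hb (y := k) (by simpa [Real.dist_eq] using hk)
    rw [h2, abs_mul, abs_pow, mul_comm]
    exact mul_le_mul_of_nonneg_right (h3.le.trans (le_max_left _ _)) (by positivity)
  · refine (abs_tau_le hw k).trans ?_
    calc (1:ℝ) ≤ (|k| / δ) ^ N := one_le_pow₀ ((one_le_div hδ).2 hk)
      _ = (1 / δ) ^ N * |k| ^ N := by rw [← mul_pow]; congr 1; ring
      _ ≤ _ := mul_le_mul_of_nonneg_right (le_max_right _ _) (by positivity)

end H76DD
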