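import Mathlib
import Pool.Agent.L5helper76.DD.Quat

set_option autoImplicit false

open MeasureTheory Set Filter Topology
open scoped ContDiff Quaternion

namespace H76DD

lemma norm_le_sum (q : ℍ) : ‖q‖ ≤ |q.re| + |q.imI| + |q.imJ| + |q.imK| := by
  have h1 := Quaternion.normSq_eq_norm_mul_self q
  rw [Quaternion.normSq_def'] at h1
  change q.re ^ 2 + q.imI ^ 2 + q.imJ ^ 2 + q.imK ^ 2 = _ at h1
  have a0 := abs_nonneg q.re
  have a1 := abs_nonneg q.imI
  have a2 := abs_nonneg q.imJ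
  have a3 := abs_nonneg q.imK
  rw [← sq_abs q.re, ← sq_abs q.imI, ← sq_abs q.imJ, ← sq_abs q.imK] at h1
  refine le_of_sq_le_sq ?_ (by positivity)
  have h2 : ‖q‖ ^ 2 = ‖q‖ * ‖q‖ := sq _
  rw [h2, ← h1]
  nlinarith [mul_nonneg a0 a1, mul_nonneg a0 a2, mul_nonneg a0 a3, mul_nonneg a1 a2,
    mul_nonneg a1 a3, mul_nonneg a2 a3]

/-- free rotation -/
noncomputable def Ex (x : ℝ) : ℍ := Real.cos x • (1 : ℍ) + Real.sin x • qI

lemma Ex_add (x y : ℝ) : Ex (x + y) = Ex x * Ex y := by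
  ext <;> simp [Ex, Quaternion.re_mul, Quaternion.imI_mul, Quaternion.imJ_mul,
    Quaternion.imK_mul, Real.cos_add, Real.sin_add] <;> ring

lemma norm_Ex (x : ℝ) : ‖Ex x‖ = 1 := by
  apply norm_eq_one_of_normSq
  rw [Quaternion.normSq_def']
  change (Ex x).re ^ 2 + (Ex x).imI ^ 2 + (Ex x).imJ ^ 2 + (Ex x).imK ^ 2 = 1
  simp [Ex]

/-- total duration -/
noncomputable def dur (w : List (ℝ × ℝ)) : ℝ := (w.map Prod.fst).sum

@[simp] lemma dur_nil : dur [] = 0 := rfl
@[simp] lemma dur_cons (p : ℝ × ℝ) (w : List (ℝ × ℝ)) : dur (p :: w) = p.1 + dur w := by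
  simp [dur]

lemma dur_nonneg {w : List (ℝ × ℝ)} (hw : NZ w) : 0 ≤ dur w := by
  induction w with
  | nil => simp
  | cons p w ih =>
    rw [dur_cons]
    have := (hw p List.mem_cons_self).1
    have := ih hw.tail
    linarith

lemma rho_asymp (b : ℝ) {k : ℝ} (hk : 1 ≤ k) : 0 ≤ rho b k - k ∧ rho b k - k ≤ b ^ 2 / k := by
  have h1 : k ≤ rho b k := by
    unfold rho
    exact Real.le_sqrt_of_sq_le (by nlinarith [sq_nonneg b])
  refine ⟨by linarith, ?_⟩
  rw [le_div_iff₀ (by linarith)]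
  have h2 := rho_sq b k
  nlinarith

lemma el_asymp {s b : ℝ} (hs : 0 ≤ s) (hb : b ≠ 0) : ∃ C : ℝ, 0 ≤ C ∧ ∀ k, 1 ≤ k →
    ‖el s b k - Ex (s * k)‖ ≤ C / k := by
  refine ⟨2 * s * b ^ 2 + b ^ 2 + |b|, by positivity, fun k hk => ?_⟩
  have hk0 : 0 < k := by linarith
  obtain ⟨h1, h2⟩ := rho_asymp b hk
  have hρ := rho_pos hb k
  have hkρ : k ≤ rho b k := by linarith
  refine (norm_le_sum _).trans ?_
  have e0 : (el s b k - Ex (s * k)).re = Real.cos (s * rho b k) - Real.cos (s * k) := by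
    simp [Ex]
  have e1 : (el s b k - Ex (s * k)).imI = k * snc s b k - Real.sin (s * k) := by simp [Ex]
  have e2 : (el s b k - Ex (s * k)).imJ = -(b * snc s b k) := by simp [Ex]
  have e3 : (el s b k - Ex (s * k)).imK = 0 := by simp [Ex]
  rw [e0, e1, e2, e3, abs_zero, add_zero]
  have hd : |s * rho b k - s * k| ≤ s * (b ^ 2 / k) := by
    rw [← mul_sub, abs_mul, abs_of_nonneg hs, abs_of_nonneg h1]
    exact mul_le_mul_of_nonneg_left h2 hs
  have b0 : |Real.cos (s * rho b k) - Real.cos (s * k)| ≤ s * (b ^ 2 / k) :=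
    (Real.abs_cos_sub_cos_le _ _).trans hd
  have b1 : |k * snc s b k - Real.sin (s * k)| ≤ b ^ 2 / k + s * (b ^ 2 / k) := by
    have e : k * snc s b k - Real.sin (s * k) =
        -((rho b k - k) / rho b k * Real.sin (s * rho b k)) +
          (Real.sin (s * rho b k) - Real.sin (s * k)) := by
      unfold snc
      field_simp
      ring
    rw [e]
    refine (abs_add_le _ _).trans (add_le_add ?_ ((Real.abs_sin_sub_sin_le _ _).trans hd))
    rw [abs_neg, abs_mul]
    have h3 : |(rho b k - k) / rho b k| ≤ b ^ 2 / k := by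
      rw [abs_of_nonneg (div_nonneg h1 hρ.le)]
      refine le_trans ?_ h2
      exact div_le_self h1 (by linarith)
    calc _ ≤ b ^ 2 / k * 1 := mul_le_mul h3 (Real.abs_sin_le_one _) (abs_nonneg _)
          (by positivity)
      _ = _ := mul_one _
  have b2 : |-(b * snc s b k)| ≤ |b| / k := by
    rw [abs_neg, abs_mul]
    unfold snc
    rw [abs_mul, abs_inv, abs_of_pos hρ, div_eq_mul_inv]
    refine mul_le_mul_of_nonneg_left ?_ (abs_nonneg _)
    calc _ ≤ 1 * k⁻¹ := mul_le_mul (Real.abs_sin_le_one _) (inv_anti₀ hk0 hkρ) (by positivity)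
          one_pos.le
      _ = _ := one_mul _
  have e : (2 * s * b ^ 2 + b ^ 2 + |b|) / k =
      s * (b ^ 2 / k) + (b ^ 2 / k + s * (b ^ 2 / k)) + |b| / k := by ring
  rw [e]
  linarith

lemma P_asymp {w : List (ℝ × ℝ)} (hw : NZ w) : ∃ C : ℝ, 0 ≤ C ∧ ∀ k, 1 ≤ k →
    ‖P w k - Ex (dur w * k)‖ ≤ C / k := by
  induction w with
  | nil => exact ⟨0, le_rfl, fun k hk => by
      have : Ex 0 = 1 := by simp [Ex]
      simp [this]⟩
  | cons p w ih =>
    obtain ⟨C, hC, h⟩ := ih hw.tail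
    obtain ⟨hs, hb⟩ := hw p List.mem_cons_self
    obtain ⟨C', hC', h'⟩ := el_asymp hs hb
    refine ⟨C + C', by positivity, fun k hk => ?_⟩
    rw [P_cons, dur_cons, add_mul, add_comm (p.1 * k), Ex_add]
    have e : P w k * el p.1 p.2 k - Ex (dur w * k) * Ex (p.1 * k) =
        (P w k - Ex (dur w * k)) * el p.1 p.2 k +
          Ex (dur w * k) * (el p.1 p.2 k - Ex (p.1 * k)) := by noncomm_ring
    rw [e, add_div]
    refine (norm_add_le _ _).trans (add_le_add ?_ ?_)
    · rw [norm_mul, norm_el hb, mul_one]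
      exact h k hk
    · rw [norm_mul, norm_Ex, one_mul]
      exact h' k hk

lemma tau_ne {w : List (ℝ × ℝ)} (hw : NZ w) (hd : 0 < dur w) : ∃ k, tau w k ≠ 0 := by
  obtain ⟨C, hC, h⟩ := P_asymp hw
  obtain ⟨n, hn⟩ := exists_nat_gt (max ((C + 1) * dur w / (2 * Real.pi))
    (dur w / (2 * Real.pi)))
  have hpi := Real.pi_pos
  set k := n * (2 * Real.pi) / dur w with hk
  have h1 : 1 < k := by
    rw [hk, lt_div_iff₀ hd, one_mul]
    have := (le_max_right _ _).trans_lt hn
    rwa [div_lt_iff₀ (by positivity)] at this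
  have h2 : C + 1 < k := by
    rw [hk, lt_div_iff₀ hd]
    have := (le_max_left _ _).trans_lt hn
    rwa [div_lt_iff₀ (by positivity)] at this
  refine ⟨k, fun h0 => ?_⟩
  have h3 : dur w * k = n * (2 * Real.pi) := by rw [hk]; field_simp
  have h4 := h k h1.le
  rw [h3] at h4
  have h5 := (abs_re_le_norm _).trans h4
  have h6 : (P w k - Ex (n * (2 * Real.pi))).re = tau w k - 1 := by
    simp [Ex, tau, Real.cos_nat_mul_two_pi]
  rw [h6, h0] at h5
  have h7 : C / k < 1 := by
    rw [div_lt_one (by linarith)]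
    linarith
  norm_num at h5
  linarith

/-- the curvature function of the phase -/
noncomputable def Gf (τ : ℝ → ℝ) (k : ℝ) : ℝ :=
  deriv (deriv τ) k * (1 - τ k * τ k) + τ k * (deriv τ k * deriv τ k)

noncomputable def Hf (τ : ℝ → ℝ) (k : ℝ) : ℝ := (1 - τ k * τ k) * Gf τ k

lemma good_Gf {τ : ℝ → ℝ} (h : Good τ) : Good (Gf τ) :=
  (h.deriv.deriv.mul ((Good.const 1).sub (h.mul h))).add (h.mul (h.deriv.mul h.deriv))

lemma good_Hf {τ : ℝ → ℝ} (h : Good τ) : Good (Hf τ) :=
  ((Good.const 1).sub (h.mul h)).mul (good_Gf h)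

lemma Hf_ne {τ : ℝ → ℝ} (h : Good τ) (h0 : τ 0 = 0) (heven : ∀ k, τ (-k) = τ k)
    (hne : ∃ k, τ k ≠ 0) : ∃ k, Hf τ k ≠ 0 := by
  by_contra hcon
  push Not at hcon
  have hd := h.differentiable
  have hd' := h.deriv.differentiable
  -- the derivative vanishes at zero
  have hd0 : deriv τ 0 = 0 := by
    have h1 : HasDerivAt (fun k => τ (-k)) (deriv τ (-0) * (-1)) 0 :=
      (hd (-0)).hasDerivAt.comp 0 (hasDerivAt_neg 0)
    have h2 : (fun k => τ (-k)) = τ := funext heven
    rw [h2, neg_zero] at h1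
    have := (hd 0).hasDerivAt.unique h1
    linarith
  have hcont := h.continuous
  have hev : ∀ᶠ k in 𝓝 (0:ℝ), τ k * τ k < 1 := by
    have : Tendsto (fun k => τ k * τ k) (𝓝 0) (𝓝 (τ 0 * τ 0)) := (hcont.mul hcont).tendsto 0
    rw [h0, mul_zero] at this
    exact this.eventually_lt_const one_pos
  obtain ⟨δ, hδ, hb⟩ := Metric.eventually_nhds_iff.1 hev
  set s : Set ℝ := Ioo (-δ) δ with hs
  have hmem : ∀ k ∈ s, 0 < 1 - τ k * τ k := fun k hk => by
    have := hb (y := k) (by rw [Real.dist_eq, sub_zero, abs_lt]; exact hk)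
    linarith
  have hG : ∀ k ∈ s, Gf τ k = 0 := fun k hk => by
    have := hcon k
    unfold Hf at this
    exact (mul_eq_zero.1 this).resolve_left (hmem k hk).ne'
  have h0s : (0:ℝ) ∈ s := ⟨by linarith, hδ⟩
  -- first integral
  have hder : ∀ k ∈ s, HasDerivAt (fun k => deriv τ k * deriv τ k / (1 - τ k * τ k)) 0 k := by
    intro k hk
    have a1 := (hd' k).hasDerivAt
    have a2 := (hd k).hasDerivAt
    have a3 := (a1.mul a1).div ((a2.mul a2).const_sub 1) (hmem k hk).ne'
    refine a3.congr_deriv ?_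
    have hne' := (hmem k hk).ne'
    have hg := hG k hk
    unfold Gf at hg
    rw [div_eq_zero_iff]
    left
    simp only [Pi.mul_apply]
    linear_combination 2 * deriv τ k * hg
  have hconst : ∀ k ∈ s, deriv τ k = 0 := by
    intro k hk
    have h1 := isOpen_Ioo.is_const_of_deriv_eq_zero (isPreconnected_Ioo)
      (f := fun k => deriv τ k * deriv τ k / (1 - τ k * τ k))
      (fun x hx => (hder x hx).differentiableAt.differentiableWithinAt)
      (fun x hx => (hder x hx).deriv) hk h0s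
    simp only [hd0, mul_zero, zero_div] at h1
    have h2 := (hmem k hk).ne'
    rw [div_eq_zero_iff] at h1
    rcases h1 with h1 | h1
    · exact mul_self_eq_zero.1 h1
    · exact absurd h1 h2
  have hτ : ∀ k ∈ s, τ k = 0 := by
    intro k hk
    have h1 := isOpen_Ioo.is_const_of_deriv_eq_zero (isPreconnected_Ioo)
      (f := τ) (fun x _ => (hd x).differentiableWithinAt) hconst hk h0s
    rw [h1, h0]
  have h2 : τ =ᶠ[𝓝 0] fun _ => 0 := by
    filter_upwards [isOpen_Ioo.mem_nhds h0s] with k hk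
    exact hτ k hk
  have h3 := h.an.eq_of_eventuallyEq (fun _ _ => analyticAt_const) h2
  obtain ⟨y, hy⟩ := hne
  exact hy (by rw [h3])

lemma hasDerivAt_rho {b : ℝ} (hb : b ≠ 0) (k : ℝ) : HasDerivAt (rho b) (k / rho b k) k := by
  unfold rho
  have h1 : HasDerivAt (fun k : ℝ => k ^ 2 + b ^ 2) (2 * k) k := by
    have := (hasDerivAt_pow 2 k).add_const (b ^ 2)
    simpa using this
  have h2 := h1.sqrt (rho_arg_pos hb k).ne'
  refine h2.congr_deriv ?_
  rw [mul_div_mul_left _ _ two_ne_zero]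

lemma hasDerivAt_snc {b : ℝ} (hb : b ≠ 0) (s k : ℝ) : HasDerivAt (snc s b)
    (Real.cos (s * rho b k) * (s * (k / rho b k)) * (rho b k)⁻¹ +
      Real.sin (s * rho b k) * (-(k / rho b k) / rho b k ^ 2)) k := by
  have h1 := hasDerivAt_rho hb k
  have h2 := (h1.const_mul s).sin
  exact h2.mul (h1.inv (rho_pos hb k).ne')

lemma abs_div_rho_le {b : ℝ} (hb : b ≠ 0) (k : ℝ) : |k / rho b k| ≤ 1 := by
  rw [abs_div, abs_of_pos (rho_pos hb k), div_le_one (rho_pos hb k)]
  unfold rho
  exact Real.abs_le_sqrt (by nlinarith [sq_nonneg b])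

lemma abs_deriv_snc_le {b s : ℝ} (hb : b ≠ 0) (hs : 0 ≤ s) (k : ℝ) :
    |Real.cos (s * rho b k) * (s * (k / rho b k)) * (rho b k)⁻¹ +
      Real.sin (s * rho b k) * (-(k / rho b k) / rho b k ^ 2)| ≤ 2 * s / rho b k := by
  have hρ := rho_pos hb k
  have h1 : |Real.cos (s * rho b k) * (s * (k / rho b k)) * (rho b k)⁻¹| ≤ s / rho b k := by
    rw [abs_mul, abs_mul, abs_mul, abs_inv, abs_of_pos hρ, abs_of_nonneg hs, div_eq_mul_inv]
    refine mul_le_mul_of_nonneg_right ?_ (by positivity)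
    calc _ ≤ 1 * (s * 1) := mul_le_mul (Real.abs_cos_le_one _)
          (mul_le_mul_of_nonneg_left (abs_div_rho_le hb k) hs) (by positivity) one_pos.le
      _ = s := by ring
  have h2 : |Real.sin (s * rho b k) * (-(k / rho b k) / rho b k ^ 2)| ≤ s / rho b k := by
    rw [abs_mul, abs_div, abs_neg, abs_of_pos (by positivity : 0 < rho b k ^ 2)]
    have h3 : |Real.sin (s * rho b k)| ≤ s * rho b k := by
      have := Real.abs_sin_le_abs (x := s * rho b k)
      rwa [abs_of_nonneg (by positivity : 0 ≤ s * rho b k)] at this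
    calc _ ≤ s * rho b k * (1 / rho b k ^ 2) := by
          refine mul_le_mul h3 ?_ (by positivity) (by positivity)
          exact div_le_div_of_nonneg_right (abs_div_rho_le hb k) (by positivity)
      _ = s / rho b k := by field_simp
  refine (abs_add_le _ _).trans ?_
  have : 2 * s / rho b k = s / rho b k + s / rho b k := by ring
  linarith

lemma norm_qI : ‖qI‖ = 1 := by
  apply norm_eq_one_of_normSq
  rw [Quaternion.normSq_def']
  change qI.re ^ 2 + qI.imI ^ 2 + qI.imJ ^ 2 + qI.imK ^ 2 = 1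
  simp

lemma norm_qJ : ‖qJ‖ = 1 := by
  apply norm_eq_one_of_normSq
  rw [Quaternion.normSq_def']
  change qJ.re ^ 2 + qJ.imI ^ 2 + qJ.imJ ^ 2 + qJ.imK ^ 2 = 1
  simp

lemma contDiff_el (s : ℝ) {b : ℝ} (hb : b ≠ 0) {n : WithTop ℕ∞} : ContDiff ℝ n (el s b) := by
  unfold el
  have h1 : ContDiff ℝ n (fun k => Real.cos (s * rho b k)) := (good_cos s hb).contDiff
  have h2 : ContDiff ℝ n (fun k => k * snc s b k) := (good_ksnc s hb).contDiff
  have h3 : ContDiff ℝ n (fun k => b * snc s b k) := ((good_snc s hb).const_mul b).contDiff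
  exact ((h1.smul contDiff_const).add (h2.smul contDiff_const)).sub (h3.smul contDiff_const)

lemma norm_deriv_el {s b : ℝ} (hs : 0 ≤ s) (hb : b ≠ 0) (k : ℝ) : ‖deriv (el s b) k‖ ≤ 6 * s := by
  have hρ := rho_pos hb k
  have h1 := hasDerivAt_rho hb k
  have h2 := (h1.const_mul s).cos
  have h3 := hasDerivAt_snc hb s k
  have h3b := abs_deriv_snc_le hb hs k
  set D := Real.cos (s * rho b k) * (s * (k / rho b k)) * (rho b k)⁻¹ +
      Real.sin (s * rho b k) * (-(k / rho b k) / rho b k ^ 2) with hD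
  have h4 : HasDerivAt (fun k => k * snc s b k) (1 * snc s b k + k * D) k :=
    (hasDerivAt_id k).mul h3
  have h5 : HasDerivAt (fun k => b * snc s b k) (b * D) k := h3.const_mul b
  have h6 : HasDerivAt (el s b) ((-Real.sin (s * rho b k) * (s * (k / rho b k))) • (1 : ℍ) +
      (1 * snc s b k + k * D) • qI - (b * D) • qJ) k :=
    ((h2.smul_const _).add (h4.smul_const _)).sub (h5.smul_const _)
  rw [h6.deriv]
  have hsn : |snc s b k| ≤ s := by
    unfold snc
    rw [abs_mul, abs_inv, abs_of_pos hρ]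
    have := Real.abs_sin_le_abs (x := s * rho b k)
    rw [abs_of_nonneg (by positivity : 0 ≤ s * rho b k)] at this
    calc _ ≤ s * rho b k * (rho b k)⁻¹ := mul_le_mul_of_nonneg_right this (by positivity)
      _ = s := by field_simp
  have hkr : |k| ≤ rho b k := Real.abs_le_sqrt (by nlinarith [sq_nonneg b])
  have hbr : |b| ≤ rho b k := Real.abs_le_sqrt (by nlinarith [sq_nonneg k])
  have c0 : ‖(-Real.sin (s * rho b k) * (s * (k / rho b k))) • (1 : ℍ)‖ ≤ s := by
    rw [norm_smul, norm_one, mul_one, Real.norm_eq_abs, abs_mul, abs_neg, abs_mul,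
      abs_of_nonneg hs]
    calc _ ≤ 1 * (s * 1) := mul_le_mul (Real.abs_sin_le_one _)
          (mul_le_mul_of_nonneg_left (abs_div_rho_le hb k) hs) (by positivity) one_pos.le
      _ = s := by ring
  have cD : ∀ x, |x| ≤ rho b k → |x * D| ≤ 2 * s := by
    intro x hx
    rw [abs_mul]
    calc |x| * |D| ≤ rho b k * (2 * s / rho b k) := mul_le_mul hx h3b (abs_nonneg _) hρ.le
      _ = 2 * s := by field_simp
  have c1 : ‖(1 * snc s b k + k * D) • qI‖ ≤ 3 * s := by
    rw [norm_smul, norm_qI, mul_one, Real.norm_eq_abs, one_mul]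
    refine (abs_add_le _ _).trans ?_
    have := cD k hkr
    linarith
  have c2 : ‖(b * D) • qJ‖ ≤ 2 * s := by
    rw [norm_smul, norm_qJ, mul_one, Real.norm_eq_abs]
    exact cD b hbr
  refine (norm_sub_le _ _).trans ?_
  have c3 := norm_add_le ((-Real.sin (s * rho b k) * (s * (k / rho b k))) • (1 : ℍ))
    ((1 * snc s b k + k * D) • qI)
  linarith

lemma contDiff_P {w : List (ℝ × ℝ)} (hw : NZ w) {n : WithTop ℕ∞} : ContDiff ℝ n (P w) := by
  induction w with
  | nil => exact contDiff_const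
  | cons p w ih => exact (ih hw.tail).mul (contDiff_el p.1 (hw p List.mem_cons_self).2)

lemma norm_deriv_P {w : List (ℝ × ℝ)} (hw : NZ w) (k : ℝ) : ‖deriv (P w) k‖ ≤ 6 * dur w := by
  induction w with
  | nil =>
    have : P [] = fun _ => (1 : ℍ) := rfl
    rw [this]
    simp
  | cons p w ih =>
    obtain ⟨hs, hb⟩ := hw p List.mem_cons_self
    have h1 : DifferentiableAt ℝ (P w) k :=
      ((contDiff_P hw.tail (n := 1)).differentiable (by norm_num)) k
    have h2 : DifferentiableAt ℝ (el p.1 p.2) k :=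
      ((contDiff_el p.1 hb (n := 1)).differentiable (by norm_num)) k
    have h3 : HasDerivAt (P (p :: w)) (deriv (P w) k * el p.1 p.2 k +
        P w k * deriv (el p.1 p.2) k) k := h1.hasDerivAt.mul h2.hasDerivAt
    rw [h3.deriv, dur_cons]
    refine (norm_add_le _ _).trans ?_
    rw [norm_mul, norm_mul, norm_el hb, norm_P hw.tail, mul_one, one_mul]
    have := ih hw.tail
    have := norm_deriv_el hs hb k
    linarith

end H76DD
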