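import Mathlib
import Pool.Agent.L5helper76.DD.Quat2

set_option autoImplicit false

open MeasureTheory Set Filter Topology
open scoped ContDiff Quaternion

namespace H76DD

/-- the generator -/
noncomputable def gen (b k : ℝ) : ℍ := k • qI - b • qJ

lemma el_zero (b k : ℝ) : el 0 b k = 1 := by
  ext <;> simp [el, snc]

lemma hasDerivAt_el_time {b : ℝ} (hb : b ≠ 0) (k t : ℝ) :
    HasDerivAt (fun t => el t b k) (gen b k * el t b k) t := by
  have hρ := rho_pos hb k
  have h1 : HasDerivAt (fun t => t * rho b k) (1 * rho b k) t :=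
    (hasDerivAt_id t).mul_const _
  have h2 := h1.cos
  have h3 : HasDerivAt (fun t => snc t b k) (Real.cos (t * rho b k)) t := by
    have := h1.sin.mul_const (rho b k)⁻¹
    refine this.congr_deriv ?_
    field_simp
  have h4 := ((h2.smul_const (1 : ℍ)).add ((h3.const_mul k).smul_const qI)).sub
    ((h3.const_mul b).smul_const qJ)
  refine h4.congr_deriv ?_
  have h5 := snc_rho hb t k
  have h6 := rho_sq b k
  ext
  · simp [gen, Quaternion.re_mul]
    rw [← h5]
    linear_combination (-(snc t b k)) * h6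
  · simp [gen, Quaternion.imI_mul]
  · simp [gen, Quaternion.imJ_mul]
  · simp [gen, Quaternion.imK_mul]
    ring

lemma continuous_gen_mul (b k : ℝ) {U : ℝ → ℍ} {s : Set ℝ} (h : ContinuousOn U s) :
    ContinuousOn (fun t => gen b k * U t) s := continuousOn_const.mul h

/-- solutions of the integral equation on `[0, T]` -/
structure Sol (β : ℝ → ℝ) (k : ℝ) (U : ℝ → ℍ) (T : ℝ) : Prop where
  cont : ContinuousOn U (Icc 0 T)
  int : IntervalIntegrable (fun s => gen (β s) k * U s) volume 0 T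
  eq : ∀ t ∈ Icc 0 T, U t = 1 + ∫ s in 0..t, gen (β s) k * U s

lemma Sol.zero {β : ℝ → ℝ} {k : ℝ} {U : ℝ → ℍ} (h : U 0 = 1) : Sol β k U 0 := by
  refine ⟨?_, ?_, ?_⟩
  · rw [Icc_self]
    exact continuousOn_singleton U 0
  · exact IntervalIntegrable.refl
  · intro t ht
    rw [Icc_self, mem_singleton_iff] at ht
    rw [ht, h]
    simp

lemma Sol.single {b : ℝ} (hb : b ≠ 0) (k : ℝ) {T : ℝ} :
    Sol (fun _ => b) k (fun t => el t b k) T := by
  have hc : Continuous (fun t => el t b k) :=
    continuous_iff_continuousAt.2 fun t => (hasDerivAt_el_time hb k t).continuousAt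
  have hc2 : Continuous (fun t => gen b k * el t b k) := continuous_const.mul hc
  refine ⟨hc.continuousOn, hc2.intervalIntegrable _ _, fun t _ => ?_⟩
  rw [intervalIntegral.integral_eq_sub_of_hasDerivAt
    (fun s _ => hasDerivAt_el_time hb k s) (hc2.intervalIntegrable _ _), el_zero]
  abel

lemma Sol.glue {β β₂ : ℝ → ℝ} {k : ℝ} {U U₂ : ℝ → ℍ} {T₁ T₂ : ℝ} (h1 : Sol β k U T₁)
    (h2 : Sol β₂ k U₂ T₂) (hT₁ : 0 ≤ T₁) (hT₂ : 0 ≤ T₂)
    (hβ : ∀ t ∈ Ico T₁ (T₁ + T₂), β t = β₂ (t - T₁))
    (hU : ∀ t ∈ Icc T₁ (T₁ + T₂), U t = U₂ (t - T₁) * U T₁) : Sol β k U (T₁ + T₂) := by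
  have hint2 : ∀ t ∈ Icc T₁ (T₁ + T₂), IntervalIntegrable (fun s => gen (β s) k * U s)
      volume T₁ t := by
    intro t ht
    have h3 : IntervalIntegrable (fun s => gen (β₂ s) k * U₂ s) volume 0 (t - T₁) :=
      h2.int.mono_set (by
        rw [uIcc_of_le (by linarith [ht.1]), uIcc_of_le hT₂]
        exact Icc_subset_Icc le_rfl (by linarith [ht.2]))
    have h4 := (h3.comp_sub_right T₁).mul_const (U T₁)
    rw [zero_add, sub_add_cancel] at h4
    rw [intervalIntegrable_iff_integrableOn_Ioo_of_le ht.1] at h4 ⊢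
    refine h4.congr_fun (fun s hs => ?_) measurableSet_Ioo
    simp only
    rw [hβ s ⟨hs.1.le, hs.2.trans_le ht.2⟩, hU s ⟨hs.1.le, hs.2.le.trans ht.2⟩, mul_assoc]
  have hcU₂ : ContinuousOn U (Icc T₁ (T₁ + T₂)) := by
    have h3 : ContinuousOn (fun t => U₂ (t - T₁) * U T₁) (Icc T₁ (T₁ + T₂)) := by
      refine ContinuousOn.mul ?_ continuousOn_const
      refine h2.cont.comp (by fun_prop) ?_
      intro t ht
      exact ⟨by linarith [ht.1], by linarith [ht.2]⟩
    exact h3.congr hU
  refine ⟨?_, ?_, ?_⟩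
  · have : Icc 0 (T₁ + T₂) = Icc 0 T₁ ∪ Icc T₁ (T₁ + T₂) :=
      (Icc_union_Icc_eq_Icc hT₁ (by linarith)).symm
    rw [this]
    exact h1.cont.union_of_isClosed hcU₂ isClosed_Icc isClosed_Icc
  · exact h1.int.trans (hint2 _ (right_mem_Icc.2 (by linarith)))
  · intro t ht
    rcases le_or_gt t T₁ with htT | htT
    · exact h1.eq t ⟨ht.1, htT⟩
    · have htI : t ∈ Icc T₁ (T₁ + T₂) := ⟨htT.le, ht.2⟩
      rw [← intervalIntegral.integral_add_adjacent_intervals h1.int (hint2 t htI),
        ← add_assoc, ← h1.eq T₁ ⟨hT₁, le_rfl⟩]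
      have h3 : ∫ s in T₁..t, gen (β s) k * U s =
          (∫ s in 0..(t - T₁), gen (β₂ s) k * U₂ s) * U T₁ := by
        have h4 : ∫ s in T₁..t, gen (β s) k * U s =
            ∫ s in T₁..t, (gen (β₂ (s - T₁)) k * U₂ (s - T₁)) * U T₁ := by
          refine intervalIntegral.integral_congr_Ioo_of_le htT.le fun s hs => ?_
          change gen (β s) k * U s = (gen (β₂ (s - T₁)) k * U₂ (s - T₁)) * U T₁
          rw [hβ s ⟨hs.1.le, hs.2.trans_le ht.2⟩, hU s ⟨hs.1.le, hs.2.le.trans ht.2⟩, mul_assoc]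
        rw [h4, intervalIntegral.integral_comp_sub_right
          (fun s => (gen (β₂ s) k * U₂ s) * U T₁) T₁, sub_self]
        have h3 : IntervalIntegrable (fun s => gen (β₂ s) k * U₂ s) volume 0 (t - T₁) :=
          h2.int.mono_set (by
            rw [uIcc_of_le (by linarith), uIcc_of_le hT₂]
            exact Icc_subset_Icc le_rfl (by linarith [ht.2]))
        exact ((ContinuousLinearMap.mul ℝ ℍ).flip (U T₁)).intervalIntegral_comp_comm h3
      have h5 := h2.eq (t - T₁) ⟨by linarith, by linarith [ht.2]⟩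
      have h6 : ∫ s in 0..(t - T₁), gen (β₂ s) k * U₂ s = U₂ (t - T₁) - 1 := by
        rw [h5]; abel
      rw [h3, h6, hU t htI]
      noncomm_ring

/-- truncation of a word at time `t` -/
noncomputable def tr : List (ℝ × ℝ) → ℝ → List (ℝ × ℝ)
  | [], _ => []
  | p :: w, t => if t ≤ p.1 then [(t, p.2)] else p :: tr w (t - p.1)

/-- the field of a word -/
noncomputable def fd : List (ℝ × ℝ) → ℝ → ℝ
  | [], _ => 0
  | p :: w, t => if t < p.1 then p.2 else fd w (t - p.1)

lemma tr_nz {w : List (ℝ × ℝ)} (hw : NZ w) : ∀ {t : ℝ}, 0 ≤ t → NZ (tr w t) := by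
  induction w with
  | nil => intro t ht; simpa [tr] using hw
  | cons p w ih =>
    intro t ht
    obtain ⟨hs, hb⟩ := hw p List.mem_cons_self
    unfold tr
    split_ifs with h
    · intro q hq
      rw [List.mem_singleton] at hq
      subst hq
      exact ⟨ht, hb⟩
    · intro q hq
      rcases List.mem_cons.1 hq with rfl | hq
      · exact ⟨hs, hb⟩
      · exact ih hw.tail (by linarith) q hq

lemma dur_tr_le {w : List (ℝ × ℝ)} (hw : NZ w) : ∀ {t : ℝ}, 0 ≤ t → dur (tr w t) ≤ dur w := by
  induction w with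
  | nil => intro t ht; simp [tr]
  | cons p w ih =>
    intro t ht
    unfold tr
    split_ifs with h
    · simp only [dur_cons, dur_nil, add_zero]
      have := dur_nonneg hw.tail
      linarith
    · simp only [dur_cons]
      have := ih hw.tail (t := t - p.1) (by linarith)
      linarith

/-- the propagator of a word at time `t` -/
noncomputable def V (w : List (ℝ × ℝ)) (t k : ℝ) : ℍ := P (tr w t) k

lemma V_zero {w : List (ℝ × ℝ)} (hw : NZ w) (k : ℝ) : V w 0 k = 1 := by
  cases w with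
  | nil => simp [V, tr]
  | cons p w =>
    have := (hw p List.mem_cons_self).1
    simp [V, tr, this, el_zero]

lemma V_dur {w : List (ℝ × ℝ)} (hw : Adm w) (k : ℝ) : V w (dur w) k = P w k := by
  induction w with
  | nil => simp [V, tr]
  | cons p w ih =>
    unfold V tr
    cases w with
    | nil => simp
    | cons q w =>
      have h1 : 0 < q.1 := (hw.tail q List.mem_cons_self).1
      have h2 := dur_nonneg hw.tail.tail.nz
      have h3 : ¬ dur (p :: q :: w) ≤ p.1 := by
        rw [dur_cons, dur_cons]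
        push Not
        linarith
      rw [if_neg h3]
      have h4 := ih hw.tail
      unfold V at h4
      rw [P_cons, P_cons p, show dur (p :: q :: w) - p.1 = dur (q :: w) by
        rw [dur_cons p]; ring, h4]

lemma Sol.word {w : List (ℝ × ℝ)} (hw : NZ w) (k : ℝ) :
    Sol (fd w) k (fun t => V w t k) (dur w) := by
  induction w with
  | nil => exact Sol.zero (by simp [V, tr])
  | cons p w ih =>
    obtain ⟨hs, hb⟩ := hw p List.mem_cons_self
    have h0 : Sol (fd (p :: w)) k (fun t => V (p :: w) t k) 0 := Sol.zero (V_zero hw k)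
    have hV1 : ∀ t, t ≤ p.1 → V (p :: w) t k = el t p.2 k := by
      intro t ht
      simp [V, tr, ht]
    have h1 : Sol (fd (p :: w)) k (fun t => V (p :: w) t k) (0 + p.1) := by
      refine h0.glue (Sol.single hb k) le_rfl hs (fun t ht => ?_) (fun t ht => ?_)
      · simp only [fd]
        rw [if_pos (by linarith [ht.2])]
      · rw [V_zero hw, mul_one, sub_zero]
        exact hV1 t (by linarith [ht.2])
    rw [zero_add] at h1
    rw [dur_cons]
    refine h1.glue (ih hw.tail) hs (dur_nonneg hw.tail) (fun t ht => ?_) (fun t ht => ?_)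
    · simp only [fd]
      rw [if_neg (by linarith [ht.1])]
    · rw [hV1 p.1 le_rfl]
      rcases eq_or_lt_of_le ht.1 with h | h
      · rw [← h, sub_self, V_zero hw.tail, one_mul]
        exact hV1 p.1 le_rfl
      · unfold V
        rw [tr, if_neg (by linarith), P_cons]

/-- the periodic field -/
noncomputable def per (w : List (ℝ × ℝ)) (t : ℝ) : ℝ := fd w (dur w * Int.fract (t / dur w))

/-- the propagator of the periodic field -/
noncomputable def UU (w : List (ℝ × ℝ)) (k t : ℝ) : ℍ :=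
  V w (t - ⌊t / dur w⌋₊ * dur w) k * P w k ^ ⌊t / dur w⌋₊

lemma per_periodic {w : List (ℝ × ℝ)} (hd : 0 < dur w) : Function.Periodic (per w) (dur w) := by
  intro t
  unfold per
  rw [add_div, div_self hd.ne', Int.fract_add_one]

lemma floor_eq {T : ℝ} (hT : 0 < T) {n : ℕ} {t : ℝ} (h1 : n * T ≤ t) (h2 : t < n * T + T) :
    ⌊t / T⌋₊ = n := by
  rw [Nat.floor_eq_iff (div_nonneg ((mul_nonneg (Nat.cast_nonneg n) hT.le).trans h1) hT.le)]
  constructor
  · rwa [le_div_iff₀ hT]
  · rw [div_lt_iff₀ hT]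
    linarith

lemma per_eq {w : List (ℝ × ℝ)} (hd : 0 < dur w) {n : ℕ} {t : ℝ}
    (h1 : n * dur w ≤ t) (h2 : t < n * dur w + dur w) : per w t = fd w (t - n * dur w) := by
  unfold per
  have h3 : Int.fract (t / dur w) = t / dur w - n := by
    rw [Int.fract_eq_iff]
    refine ⟨?_, ?_, n, ?_⟩
    · rw [sub_nonneg, le_div_iff₀ hd]
      exact h1
    · rw [sub_lt_iff_lt_add, div_lt_iff₀ hd]
      linarith
    · push_cast
      ring
  rw [h3, mul_sub, mul_div_cancel₀ _ hd.ne', mul_comm (dur w) (n : ℝ)]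

lemma UU_nat {w : List (ℝ × ℝ)} (hw : NZ w) (hd : 0 < dur w) (k : ℝ) (n : ℕ) :
    UU w k (n * dur w) = P w k ^ n := by
  unfold UU
  rw [floor_eq hd le_rfl (by linarith), sub_self, V_zero hw, one_mul]

lemma Sol.periodic {w : List (ℝ × ℝ)} (hw : Adm w) (hd : 0 < dur w) (k : ℝ) (n : ℕ) :
    Sol (per w) k (UU w k) (n * dur w) := by
  induction n with
  | zero =>
    have h := UU_nat hw.nz hd k 0
    have : ((0 : ℕ) : ℝ) * dur w = 0 := by simp
    rw [this] at h ⊢
    exact Sol.zero (by rw [h, pow_zero])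
  | succ n ih =>
    have e : ((n + 1 : ℕ) : ℝ) * dur w = n * dur w + dur w := by push_cast; ring
    rw [e]
    refine ih.glue (Sol.word hw.nz k) (by positivity) hd.le (fun t ht => ?_) (fun t ht => ?_)
    · exact per_eq hd ht.1 ht.2
    · rw [UU_nat hw.nz hd]
      rcases eq_or_lt_of_le ht.2 with h | h
      · rw [h, ← e, UU_nat hw.nz hd, e, add_sub_cancel_left, V_dur hw, pow_succ']
      · unfold UU
        rw [floor_eq hd ht.1 h]

end H76DD
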