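import Mathlib
import Pool.Agent.L5helper76.DD.Time

set_option autoImplicit false

open MeasureTheory Set Filter Topology
open scoped ContDiff Quaternion

namespace H76DD

/-- complex two by two matrices -/
abbrev M2 := Matrix (Fin 2) (Fin 2) ℂ

/-- the first Pauli matrix -/
def σ₁ : M2 := !![0, 1; 1, 0]

/-- the third Pauli matrix -/
def σ₃ : M2 := !![1, 0; 0, -1]

/-- `U` is the propagator, for times `t ≥ 0`, of the equation
`i dα/dt = (-k σ₃ + ν(t)) α` at frequency `k`: it is continuous and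
`U(t) = 1 + ∫₀ᵗ (-i) (-k σ₃ + ν(s)) U(s) ds`. -/
structure IsPropagator (ν : ℝ → M2) (k : ℝ) (U : ℝ → M2) : Prop where
  cont : ∀ i j, ContinuousOn (fun t => U t i j) (Ici 0)
  eq : ∀ t, 0 ≤ t → ∀ i j, U t i j = (1 : M2) i j +
    ∫ s in (0:ℝ)..t, -Complex.I * (((-(k : ℂ)) • σ₃ + ν s) * U s) i j

/-- quaternions as matrices -/
noncomputable def mat (q : ℍ) : M2 :=
  !![(q.re : ℂ) + q.imI * Complex.I, -(q.imK : ℂ) + q.imJ * Complex.I;
     (q.imK : ℂ) + q.imJ * Complex.I, (q.re : ℂ) - q.imI * Complex.I]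

lemma mat_one : mat 1 = 1 := by
  ext i j
  fin_cases i <;> fin_cases j <;> simp [mat]

lemma mat_mul (p q : ℍ) : mat (p * q) = mat p * mat q := by
  ext i j
  fin_cases i <;> fin_cases j <;>
    simp only [mat, Matrix.mul_apply, Fin.sum_univ_two, Quaternion.re_mul, Quaternion.imI_mul,
      Quaternion.imJ_mul, Quaternion.imK_mul] <;> simp <;> ring_nf <;> simp <;> ring

/-- matrix entries as linear maps -/
noncomputable def matL (i j : Fin 2) : ℍ →ₗ[ℝ] ℂ where
  toFun q := mat q i j
  map_add' p q := by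
    fin_cases i <;> fin_cases j <;> simp [mat] <;> ring
  map_smul' c q := by
    fin_cases i <;> fin_cases j <;> simp [mat] <;> ring

noncomputable def matC (i j : Fin 2) : ℍ →L[ℝ] ℂ := LinearMap.toContinuousLinearMap (matL i j)

lemma matC_apply (i j : Fin 2) (q : ℍ) : matC i j q = mat q i j := rfl

lemma mat_gen (b k : ℝ) : mat (gen b k) = (-Complex.I) • ((-(k : ℂ)) • σ₃ + (b : ℂ) • σ₁) := by
  ext i j
  fin_cases i <;> fin_cases j <;> simp [mat, gen, σ₁, σ₃, mul_comm]

lemma norm_mat_le (q : ℍ) (i j : Fin 2) : ‖mat q i j‖ ≤ ‖q‖ := by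
  have h1 := Quaternion.normSq_eq_norm_mul_self q
  rw [Quaternion.normSq_def'] at h1
  change q.re ^ 2 + q.imI ^ 2 + q.imJ ^ 2 + q.imK ^ 2 = _ at h1
  refine le_of_sq_le_sq ?_ (norm_nonneg _)
  rw [← Complex.normSq_eq_norm_sq, Complex.normSq_apply, sq ‖q‖, ← h1]
  fin_cases i <;> fin_cases j <;> simp [mat] <;>
    nlinarith [sq_nonneg q.re, sq_nonneg q.imI, sq_nonneg q.imJ, sq_nonneg q.imK]

/-- the matrix propagator of an admissible periodic word -/
lemma isPropagator {w : List (ℝ × ℝ)} (hw : Adm w) (hd : 0 < dur w) (k : ℝ) :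
    IsPropagator (fun t => (per w t : ℂ) • σ₁) k (fun t => mat (UU w k t)) := by
  have hall : ∀ t : ℝ, ∃ n : ℕ, t < n * dur w := by
    intro t
    obtain ⟨n, hn⟩ := exists_nat_gt (t / dur w)
    exact ⟨n, by rwa [div_lt_iff₀ hd] at hn⟩
  constructor
  · intro i j t ht
    obtain ⟨n, hn⟩ := hall t
    have h1 := (Sol.periodic hw hd k n).cont
    have h2 : ContinuousWithinAt (UU w k) (Ici 0) t := by
      have h3 := h1 t ⟨ht, hn.le⟩
      refine h3.mono_of_mem_nhdsWithin ?_
      rw [mem_nhdsWithin]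
      exact ⟨Iio (n * dur w), isOpen_Iio, hn, fun x hx => ⟨hx.2, le_of_lt hx.1⟩⟩
    exact (matC i j).continuous.continuousAt.comp_continuousWithinAt h2
  · intro t ht i j
    obtain ⟨n, hn⟩ := hall t
    have hS := Sol.periodic hw hd k n
    have h1 := hS.eq t ⟨ht, hn.le⟩
    have hint : IntervalIntegrable (fun s => gen (per w s) k * UU w k s) volume 0 t :=
      hS.int.mono_set (by
        rw [uIcc_of_le ht, uIcc_of_le (ht.trans hn.le)]
        exact Icc_subset_Icc le_rfl hn.le)
    have h2 := congrArg (matC i j) h1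
    rw [map_add, ← (matC i j).intervalIntegral_comp_comm hint] at h2
    simp only [matC_apply, mat_one] at h2
    rw [h2]
    congr 1
    refine intervalIntegral.integral_congr fun s _ => ?_
    rw [mat_mul, mat_gen, Matrix.smul_mul, Matrix.smul_apply, smul_eq_mul]

/-- integral form of Gronwall's lemma -/
lemma gronwall_zero {d : ℝ → ℝ} {C : ℝ} (hd : ContinuousOn d (Ici 0)) (hd0 : ∀ t, 0 ≤ t → 0 ≤ d t)
    (h : ∀ t, 0 ≤ t → d t ≤ C * ∫ s in (0:ℝ)..t, d s) (t : ℝ) (ht : 0 ≤ t) : d t = 0 := by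
  set e : ℝ → ℝ := fun s => d (max s 0) with he
  have hec : Continuous e := by
    have : Continuous (fun s : ℝ => max s 0) := by fun_prop
    exact hd.comp_continuous this fun s => mem_Ici.2 (le_max_right s 0)
  have hee : ∀ s, 0 ≤ s → e s = d s := fun s hs => by simp [he, max_eq_left hs]
  set W : ℝ → ℝ := fun t => ∫ s in (0:ℝ)..t, e s with hW
  have hWd : ∀ t, HasDerivAt W (e t) t := fun t =>
    intervalIntegral.integral_hasDerivAt_right (hec.intervalIntegrable _ _)
      (hec.stronglyMeasurableAtFilter _ _) hec.continuousAt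
  have hWe : ∀ t, 0 ≤ t → W t = ∫ s in (0:ℝ)..t, d s := fun t ht => by
    refine intervalIntegral.integral_congr fun s hs => ?_
    rw [uIcc_of_le ht] at hs
    exact hee s hs.1
  have hW0 : ∀ t, 0 ≤ t → 0 ≤ W t := fun t ht =>
    intervalIntegral.integral_nonneg ht fun s hs => by rw [hee s hs.1]; exact hd0 s hs.1
  have hG := norm_le_gronwallBound_of_norm_deriv_right_le (f := W) (f' := e) (δ := 0) (K := C)
    (ε := 0) (a := 0) (b := t) (fun s _ => (hWd s).continuousAt.continuousWithinAt)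
    (fun s _ => (hWd s).hasDerivWithinAt) (by simp [hW]) (fun s hs => by
      rw [Real.norm_eq_abs, Real.norm_eq_abs, abs_of_nonneg (hW0 s hs.1), hee s hs.1,
        abs_of_nonneg (hd0 s hs.1), add_zero, hWe s hs.1]
      exact h s hs.1) t ⟨ht, le_rfl⟩
  rw [gronwallBound_ε0_δ0] at hG
  have hWt : W t = 0 := norm_le_zero_iff.1 hG
  have h1 := h t ht
  rw [← hWe t ht, hWt, mul_zero] at h1
  exact le_antisymm h1 (hd0 t ht)

lemma bounded_intervalIntegrable {f : ℝ → ℂ} (hf : Measurable f) {M : ℝ} (hM : ∀ s, ‖f s‖ ≤ M)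
    (a b : ℝ) : IntervalIntegrable f volume a b := by
  have h : IntervalIntegrable (fun _ : ℝ => M) volume a b := intervalIntegrable_const
  exact h.mono_fun' hf.aestronglyMeasurable (Eventually.of_forall hM)

/-- uniqueness of the propagator -/
lemma IsPropagator.unique {ν : ℝ → M2} {k : ℝ} {U U' : ℝ → M2}
    (hν : ∀ i j, Measurable fun t => ν t i j) {M : ℝ} (hM : ∀ t i j, ‖ν t i j‖ ≤ M)
    (hU : IsPropagator ν k U) (hU' : IsPropagator ν k U') (t : ℝ) (ht : 0 ≤ t) : U t = U' t := by
  set A : ℝ → M2 := fun s => (-(k : ℂ)) • σ₃ + ν s with hA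
  set K : ℝ := |k| + M with hK
  have hM0 : 0 ≤ M := (norm_nonneg _).trans (hM 0 0 0)
  have hAb : ∀ s i j, ‖A s i j‖ ≤ K := by
    intro s i j
    simp only [hA, Matrix.add_apply, Matrix.smul_apply, smul_eq_mul]
    refine (norm_add_le _ _).trans (add_le_add ?_ (hM s i j))
    rw [norm_mul, norm_neg, Complex.norm_real, Real.norm_eq_abs]
    have : ‖σ₃ i j‖ ≤ 1 := by
      fin_cases i <;> fin_cases j <;> simp [σ₃]
    calc |k| * ‖σ₃ i j‖ ≤ |k| * 1 := mul_le_mul_of_nonneg_left this (abs_nonneg _)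
      _ = |k| := mul_one _
  have hAm : ∀ i j, Measurable fun s => A s i j := by
    intro i j
    simp only [hA, Matrix.add_apply, Matrix.smul_apply]
    exact measurable_const.add (hν i j)
  have hint : ∀ (V : ℝ → M2), (∀ i j, ContinuousOn (fun t => V t i j) (Ici 0)) → ∀ t, 0 ≤ t →
      ∀ i j, IntervalIntegrable (fun s => -Complex.I * (A s * V s) i j) volume 0 t := by
    intro V hV t ht i j
    simp only [Matrix.mul_apply, Fin.sum_univ_two]
    refine IntervalIntegrable.const_mul ?_ _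
    have h1 : ∀ l, IntervalIntegrable (fun s => A s i l * V s l j) volume 0 t := by
      intro l
      refine (bounded_intervalIntegrable (hAm i l) (fun s => hAb s i l) 0 t).mul_continuousOn ?_
      rw [uIcc_of_le ht]
      exact (hV l j).mono fun s hs => hs.1
    exact (h1 0).add (h1 1)
  set D : ℝ → M2 := fun s => U s - U' s with hD
  have hDc : ∀ i j, ContinuousOn (fun t => D t i j) (Ici 0) := fun i j =>
    (hU.cont i j).sub (hU'.cont i j)
  set d : ℝ → ℝ := fun s => ∑ i, ∑ j, ‖D s i j‖ with hd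
  have hdc : ContinuousOn d (Ici 0) :=
    continuousOn_finsetSum _ fun i _ => continuousOn_finsetSum _ fun j _ => (hDc i j).norm
  have hd0 : ∀ t, 0 ≤ t → 0 ≤ d t := fun t _ =>
    Finset.sum_nonneg fun i _ => Finset.sum_nonneg fun j _ => norm_nonneg _
  have hle : ∀ s i j, ‖D s i j‖ ≤ d s := by
    intro s i j
    calc ‖D s i j‖ ≤ ∑ j, ‖D s i j‖ :=
          Finset.single_le_sum (f := fun j => ‖D s i j‖) (fun j _ => norm_nonneg _)
            (Finset.mem_univ j)
      _ ≤ d s := Finset.single_le_sum (f := fun i => ∑ j, ‖D s i j‖)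
            (fun i _ => Finset.sum_nonneg fun j _ => norm_nonneg _) (Finset.mem_univ i)
  have hij : ∀ t, 0 ≤ t → ∀ i j, ‖D t i j‖ ≤ 2 * K * ∫ s in (0:ℝ)..t, d s := by
    intro t ht i j
    have e : D t i j = ∫ s in (0:ℝ)..t, -Complex.I * (A s * D s) i j := by
      have h1 := hU.eq t ht i j
      have h2 := hU'.eq t ht i j
      have h3 : D t i j = U t i j - U' t i j := rfl
      rw [h3, h1, h2, add_sub_add_left_eq_sub,
        ← intervalIntegral.integral_sub (hint U hU.cont t ht i j) (hint U' hU'.cont t ht i j)]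
      refine intervalIntegral.integral_congr fun s _ => ?_
      simp only [hD, mul_sub, Matrix.sub_apply]
    rw [e]
    have hdi : IntervalIntegrable d volume 0 t :=
      ContinuousOn.intervalIntegrable (by
        rw [uIcc_of_le ht]; exact hdc.mono fun s hs => hs.1)
    rw [← intervalIntegral.integral_const_mul]
    refine intervalIntegral.norm_integral_le_of_norm_le ht (Eventually.of_forall fun s hs => ?_)
      (hdi.const_mul _)
    rw [norm_mul, norm_neg, Complex.norm_I, one_mul, Matrix.mul_apply, Fin.sum_univ_two]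
    refine (norm_add_le _ _).trans ?_
    rw [norm_mul, norm_mul]
    have hK0 : 0 ≤ K := by positivity
    have a0 := mul_le_mul (hAb s i 0) (hle s 0 j) (norm_nonneg _) hK0
    have a1 := mul_le_mul (hAb s i 1) (hle s 1 j) (norm_nonneg _) hK0
    linarith
  have hz := gronwall_zero (C := 8 * K) hdc hd0 (by
    intro t ht
    have h1 : d t ≤ ∑ _i : Fin 2, ∑ _j : Fin 2, 2 * K * ∫ s in (0:ℝ)..t, d s :=
      Finset.sum_le_sum fun i _ => Finset.sum_le_sum fun j _ => hij t ht i j
    refine h1.trans (le_of_eq ?_)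
    simp only [Finset.sum_const, Finset.card_univ, Fintype.card_fin, nsmul_eq_mul]
    push_cast
    ring) t ht
  ext i j
  have h1 := hle t i j
  rw [hz] at h1
  have h2 : D t i j = 0 := norm_le_zero_iff.1 h1
  exact sub_eq_zero.1 h2

end H76DD
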