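import Mathlib
import Pool.Agent.L5helper76.DD.FT
import Pool.Agent.L5helper76.DD.Mat

set_option autoImplicit false

open MeasureTheory Set Filter Topology FourierTransform
open scoped ContDiff Quaternion

namespace H76DD

/-- `α` is the value at time `t ≥ 0` of the solution of
`i ∂α/∂t = (i σ₃ ∂ₓ + ν(t)) α` with initial datum `f` (both square-integrable): the Fourier
transform of `α` at `ξ` is `U(t)` applied to the Fourier transform of `f` at `ξ`, where `U` is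
the propagator at frequency `k = 2 π ξ` (with the convention `f̂(ξ) = ∫ exp (-2 π i x ξ) f(x) dx`,
for which `i σ₃ ∂ₓ` has symbol `-2 π ξ σ₃`). -/
def SolvesAt (ν : ℝ → M2) (f : L2) (t : ℝ) (α : L2) : Prop :=
  ∃ U : ℝ → ℝ → M2, (∀ k, IsPropagator ν k (U k)) ∧
    ∀ᵐ ξ : ℝ, ∀ i, ((𝓕 α : L2) ξ) i =
      ∑ j, U (2 * Real.pi * ξ) t i j * ((𝓕 f : L2) ξ) j

/-- `h` is an integrable function equal to `⟨i ∂ₓ⟩^r f` -/
def IsWeighted (r : ℝ) (f : L2) (h : ℝ → Sp) : Prop :=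
  Integrable h ∧ ∀ᵐ ξ : ℝ, 𝓕 h ξ =
    (((1 + (2 * Real.pi * ξ) ^ 2) ^ (r / 2) : ℝ) : ℂ) • ((𝓕 f : L2) ξ)

/-- the decay estimate of order `(r, σ)` -/
def DecayEstimate (ν : ℝ → M2) (r σ : ℝ) : Prop :=
  ∃ c : ℝ, ∀ t : ℝ, 0 < t → ∀ (f α : L2) (h : ℝ → Sp), IsWeighted r f h → SolvesAt ν f t α →
    ∀ᵐ x : ℝ, ‖α x‖ ≤ c / t ^ σ * ∫ x, ‖h x‖

/-- a matrix applied to a spinor -/
noncomputable def mv (A : M2) (v : Sp) : Sp :=
  ∑ i, (∑ j, A i j * v j) • EuclideanSpace.single i (1 : ℂ)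

lemma mv_apply (A : M2) (v : Sp) (i : Fin 2) : mv A v i = ∑ j, A i j * v j := by
  unfold mv
  fin_cases i <;> simp [Fin.sum_univ_two]

lemma norm_coord_le (v : Sp) (i : Fin 2) : ‖v i‖ ≤ ‖v‖ := by
  exact PiLp.norm_apply_le v i

lemma norm_le_coords (v : Sp) : ‖v‖ ≤ ‖v 0‖ + ‖v 1‖ := by
  rw [EuclideanSpace.norm_eq, Fin.sum_univ_two]
  refine Real.sqrt_le_iff.2 ⟨by positivity, ?_⟩
  nlinarith [norm_nonneg (v 0), norm_nonneg (v 1)]

lemma norm_mv_le {A : M2} (hA : ∀ i j, ‖A i j‖ ≤ 1) (v : Sp) : ‖mv A v‖ ≤ 4 * ‖v‖ := by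
  refine (norm_le_coords _).trans ?_
  have h : ∀ i, ‖mv A v i‖ ≤ 2 * ‖v‖ := by
    intro i
    rw [mv_apply, Fin.sum_univ_two]
    refine (norm_add_le _ _).trans ?_
    rw [norm_mul, norm_mul]
    have h0 := mul_le_mul (hA i 0) (norm_coord_le v 0) (norm_nonneg _) zero_le_one
    have h1 := mul_le_mul (hA i 1) (norm_coord_le v 1) (norm_nonneg _) zero_le_one
    linarith
  have h0 := h 0
  have h1 := h 1
  linarith

lemma aesm_mv {A : ℝ → M2} (hA : ∀ i j, Continuous fun ξ => A ξ i j) {v : ℝ → Sp}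
    (hv : AEStronglyMeasurable v volume) :
    AEStronglyMeasurable (fun ξ => mv (A ξ) (v ξ)) volume := by
  unfold mv
  refine Finset.aestronglyMeasurable_fun_sum _ fun i _ => ?_
  refine AEStronglyMeasurable.smul_const (Finset.aestronglyMeasurable_fun_sum _ fun j _ => ?_) _
  refine (hA i j).aestronglyMeasurable.mul ?_
  exact (EuclideanSpace.proj (𝕜 := ℂ) j).continuous.comp_aestronglyMeasurable hv

/-- solutions exist if the propagator is continuous in the frequency and bounded -/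
lemma exists_solvesAt {ν : ℝ → M2} {U : ℝ → ℝ → M2} (hU : ∀ k, IsPropagator ν k (U k)) {t : ℝ}
    (hc : ∀ i j, Continuous fun k => U k t i j) (hb : ∀ k i j, ‖U k t i j‖ ≤ 1) (f : L2) :
    ∃ α : L2, SolvesAt ν f t α ∧
      (𝓕 α : L2) =ᵐ[volume] fun ξ => mv (U (2 * Real.pi * ξ) t) ((𝓕 f : L2) ξ) := by
  have hc' : ∀ i j, Continuous fun ξ : ℝ => U (2 * Real.pi * ξ) t i j := fun i j =>
    (hc i j).comp (by fun_prop)
  have hm : MemLp (fun ξ => mv (U (2 * Real.pi * ξ) t) ((𝓕 f : L2) ξ)) 2 volume := by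
    refine MemLp.of_le_mul (c := 4) (Lp.memLp (𝓕 f : L2))
      (aesm_mv hc' (Lp.aestronglyMeasurable _)) (Eventually.of_forall fun ξ => ?_)
    exact norm_mv_le (fun i j => hb _ i j) _
  have h1 : ((𝓕 (𝓕⁻ (hm.toLp _) : L2) : L2) : ℝ → Sp) =ᵐ[volume]
      fun ξ => mv (U (2 * Real.pi * ξ) t) ((𝓕 f : L2) ξ) := by
    rw [fourier_fourierInv_eq]
    exact hm.coeFn_toLp
  refine ⟨𝓕⁻ (hm.toLp _), ⟨U, hU, ?_⟩, h1⟩
  filter_upwards [h1] with ξ hξ
  intro i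
  rw [hξ, mv_apply]

/-- uniqueness of solutions -/
lemma solvesAt_unique {ν : ℝ → M2} (hν : ∀ i j, Measurable fun t => ν t i j) {M : ℝ}
    (hM : ∀ t i j, ‖ν t i j‖ ≤ M) {f α α' : L2} {t : ℝ} (ht : 0 ≤ t)
    (h : SolvesAt ν f t α) (h' : SolvesAt ν f t α') : α = α' := by
  obtain ⟨U, hU, h1⟩ := h
  obtain ⟨U', hU', h2⟩ := h'
  have h3 : (𝓕 α : L2) = (𝓕 α' : L2) := by
    apply Lp.ext
    filter_upwards [h1, h2] with ξ a b
    ext i
    rw [a i, b i, (hU _).unique hν hM (hU' _) t ht]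
  calc α = 𝓕⁻ (𝓕 α : L2) := (fourierInv_fourier_eq α).symm
    _ = 𝓕⁻ (𝓕 α' : L2) := by rw [h3]
    _ = α' := fourierInv_fourier_eq α'

end H76DD
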