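import Mathlib

set_option autoImplicit false

open MeasureTheory Set Filter Topology

namespace H76DD

/-- a function with slope at least `μ` on an interval is bounded below by the distance to a
point -/
lemma exists_pt {v w : ℝ → ℝ} {x y μ : ℝ} (hxy : x ≤ y) (hμ : 0 ≤ μ)
    (hv : ∀ t ∈ Icc x y, HasDerivAt v (w t) t) (hw : ∀ t ∈ Icc x y, μ ≤ w t) :
    ∃ z ∈ Icc x y, ∀ t ∈ Icc x y, μ * |t - z| ≤ |v t| := by
  have hvc : ContinuousOn v (Icc x y) := fun t ht => (hv t ht).continuousAt.continuousWithinAt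
  have hm : ∀ s ∈ Icc x y, ∀ t ∈ Icc x y, s ≤ t → μ * (t - s) ≤ v t - v s := by
    refine Convex.mul_sub_le_image_sub_of_le_deriv (convex_Icc x y) hvc ?_ ?_
    · intro t ht
      rw [interior_Icc] at ht
      exact (hv t (Ioo_subset_Icc_self ht)).differentiableAt.differentiableWithinAt
    · intro t ht
      rw [interior_Icc] at ht
      rw [(hv t (Ioo_subset_Icc_self ht)).deriv]
      exact hw t (Ioo_subset_Icc_self ht)
  rcases le_or_gt 0 (v x) with h0 | h0
  · refine ⟨x, left_mem_Icc.2 hxy, fun t ht => ?_⟩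
    have := hm x (left_mem_Icc.2 hxy) t ht ht.1
    rw [abs_of_nonneg (by linarith [ht.1])]
    exact le_trans (by linarith) (le_abs_self _)
  rcases le_or_gt (v y) 0 with h1 | h1
  · refine ⟨y, right_mem_Icc.2 hxy, fun t ht => ?_⟩
    have := hm t ht y (right_mem_Icc.2 hxy) ht.2
    rw [abs_of_nonpos (by linarith [ht.2])]
    exact le_trans (by linarith) (neg_le_abs _)
  obtain ⟨z, hz, hz0⟩ := intermediate_value_Icc hxy hvc ⟨h0.le, h1.le⟩
  refine ⟨z, hz, fun t ht => ?_⟩
  rcases le_total t z with h | h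
  · have := hm t ht z hz h
    rw [abs_of_nonpos (by linarith)]
    exact le_trans (by linarith) (neg_le_abs _)
  · have := hm z hz t ht h
    rw [abs_of_nonneg (by linarith)]
    exact le_trans (by linarith) (le_abs_self _)

/-- a continuous function without small values has a sign on an interval -/
lemma sign_cases {f : ℝ → ℝ} {x y μ : ℝ} (hμ : 0 < μ)
    (hf : ContinuousOn f (Icc x y)) (h : ∀ t ∈ Icc x y, μ ≤ |f t|) :
    (∀ t ∈ Icc x y, μ ≤ f t) ∨ (∀ t ∈ Icc x y, μ ≤ -f t) := by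
  by_contra hcon
  push Not at hcon
  obtain ⟨⟨s, hs, hs'⟩, ⟨t, ht, ht'⟩⟩ := hcon
  have h1 : f s ≤ -μ := by
    rcases le_abs.1 (h s hs) with h2 | h2
    · linarith
    · linarith
  have h2 : μ ≤ f t := by
    rcases le_abs.1 (h t ht) with h2 | h2
    · linarith
    · linarith
  have hpc : IsPreconnected (Icc x y) := isPreconnected_Icc
  have := hpc.intermediate_value hs ht hf
  obtain ⟨z, hz, hz0⟩ := this (⟨by linarith, by linarith⟩ : (0:ℝ) ∈ Icc (f s) (f t))
  have := h z hz
  rw [hz0, abs_zero] at this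
  linarith

noncomputable def osc (φ : ℝ → ℝ) (t : ℝ) : ℂ := Complex.exp ((φ t : ℂ) * Complex.I)

lemma norm_osc (φ : ℝ → ℝ) (t : ℝ) : ‖osc φ t‖ = 1 := by
  unfold osc
  exact Complex.norm_exp_ofReal_mul_I _

lemma continuousOn_osc {φ : ℝ → ℝ} {s : Set ℝ} (h : ContinuousOn φ s) :
    ContinuousOn (osc φ) s := by
  unfold osc
  fun_prop

lemma vdc1 {φ v w : ℝ → ℝ} {x y m : ℝ} (hxy : x ≤ y) (hm : 0 < m)
    (hφ : ∀ t ∈ Icc x y, HasDerivAt φ (v t) t)
    (hv : ∀ t ∈ Icc x y, HasDerivAt v (w t) t) (hw : ContinuousOn w (Icc x y))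
    (hw0 : ∀ t ∈ Icc x y, 0 ≤ w t) (hvm : ∀ t ∈ Icc x y, m ≤ |v t|) :
    ‖∫ t in x..y, osc φ t‖ ≤ 4 / m := by
  have hu : uIcc x y = Icc x y := uIcc_of_le hxy
  have hφc : ContinuousOn φ (Icc x y) := fun t ht => (hφ t ht).continuousAt.continuousWithinAt
  have hvc : ContinuousOn v (Icc x y) := fun t ht => (hv t ht).continuousAt.continuousWithinAt
  have hv0 : ∀ t ∈ Icc x y, v t ≠ 0 := fun t ht h0 => by
    have := hvm t ht
    rw [h0, abs_zero] at this
    linarith
  have hD : ∀ t ∈ Icc x y, HasDerivAt (fun t => osc φ t / ((v t : ℂ) * Complex.I))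
      (osc φ t - osc φ t * (w t : ℂ) / ((v t : ℂ) ^ 2 * Complex.I)) t := by
    intro t ht
    have h1 : HasDerivAt (osc φ) (osc φ t * ((v t : ℂ) * Complex.I)) t := by
      unfold osc
      exact ((hφ t ht).ofReal_comp.mul_const Complex.I).cexp
    have h2 : HasDerivAt (fun t => (v t : ℂ) * Complex.I) ((w t : ℂ) * Complex.I) t :=
      (hv t ht).ofReal_comp.mul_const Complex.I
    have h0 : (v t : ℂ) ≠ 0 := by exact_mod_cast hv0 t ht
    have h3 := h1.div h2 (mul_ne_zero h0 Complex.I_ne_zero)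
    refine h3.congr_deriv ?_
    field_simp
  have hc2 : ContinuousOn (fun t => osc φ t * (w t : ℂ) / ((v t : ℂ) ^ 2 * Complex.I))
      (Icc x y) := by
    apply ContinuousOn.div
    · exact (continuousOn_osc hφc).mul (Complex.continuous_ofReal.comp_continuousOn hw)
    · exact ((Complex.continuous_ofReal.comp_continuousOn hvc).pow 2).mul continuousOn_const
    · intro t ht
      have h0 : (v t : ℂ) ≠ 0 := by exact_mod_cast hv0 t ht
      exact mul_ne_zero (pow_ne_zero _ h0) Complex.I_ne_zero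
  have hi1 : IntervalIntegrable (osc φ) volume x y :=
    ContinuousOn.intervalIntegrable (by rw [hu]; exact continuousOn_osc hφc)
  have hi2 : IntervalIntegrable
      (fun t => osc φ t * (w t : ℂ) / ((v t : ℂ) ^ 2 * Complex.I)) volume x y :=
    ContinuousOn.intervalIntegrable (by rw [hu]; exact hc2)
  have hI := intervalIntegral.integral_eq_sub_of_hasDerivAt
    (fun t ht => hD t (by rwa [hu] at ht)) (hi1.sub hi2)
  rw [intervalIntegral.integral_sub hi1 hi2, sub_eq_iff_eq_add] at hI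
  have hb : ∀ t ∈ Icc x y, ‖osc φ t / ((v t : ℂ) * Complex.I)‖ ≤ 1 / m := by
    intro t ht
    rw [norm_div, norm_osc, norm_mul, Complex.norm_I, mul_one, Complex.norm_real,
      Real.norm_eq_abs]
    exact one_div_le_one_div_of_le hm (hvm t ht)
  have hI2 : ∫ t in x..y, w t / (v t) ^ 2 = (v x)⁻¹ - (v y)⁻¹ := by
    have hH : ∀ t ∈ uIcc x y, HasDerivAt (fun t => -(v t)⁻¹) (w t / (v t) ^ 2) t := by
      intro t ht
      rw [hu] at ht
      have h := ((hv t ht).inv (hv0 t ht)).neg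
      refine h.congr_deriv ?_
      ring
    rw [intervalIntegral.integral_eq_sub_of_hasDerivAt hH]
    · ring
    · apply ContinuousOn.intervalIntegrable
      rw [hu]
      exact hw.div (hvc.pow 2) (fun t ht => pow_ne_zero _ (hv0 t ht))
  have hn : ‖∫ t in x..y, osc φ t * (w t : ℂ) / ((v t : ℂ) ^ 2 * Complex.I)‖ ≤ 2 / m := by
    have h1 : ‖∫ t in x..y, osc φ t * (w t : ℂ) / ((v t : ℂ) ^ 2 * Complex.I)‖ ≤
        ∫ t in x..y, w t / (v t) ^ 2 := by
      refine (intervalIntegral.norm_integral_le_integral_norm hxy).trans (le_of_eq ?_)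
      refine intervalIntegral.integral_congr fun t ht => ?_
      rw [hu] at ht
      simp only [norm_div, norm_mul, norm_osc, one_mul, norm_pow, Complex.norm_real,
        Real.norm_eq_abs, Complex.norm_I, mul_one, sq_abs, abs_of_nonneg (hw0 t ht)]
    rw [hI2] at h1
    have h2 : ∀ t ∈ Icc x y, |(v t)⁻¹| ≤ 1 / m := fun t ht => by
      rw [abs_inv, ← one_div]
      exact one_div_le_one_div_of_le hm (hvm t ht)
    have h3 := h2 x (left_mem_Icc.2 hxy)
    have h4 := h2 y (right_mem_Icc.2 hxy)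
    rw [abs_le] at h3 h4
    have : (2:ℝ) / m = 1 / m + 1 / m := by ring
    linarith
  rw [hI]
  refine (norm_add_le _ _).trans ?_
  have h5 := norm_sub_le (osc φ y / ((v y : ℂ) * Complex.I)) (osc φ x / ((v x : ℂ) * Complex.I))
  have h6 := hb x (left_mem_Icc.2 hxy)
  have h7 := hb y (right_mem_Icc.2 hxy)
  have : (4:ℝ) / m = 1 / m + 1 / m + 2 / m := by ring
  linarith

lemma norm_osc_neg {φ : ℝ → ℝ} {x y : ℝ} (hxy : x ≤ y) :
    ‖∫ t in x..y, osc (fun t => -φ t) t‖ = ‖∫ t in x..y, osc φ t‖ := by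
  have h : ∫ t in x..y, osc (fun t => -φ t) t = (starRingEnd ℂ) (∫ t in x..y, osc φ t) := by
    rw [intervalIntegral.integral_of_le hxy, intervalIntegral.integral_of_le hxy,
      ← integral_conj]
    congr 1
    ext t
    unfold osc
    rw [← Complex.exp_conj]
    congr 1
    simp
  rw [h, RCLike.norm_conj]

lemma osc_len {φ : ℝ → ℝ} {x y : ℝ} (hxy : x ≤ y) : ‖∫ t in x..y, osc φ t‖ ≤ y - x := by
  have h := intervalIntegral.norm_integral_le_of_norm_le_const (a := x) (b := y)
    (f := osc φ) (C := 1) (fun t _ => (norm_osc φ t).le)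
  rw [abs_of_nonneg (by linarith)] at h
  linarith

lemma vdc2_pos {φ v w : ℝ → ℝ} {x y μ : ℝ} (hxy : x ≤ y) (hμ : 0 < μ)
    (hφ : ∀ t ∈ Icc x y, HasDerivAt φ (v t) t)
    (hv : ∀ t ∈ Icc x y, HasDerivAt v (w t) t) (hw : ContinuousOn w (Icc x y))
    (hw0 : ∀ t ∈ Icc x y, μ ≤ w t) :
    ‖∫ t in x..y, osc φ t‖ ≤ 10 / Real.sqrt μ := by
  obtain ⟨z, hz, hz'⟩ := exists_pt hxy hμ.le hv hw0
  have hφc : ContinuousOn φ (Icc x y) := fun t ht => (hφ t ht).continuousAt.continuousWithinAt
  have hs : 0 < Real.sqrt μ := Real.sqrt_pos.2 hμ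
  set δ := 1 / Real.sqrt μ with hδ
  have hδ0 : 0 < δ := by positivity
  have hμδ : μ * δ = Real.sqrt μ := by
    rw [hδ]
    have : μ = Real.sqrt μ * Real.sqrt μ := (Real.mul_self_sqrt hμ.le).symm
    nth_rewrite 1 [this]
    field_simp
  -- the three points
  set p := max x (z - δ) with hp
  set q := min y (z + δ) with hq
  have hxp : x ≤ p := le_max_left _ _
  have hqy : q ≤ y := min_le_left _ _
  have hpz : p ≤ z := max_le hz.1 (by linarith)
  have hzq : z ≤ q := le_min hz.2 (by linarith)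
  have hpq : p ≤ q := hpz.trans hzq
  have hii : ∀ a b, a ∈ Icc x y → b ∈ Icc x y → IntervalIntegrable (osc φ) volume a b := by
    intro a b ha hb
    apply ContinuousOn.intervalIntegrable
    exact (continuousOn_osc hφc).mono (uIcc_subset_Icc ha hb)
  have hpm : p ∈ Icc x y := ⟨hxp, hpq.trans hqy⟩
  have hqm : q ∈ Icc x y := ⟨hxp.trans hpq, hqy⟩
  have hxm : x ∈ Icc x y := left_mem_Icc.2 hxy
  have hym : y ∈ Icc x y := right_mem_Icc.2 hxy
  have hsplit : ∫ t in x..y, osc φ t = (∫ t in x..p, osc φ t) + (∫ t in p..q, osc φ t)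
      + (∫ t in q..y, osc φ t) := by
    rw [intervalIntegral.integral_add_adjacent_intervals (hii _ _ hxm hpm) (hii _ _ hpm hqm),
      intervalIntegral.integral_add_adjacent_intervals (hii _ _ hxm hqm) (hii _ _ hqm hym)]
  have h1 : ‖∫ t in x..p, osc φ t‖ ≤ 4 / Real.sqrt μ := by
    rcases le_or_gt x (z - δ) with h | h
    · have hpe : p = z - δ := max_eq_right h
      have hsub : Icc x p ⊆ Icc x y := Icc_subset_Icc le_rfl hpm.2
      refine vdc1 hxp hs (fun t ht => hφ t (hsub ht)) (fun t ht => hv t (hsub ht))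
        (hw.mono hsub) (fun t ht => hμ.le.trans (hw0 t (hsub ht))) (fun t ht => ?_)
      have := hz' t (hsub ht)
      have h2 : t ≤ z - δ := by rw [← hpe]; exact ht.2
      rw [abs_of_nonpos (by linarith : t - z ≤ 0)] at this
      have : μ * δ ≤ μ * (-(t - z)) := mul_le_mul_of_nonneg_left (by linarith) hμ.le
      linarith
    · have hpe : p = x := max_eq_left h.le
      rw [hpe]
      simp only [intervalIntegral.integral_same, norm_zero]
      positivity
  have h3 : ‖∫ t in q..y, osc φ t‖ ≤ 4 / Real.sqrt μ := by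
    rcases le_or_gt (z + δ) y with h | h
    · have hqe : q = z + δ := min_eq_right h
      have hsub : Icc q y ⊆ Icc x y := Icc_subset_Icc hqm.1 le_rfl
      refine vdc1 hqy hs (fun t ht => hφ t (hsub ht)) (fun t ht => hv t (hsub ht))
        (hw.mono hsub) (fun t ht => hμ.le.trans (hw0 t (hsub ht))) (fun t ht => ?_)
      have := hz' t (hsub ht)
      have h2 : z + δ ≤ t := by rw [← hqe]; exact ht.1
      rw [abs_of_nonneg (by linarith : 0 ≤ t - z)] at this
      have : μ * δ ≤ μ * (t - z) := mul_le_mul_of_nonneg_left (by linarith) hμ.le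
      linarith
    · have hqe : q = y := min_eq_left h.le
      rw [hqe]
      simp only [intervalIntegral.integral_same, norm_zero]
      positivity
  have h2 : ‖∫ t in p..q, osc φ t‖ ≤ 2 / Real.sqrt μ := by
    refine (osc_len hpq).trans ?_
    have e1 : z - δ ≤ p := le_max_right _ _
    have e2 : q ≤ z + δ := min_le_right _ _
    have : (2:ℝ) / Real.sqrt μ = 2 * δ := by rw [hδ]; ring
    linarith
  rw [hsplit]
  have h4 := norm_add_le ((∫ t in x..p, osc φ t) + (∫ t in p..q, osc φ t))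
    (∫ t in q..y, osc φ t)
  have h5 := norm_add_le (∫ t in x..p, osc φ t) (∫ t in p..q, osc φ t)
  have : (10:ℝ) / Real.sqrt μ = 4 / Real.sqrt μ + 2 / Real.sqrt μ + 4 / Real.sqrt μ := by ring
  linarith

/-- van der Corput's second derivative test -/
lemma vdc2 {φ v w : ℝ → ℝ} {x y μ : ℝ} (hxy : x ≤ y) (hμ : 0 < μ)
    (hφ : ∀ t ∈ Icc x y, HasDerivAt φ (v t) t)
    (hv : ∀ t ∈ Icc x y, HasDerivAt v (w t) t) (hw : ContinuousOn w (Icc x y))
    (hw0 : ∀ t ∈ Icc x y, μ ≤ |w t|) :
    ‖∫ t in x..y, osc φ t‖ ≤ 10 / Real.sqrt μ := by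
  rcases sign_cases hμ hw hw0 with h | h
  · exact vdc2_pos hxy hμ hφ hv hw h
  · rw [← norm_osc_neg hxy]
    exact vdc2_pos (v := fun t => -v t) (w := fun t => -w t) hxy hμ
      (fun t ht => (hφ t ht).neg) (fun t ht => (hv t ht).neg) hw.neg h

/-- van der Corput's second derivative test with an amplitude -/
lemma vdc2_amp {φ v w : ℝ → ℝ} {c c' : ℝ → ℂ} {x y μ B : ℝ} (hxy : x ≤ y) (hμ : 0 < μ)
    (hφ : ∀ t ∈ Icc x y, HasDerivAt φ (v t) t)
    (hv : ∀ t ∈ Icc x y, HasDerivAt v (w t) t) (hw : ContinuousOn w (Icc x y))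
    (hw0 : ∀ t ∈ Icc x y, μ ≤ |w t|)
    (hc : ∀ t ∈ Icc x y, HasDerivAt c (c' t) t) (hc' : ContinuousOn c' (Icc x y))
    (hB : ∀ t ∈ Icc x y, ‖c t‖ ≤ B) (hB' : ∀ t ∈ Icc x y, ‖c' t‖ ≤ B) :
    ‖∫ t in x..y, osc φ t * c t‖ ≤ 10 / Real.sqrt μ * (B * (1 + (y - x))) := by
  have hu : uIcc x y = Icc x y := uIcc_of_le hxy
  have hφc : ContinuousOn φ (Icc x y) := fun t ht => (hφ t ht).continuousAt.continuousWithinAt
  have hoc : ContinuousOn (osc φ) (Icc x y) := continuousOn_osc hφc
  have hcc : ContinuousOn c (Icc x y) := fun t ht => (hc t ht).continuousAt.continuousWithinAt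
  -- primitive
  set P : ℝ → ℂ := fun t => ∫ s in x..t, osc φ s with hP
  have hPb : ∀ t ∈ Icc x y, ‖P t‖ ≤ 10 / Real.sqrt μ := by
    intro t ht
    have hsub : Icc x t ⊆ Icc x y := Icc_subset_Icc le_rfl ht.2
    exact vdc2 ht.1 hμ (fun s hs => hφ s (hsub hs)) (fun s hs => hv s (hsub hs))
      (hw.mono hsub) (fun s hs => hw0 s (hsub hs))
  have hPc : ContinuousOn P (Icc x y) := by
    have := intervalIntegral.continuousOn_primitive_interval (μ := volume) (f := osc φ)
      (a := x) (b := y) (by rw [hu]; exact hoc.integrableOn_Icc)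
    rwa [hu] at this
  have hPd : ∀ t ∈ Ioo x y, HasDerivAt P (osc φ t) t := by
    intro t ht
    have htI : Icc x y ∈ 𝓝 t := Icc_mem_nhds ht.1 ht.2
    refine intervalIntegral.integral_hasDerivAt_right ?_ ?_ (hoc.continuousAt htI)
    · apply ContinuousOn.intervalIntegrable
      rw [uIcc_of_le ht.1.le]
      exact hoc.mono (Icc_subset_Icc le_rfl ht.2.le)
    · exact ⟨Icc x y, htI, hoc.aestronglyMeasurable measurableSet_Icc⟩
  have hi : IntervalIntegrable (fun t => P t * c' t) volume x y :=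
    ContinuousOn.intervalIntegrable (by rw [hu]; exact hPc.mul hc')
  have hi1 : IntervalIntegrable (fun t => osc φ t * c t) volume x y :=
    ContinuousOn.intervalIntegrable (by rw [hu]; exact hoc.mul hcc)
  have hI : ∫ t in x..y, (osc φ t * c t + P t * c' t) = P y * c y - P x * c x := by
    refine intervalIntegral.integral_eq_sub_of_hasDerivAt_of_le hxy (hPc.mul hcc) ?_
      (hi1.add hi)
    intro t ht
    exact (hPd t ht).mul (hc t (Ioo_subset_Icc_self ht))
  rw [intervalIntegral.integral_add hi1 hi] at hI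
  have hPx : P x = 0 := by simp [hP]
  rw [hPx, zero_mul, sub_zero] at hI
  have hI' : ∫ t in x..y, osc φ t * c t = P y * c y - ∫ t in x..y, P t * c' t := by
    rw [← hI]; ring
  have hK : 0 ≤ 10 / Real.sqrt μ := by positivity
  have hB0 : 0 ≤ B := (norm_nonneg _).trans (hB x (left_mem_Icc.2 hxy))
  have h1 : ‖P y * c y‖ ≤ 10 / Real.sqrt μ * B := by
    rw [norm_mul]
    exact mul_le_mul (hPb y (right_mem_Icc.2 hxy)) (hB y (right_mem_Icc.2 hxy))
      (norm_nonneg _) hK
  have h2 : ‖∫ t in x..y, P t * c' t‖ ≤ 10 / Real.sqrt μ * B * (y - x) := by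
    have := intervalIntegral.norm_integral_le_of_norm_le_const (a := x) (b := y)
      (f := fun t => P t * c' t) (C := 10 / Real.sqrt μ * B) (by
        intro t ht
        rw [uIoc_of_le hxy] at ht
        rw [norm_mul]
        exact mul_le_mul (hPb t (Ioc_subset_Icc_self ht)) (hB' t (Ioc_subset_Icc_self ht))
          (norm_nonneg _) hK)
    rwa [abs_of_nonneg (by linarith)] at this
  rw [hI']
  refine (norm_sub_le _ _).trans ?_
  nlinarith

end H76DD
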