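import Mathlib
import Pool.Agent.L5helper76.DD.Osc

set_option autoImplicit false

open MeasureTheory Set Filter Topology

namespace H76DD

/-- sublevel sets of `f` in an interval -/
def slev (f : ℝ → ℝ) (x y δ : ℝ) : Set ℝ := {t | t ∈ Icc x y ∧ |f t| < δ}

lemma slev_fin (f : ℝ → ℝ) (x y δ : ℝ) : volume (slev f x y δ) ≠ ⊤ := by
  refine ne_top_of_le_ne_top ?_ (measure_mono (fun t ht => ht.1 : slev f x y δ ⊆ Icc x y))
  rw [Real.volume_Icc]
  exact ENNReal.ofReal_ne_top

lemma slev_real_le_of_subset {f : ℝ → ℝ} {x y δ : ℝ} {s : Set ℝ} (h : slev f x y δ ⊆ s)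
    (hs : volume s ≠ ⊤) : volume.real (slev f x y δ) ≤ volume.real s :=
  measureReal_mono h hs

lemma sublevel (j : ℕ) : ∀ (f : ℝ → ℝ), ContDiff ℝ (⊤ : ℕ∞) f → ∀ x y μ ε : ℝ, 0 < μ → 0 < ε →
    (∀ t ∈ Icc x y, μ ≤ |iteratedDeriv j f t|) →
    volume.real (slev f x y (μ * ε ^ j)) ≤ (2 ^ (j + 1) - 2) * ε := by
  induction j with
  | zero =>
    intro f hf x y μ ε hμ hε h
    have : slev f x y (μ * ε ^ 0) = ∅ := by
      ext t
      simp only [slev, mem_ofPred_eq, mem_empty_iff_false, iff_false, not_and, not_lt]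
      intro ht
      have := h t ht
      simpa using this
    rw [this]
    simp
  | succ j ih =>
    intro f hf x y μ ε hμ hε h
    have hC : (0:ℝ) ≤ 2 ^ (j + 1 + 1) - 2 := by
      have : (1:ℝ) ≤ 2 ^ (j + 1) := one_le_pow₀ (by norm_num)
      have e : (2:ℝ) ^ (j + 1 + 1) = 2 * 2 ^ (j + 1) := by ring
      rw [e]; linarith
    rcases lt_or_ge y x with hxy | hxy
    · have : slev f x y (μ * ε ^ (j + 1)) = ∅ := by
        ext t
        simp only [slev, mem_ofPred_eq, mem_empty_iff_false, iff_false, not_and, not_lt]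
        intro ht
        exact absurd (ht.1.trans ht.2) (not_le.2 hxy)
      rw [this]
      simp only [measureReal_empty]
      exact mul_nonneg hC hε.le
    set g := iteratedDeriv j f with hg
    have hgd : ∀ t, HasDerivAt g (iteratedDeriv (j + 1) f t) t := by
      intro t
      rw [iteratedDeriv_succ]
      have : Differentiable ℝ g := hf.differentiable_iteratedDeriv j (by
        exact_mod_cast WithTop.coe_lt_top (j : ℕ))
      exact (this t).hasDerivAt
    have hgc : Continuous (iteratedDeriv (j + 1) f) := hf.continuous_iteratedDeriv (j + 1) (by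
      exact_mod_cast le_top)
    obtain ⟨z, hz, hzz⟩ : ∃ z ∈ Icc x y, ∀ t ∈ Icc x y, μ * |t - z| ≤ |g t| := by
      rcases sign_cases hμ hgc.continuousOn h with h1 | h1
      · exact exists_pt hxy hμ.le (fun t _ => hgd t) h1
      · obtain ⟨z, hz, hzz⟩ := exists_pt (v := fun t => -g t)
          (w := fun t => -iteratedDeriv (j + 1) f t) hxy hμ.le (fun t _ => (hgd t).neg) h1
        refine ⟨z, hz, fun t ht => ?_⟩
        have := hzz t ht
        rwa [abs_neg] at this
    have hsub : slev f x y (μ * ε ^ (j + 1)) ⊆ (slev f x (z - ε) (μ * ε * ε ^ j) ∪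
        slev f (z + ε) y (μ * ε * ε ^ j)) ∪ Icc (z - ε) (z + ε) := by
      intro t ht
      obtain ⟨⟨h1, h2⟩, h3⟩ := ht
      have e : μ * ε * ε ^ j = μ * ε ^ (j + 1) := by ring
      rw [e]
      by_cases ha : t ≤ z - ε
      · exact Or.inl (Or.inl ⟨⟨h1, ha⟩, h3⟩)
      · by_cases hb : z + ε ≤ t
        · exact Or.inl (Or.inr ⟨⟨hb, h2⟩, h3⟩)
        · push Not at ha hb
          exact Or.inr ⟨ha.le, hb.le⟩
    have i1 := ih f hf x (z - ε) (μ * ε) ε (by positivity) hε (fun t ht => by
      have htI : t ∈ Icc x y := ⟨ht.1, by linarith [ht.2, hz.2]⟩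
      refine le_trans ?_ (hzz t htI)
      rw [abs_of_nonpos (by linarith [ht.2])]
      exact mul_le_mul_of_nonneg_left (by linarith [ht.2]) hμ.le)
    have i2 := ih f hf (z + ε) y (μ * ε) ε (by positivity) hε (fun t ht => by
      have htI : t ∈ Icc x y := ⟨by linarith [ht.1, hz.1], ht.2⟩
      refine le_trans ?_ (hzz t htI)
      rw [abs_of_nonneg (by linarith [ht.1])]
      exact mul_le_mul_of_nonneg_left (by linarith [ht.1]) hμ.le)
    have hfin : volume ((slev f x (z - ε) (μ * ε * ε ^ j) ∪
        slev f (z + ε) y (μ * ε * ε ^ j)) ∪ Icc (z - ε) (z + ε)) ≠ ⊤ := by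
      refine (measure_union_lt_top (measure_union_lt_top (slev_fin _ _ _ _).lt_top
        (slev_fin _ _ _ _).lt_top) ?_).ne
      rw [Real.volume_Icc]
      exact ENNReal.ofReal_lt_top
    refine (measureReal_mono hsub hfin).trans ?_
    refine (measureReal_union_le _ _).trans ?_
    have h3 := measureReal_union_le (μ := volume) (slev f x (z - ε) (μ * ε * ε ^ j))
      (slev f (z + ε) y (μ * ε * ε ^ j))
    have h4 : volume.real (Icc (z - ε) (z + ε)) = 2 * ε := by
      rw [Real.volume_real_Icc]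
      rw [max_eq_left (by linarith)]
      ring
    rw [h4]
    have e : (2:ℝ) ^ (j + 1 + 1) = 2 * 2 ^ (j + 1) := by ring
    rw [e]
    nlinarith

/-- a subadditive interval function which is small on short intervals is bounded by the number
of steps -/
lemma grid {x y η B : ℝ} (hxy : x ≤ y) (hη : 0 < η) (hB : 0 ≤ B) (g : ℝ → ℝ → ℝ)
    (hadd : ∀ a b c, x ≤ a → a ≤ b → b ≤ c → c ≤ y → g a c ≤ g a b + g b c)
    (hs : ∀ a b, x ≤ a → a ≤ b → b ≤ y → b - a ≤ η → g a b ≤ B) :
    g x y ≤ ((y - x) / η + 2) * B := by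
  have key : ∀ n : ℕ, ∀ z, x ≤ z → z ≤ y → z - x ≤ (n + 1) * η → g x z ≤ (n + 1) * B := by
    intro n
    induction n with
    | zero =>
      intro z hz hz' h
      have := hs x z le_rfl hz hz' (by simpa using h)
      simpa using this
    | succ n ih =>
      intro z hz hz' h
      by_cases h1 : z - x ≤ (n + 1) * η
      · refine (ih z hz hz' h1).trans ?_
        push_cast
        nlinarith
      · push Not at h1
        have h2 : η ≤ (n + 1) * η := by nlinarith [(Nat.cast_nonneg n : (0:ℝ) ≤ n)]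
        have h3 := hadd x (z - η) z le_rfl (by linarith) (by linarith) hz'
        have h4 := ih (z - η) (by linarith) (by linarith) (by push_cast at h; linarith)
        have h5 := hs (z - η) z (by linarith) (by linarith) hz' (by linarith)
        push_cast
        linarith
  have hq : 0 ≤ (y - x) / η := div_nonneg (by linarith) hη.le
  have h1 := Nat.le_ceil ((y - x) / η)
  have h2 := (Nat.ceil_lt_add_one hq).le
  have h3 := key ⌈(y - x) / η⌉₊ y hxy le_rfl (by
    rw [div_le_iff₀ hη] at h1
    nlinarith)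
  refine h3.trans ?_
  nlinarith

lemma sublevel_unif {f : ℝ → ℝ} (hf : ContDiff ℝ (⊤ : ℕ∞) f) {x y lam M ε : ℝ} {N : ℕ}
    (hxy : x ≤ y) (hlam : 0 < lam) (hM : 0 < M) (hε : 0 < ε) (hε1 : ε ≤ 1)
    (hbd : ∀ j ≤ N, ∀ t, |iteratedDeriv j f t| ≤ M)
    (hlow : ∀ t ∈ Icc x y, ∃ j < N, lam ≤ |iteratedDeriv j f t|) :
    volume.real (slev f x y (lam / 2 * ε ^ N)) ≤
      (2 * M * (y - x) / lam + 2) * (2 ^ (N + 1) * ε) := by
  have h := grid (η := lam / (2 * M)) (B := 2 ^ (N + 1) * ε) hxy (by positivity) (by positivity)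
    (fun a b => volume.real (slev f a b (lam / 2 * ε ^ N))) (by
      intro a b c _ hab hbc _
      refine le_trans (measureReal_mono (s₂ := slev f a b (lam / 2 * ε ^ N) ∪
        slev f b c (lam / 2 * ε ^ N)) ?_ ?_) (measureReal_union_le _ _)
      · intro t ht
        rcases le_total t b with h1 | h1
        · exact Or.inl ⟨⟨ht.1.1, h1⟩, ht.2⟩
        · exact Or.inr ⟨⟨h1, ht.1.2⟩, ht.2⟩
      · exact (measure_union_lt_top (slev_fin _ _ _ _).lt_top (slev_fin _ _ _ _).lt_top).ne)
    (by
      intro a b ha hab hb hba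
      obtain ⟨j, hj, hj'⟩ := hlow a ⟨ha, hab.trans hb⟩
      have hjj : ∀ t ∈ Icc a b, lam / 2 ≤ |iteratedDeriv j f t| := by
        intro t ht
        have hmv : ‖iteratedDeriv j f t - iteratedDeriv j f a‖ ≤ M * ‖t - a‖ := by
          refine Convex.norm_image_sub_le_of_norm_deriv_le (s := univ) (𝕜 := ℝ)
            (f := iteratedDeriv j f) (fun s _ => ?_) (fun s _ => ?_) convex_univ
            (mem_univ _) (mem_univ _)
          · exact hf.differentiable_iteratedDeriv j (by
              exact_mod_cast WithTop.coe_lt_top (j : ℕ)) s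
          · rw [← iteratedDeriv_succ, Real.norm_eq_abs]
            exact hbd (j + 1) hj s
        rw [Real.norm_eq_abs, Real.norm_eq_abs,
          abs_of_nonneg (by linarith [ht.1] : 0 ≤ t - a)] at hmv
        have h1 : M * (t - a) ≤ lam / 2 := by
          have : t - a ≤ lam / (2 * M) := by linarith [ht.2]
          calc M * (t - a) ≤ M * (lam / (2 * M)) := mul_le_mul_of_nonneg_left this hM.le
            _ = lam / 2 := by field_simp
        have h2 := abs_sub_abs_le_abs_sub (iteratedDeriv j f a) (iteratedDeriv j f t)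
        rw [abs_sub_comm] at h2
        linarith
      have h1 := sublevel j f hf a b (lam / 2) ε (by positivity) hε hjj
      refine le_trans ?_ (h1.trans ?_)
      · refine measureReal_mono ?_ (slev_fin _ _ _ _)
        intro t ht
        refine ⟨ht.1, ht.2.trans_le ?_⟩
        exact mul_le_mul_of_nonneg_left (pow_le_pow_of_le_one hε.le hε1 hj.le) (by positivity)
      · refine mul_le_mul_of_nonneg_right ?_ hε.le
        have : (2:ℝ) ^ (j + 1) ≤ 2 ^ (N + 1) := pow_le_pow_right₀ (by norm_num) (by omega)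
        linarith)
  have e : (y - x) / (lam / (2 * M)) = 2 * M * (y - x) / lam := by field_simp
  rw [e] at h
  exact h

end H76DD
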