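import Mathlib
import Pool.Agent.L5helper76.DD.Sub
import Pool.Agent.L5helper76.DD.Quat2

set_option autoImplicit false

open MeasureTheory Set Filter Topology
open scoped ContDiff

namespace H76DD

/-- `√(1 - τ²)` -/
noncomputable def wf (τ : ℝ → ℝ) (k : ℝ) : ℝ := Real.sqrt (1 - τ k ^ 2)

lemma wf_sq {τ : ℝ → ℝ} {k : ℝ} (h : 0 < 1 - τ k ^ 2) : wf τ k ^ 2 = 1 - τ k ^ 2 :=
  Real.sq_sqrt h.le

lemma wf_pos {τ : ℝ → ℝ} {k : ℝ} (h : 0 < 1 - τ k ^ 2) : 0 < wf τ k := Real.sqrt_pos.2 h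

lemma hasDerivAt_wf {τ : ℝ → ℝ} (hτ : Good τ) {k : ℝ} (h : 0 < 1 - τ k ^ 2) :
    HasDerivAt (wf τ) (-(τ k * deriv τ k) / wf τ k) k := by
  have h1 := (hτ.differentiable k).hasDerivAt
  have h2 : HasDerivAt (fun k => 1 - τ k ^ 2) (-(2 * τ k * deriv τ k)) k := by
    have := (h1.pow 2).const_sub 1
    refine this.congr_deriv ?_
    push_cast
    ring
  have h3 := h2.sqrt h.ne'
  refine h3.congr_deriv ?_
  unfold wf
  have := Real.sqrt_pos.2 h
  field_simp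

lemma hasDerivAt_winv {τ : ℝ → ℝ} (hτ : Good τ) {k : ℝ} (h : 0 < 1 - τ k ^ 2) :
    HasDerivAt (fun k => (wf τ k)⁻¹) (τ k * deriv τ k / wf τ k ^ 3) k := by
  have h0 := wf_pos h
  have h1 := (hasDerivAt_wf hτ h).inv h0.ne'
  refine h1.congr_deriv ?_
  field_simp

lemma abs_lt_of_pos {τ : ℝ → ℝ} {k : ℝ} (h : 0 < 1 - τ k ^ 2) : |τ k| < 1 := by
  rw [← sq_lt_one_iff_abs_lt_one]
  linarith

lemma hasDerivAt_theta {τ : ℝ → ℝ} (hτ : Good τ) {k : ℝ} (h : 0 < 1 - τ k ^ 2) :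
    HasDerivAt (fun k => Real.arccos (τ k)) (-(deriv τ k) * (wf τ k)⁻¹) k := by
  have h1 := (hτ.differentiable k).hasDerivAt
  have h2 := abs_lt.1 (abs_lt_of_pos h)
  have h3 := Real.hasDerivAt_arccos (by linarith [h2.1] : τ k ≠ -1) (by linarith [h2.2] : τ k ≠ 1)
  refine (h3.comp k h1).congr_deriv ?_
  unfold wf
  ring

lemma hasDerivAt_theta' {τ : ℝ → ℝ} (hτ : Good τ) {k : ℝ} (h : 0 < 1 - τ k ^ 2) :
    HasDerivAt (fun k => -(deriv τ k) * (wf τ k)⁻¹) (-(Gf τ k) / wf τ k ^ 3) k := by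
  have h1 := (hτ.deriv.differentiable k).hasDerivAt
  have h2 := (h1.neg).mul (hasDerivAt_winv hτ h)
  refine h2.congr_deriv ?_
  have h0 := wf_pos h
  have h3 := wf_sq h
  unfold Gf
  simp only [Pi.neg_apply]
  field_simp
  rw [h3]
  ring

section

variable {τ : ℝ → ℝ} {M₁ δ a b z M : ℝ}

/-- lower bounds extracted from a lower bound for `H` -/
lemma pos_of_H (hM : ∀ k, |Gf τ k| ≤ M₁) (hM₁ : 1 ≤ M₁) (hle : ∀ k, |τ k| ≤ 1) (hδ : 0 < δ)
    {k : ℝ} (h : δ / 2 ≤ |Hf τ k|) :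
    δ / (2 * M₁) ≤ 1 - τ k ^ 2 ∧ 0 < 1 - τ k ^ 2 ∧ δ / 2 ≤ |Gf τ k| := by
  have h0 : 0 ≤ 1 - τ k ^ 2 := by
    have := hle k
    rw [← sq_le_one_iff_abs_le_one] at this
    linarith
  have h1 : |Hf τ k| = (1 - τ k ^ 2) * |Gf τ k| := by
    unfold Hf
    rw [abs_mul, show 1 - τ k * τ k = 1 - τ k ^ 2 by ring, abs_of_nonneg h0]
  have h2 : δ / (2 * M₁) ≤ 1 - τ k ^ 2 := by
    rw [div_le_iff₀ (by positivity)]
    have : (1 - τ k ^ 2) * |Gf τ k| ≤ (1 - τ k ^ 2) * M₁ := mul_le_mul_of_nonneg_left (hM k) h0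
    linarith
  refine ⟨h2, lt_of_lt_of_le (by positivity) h2, ?_⟩
  have : (1 - τ k ^ 2) * |Gf τ k| ≤ 1 * |Gf τ k| :=
    mul_le_mul_of_nonneg_right (by nlinarith [sq_nonneg (τ k)]) (abs_nonneg _)
  linarith

lemma winv_bound (hδ : 0 < δ) (hM₁ : 1 ≤ M₁) {k : ℝ}
    (h : δ / (2 * M₁) ≤ 1 - τ k ^ 2) :
    (wf τ k)⁻¹ ≤ (2 * M₁ / δ) ^ 2 ∧ (wf τ k ^ 3)⁻¹ ≤ (2 * M₁ / δ) ^ 2 ∧ wf τ k ≤ 1 := by
  have hpos : 0 < 1 - τ k ^ 2 := lt_of_lt_of_le (by positivity) h
  have h0 := wf_pos hpos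
  have h1 := wf_sq hpos
  have h2 : wf τ k ≤ 1 := by
    have : wf τ k ^ 2 ≤ 1 ^ 2 := by rw [h1]; nlinarith [sq_nonneg (τ k)]
    exact (sq_le_sq₀ h0.le one_pos.le).1 this
  have h3 : (wf τ k ^ 4)⁻¹ ≤ (2 * M₁ / δ) ^ 2 := by
    have e : (wf τ k ^ 4)⁻¹ = ((1 - τ k ^ 2)⁻¹) ^ 2 := by rw [← h1]; field_simp
    rw [e]
    refine pow_le_pow_left₀ (by positivity) ?_ 2
    have := inv_anti₀ (by positivity : 0 < δ / (2 * M₁)) h
    rwa [inv_div] at this
  have h4 : (wf τ k ^ 3)⁻¹ ≤ (wf τ k ^ 4)⁻¹ := by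
    refine inv_anti₀ (by positivity) ?_
    calc wf τ k ^ 4 = wf τ k ^ 3 * wf τ k := by ring
      _ ≤ wf τ k ^ 3 * 1 := mul_le_mul_of_nonneg_left h2 (by positivity)
      _ = _ := mul_one _
  have h5 : (wf τ k)⁻¹ ≤ (wf τ k ^ 3)⁻¹ := by
    refine inv_anti₀ (by positivity) ?_
    calc wf τ k ^ 3 = wf τ k * wf τ k ^ 2 := by ring
      _ ≤ wf τ k * 1 := mul_le_mul_of_nonneg_left (pow_le_one₀ h0.le h2) h0.le
      _ = _ := mul_one _
  exact ⟨h5.trans (h4.trans h3), h4.trans h3, h2⟩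

lemma sinterm (hτ : Good τ) (hM : ∀ k, |Gf τ k| ≤ M₁) (hM' : ∀ k, |deriv τ k| ≤ M₁)
    (hM₁ : 1 ≤ M₁) (hle : ∀ k, |τ k| ≤ 1) (hδ : 0 < δ) (hab : a ≤ b) (hba : b - a ≤ 1)
    (hH : ∀ k ∈ Icc a b, δ / 2 ≤ |Hf τ k|) {n m : ℕ} (hn : 1 ≤ n) (hnm : n ≤ m)
    {α : ℝ → ℂ} (hα : ContDiff ℝ 1 α) (hα0 : ∀ k, ‖α k‖ ≤ M) (hα1 : ∀ k, ‖deriv α k‖ ≤ M)
    (z : ℝ) :
    ‖∫ k in a..b, ch z k * ((Real.sin (m * Real.arccos (τ k)) * (wf τ k)⁻¹ : ℝ) * α k)‖ ≤
      20 / Real.sqrt (n * δ / 2) * (M * (1 + M₁) * (2 * M₁ / δ) ^ 2) := by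
  have hpos : ∀ k ∈ Icc a b, 0 < 1 - τ k ^ 2 := fun k hk =>
    (pos_of_H hM hM₁ hle hδ (hH k hk)).2.1
  have hlow : ∀ k ∈ Icc a b, δ / (2 * M₁) ≤ 1 - τ k ^ 2 := fun k hk =>
    (pos_of_H hM hM₁ hle hδ (hH k hk)).1
  have hGl : ∀ k ∈ Icc a b, δ / 2 ≤ |Gf τ k| := fun k hk =>
    (pos_of_H hM hM₁ hle hδ (hH k hk)).2.2
  have hM0 : 0 ≤ M := (norm_nonneg _).trans (hα0 0)
  have hn0 : (0:ℝ) < n := by exact_mod_cast hn
  have hm0 : (0:ℝ) < m := by exact_mod_cast lt_of_lt_of_le hn hnm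
  have hμ : 0 < n * δ / 2 := by positivity
  -- the amplitude
  set c : ℝ → ℂ := fun k => ((wf τ k)⁻¹ : ℝ) * α k with hc
  set c' : ℝ → ℂ := fun k => ((τ k * deriv τ k / wf τ k ^ 3 : ℝ) : ℂ) * α k +
    ((wf τ k)⁻¹ : ℝ) * deriv α k with hc'
  have hcd : ∀ k ∈ Icc a b, HasDerivAt c (c' k) k := by
    intro k hk
    have h1 := (hasDerivAt_winv hτ (hpos k hk)).ofReal_comp
    have h2 := ((hα.differentiable (by norm_num)) k).hasDerivAt
    exact h1.mul h2
  have hwc : ContinuousOn (wf τ) (Icc a b) := fun k hk =>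
    (hasDerivAt_wf hτ (hpos k hk)).continuousAt.continuousWithinAt
  have hwne : ∀ k ∈ Icc a b, wf τ k ≠ 0 := fun k hk => (wf_pos (hpos k hk)).ne'
  have hc'c : ContinuousOn c' (Icc a b) := by
    have h1 : ContinuousOn (fun k => τ k * deriv τ k / wf τ k ^ 3) (Icc a b) :=
      (hτ.continuous.mul hτ.deriv.continuous).continuousOn.div (hwc.pow 3)
        (fun k hk => pow_ne_zero _ (hwne k hk))
    have h2 : ContinuousOn (fun k => (wf τ k)⁻¹) (Icc a b) := hwc.inv₀ hwne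
    exact ((Complex.continuous_ofReal.comp_continuousOn h1).mul hα.continuous.continuousOn).add
      ((Complex.continuous_ofReal.comp_continuousOn h2).mul
        (hα.continuous_deriv le_rfl).continuousOn)
  set B := M * (1 + M₁) * (2 * M₁ / δ) ^ 2 with hB
  have hB0 : ∀ k ∈ Icc a b, ‖c k‖ ≤ B := by
    intro k hk
    have h1 := (winv_bound hδ hM₁ (hlow k hk)).1
    have h0 := wf_pos (hpos k hk)
    rw [hc]
    simp only
    rw [norm_mul, Complex.norm_real, Real.norm_eq_abs, abs_of_pos (inv_pos.2 h0)]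
    calc (wf τ k)⁻¹ * ‖α k‖ ≤ (2 * M₁ / δ) ^ 2 * M := mul_le_mul h1 (hα0 k) (norm_nonneg _)
          (by positivity)
      _ ≤ B := by
          have h2 : 0 ≤ M₁ := by linarith
          have h3 : 0 ≤ M * M₁ * (2 * M₁ / δ) ^ 2 := by positivity
          rw [hB]
          linarith
  have hB1 : ∀ k ∈ Icc a b, ‖c' k‖ ≤ B := by
    intro k hk
    obtain ⟨h1, h2, _⟩ := winv_bound hδ hM₁ (hlow k hk)
    have h0 := wf_pos (hpos k hk)
    rw [hc']
    simp only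
    refine (norm_add_le _ _).trans ?_
    rw [norm_mul, norm_mul, Complex.norm_real, Complex.norm_real, Real.norm_eq_abs,
      Real.norm_eq_abs, abs_of_pos (inv_pos.2 h0), abs_div, abs_mul,
      abs_of_pos (by positivity : 0 < wf τ k ^ 3)]
    have h3 : |τ k| * |deriv τ k| / wf τ k ^ 3 ≤ M₁ * (2 * M₁ / δ) ^ 2 := by
      rw [div_eq_mul_inv]
      refine mul_le_mul ?_ h2 (by positivity) (by linarith)
      calc _ ≤ 1 * M₁ := mul_le_mul (hle k) (hM' k) (abs_nonneg _) one_pos.le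
        _ = M₁ := one_mul _
    calc |τ k| * |deriv τ k| / wf τ k ^ 3 * ‖α k‖ + (wf τ k)⁻¹ * ‖deriv α k‖
        ≤ M₁ * (2 * M₁ / δ) ^ 2 * M + (2 * M₁ / δ) ^ 2 * M :=
          add_le_add (mul_le_mul h3 (hα0 k) (norm_nonneg _) (by positivity))
            (mul_le_mul h1 (hα1 k) (norm_nonneg _) (by positivity))
      _ = B := by rw [hB]; ring
  -- the two phases
  have key : ∀ σ : ℝ, σ = 1 ∨ σ = -1 →
      ‖∫ k in a..b, osc (fun k => z * k + σ * (m * Real.arccos (τ k))) k * c k‖ ≤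
        20 / Real.sqrt (n * δ / 2) * B := by
    intro σ hσ
    have hσa : |σ| = 1 := by rcases hσ with h | h <;> simp [h]
    have h1 := vdc2_amp (φ := fun k => z * k + σ * (m * Real.arccos (τ k)))
      (v := fun k => z * 1 + σ * (m * (-(deriv τ k) * (wf τ k)⁻¹)))
      (w := fun k => σ * (m * (-(Gf τ k) / wf τ k ^ 3))) (c := c) (c' := c') (B := B)
      (μ := n * δ / 2) hab hμ
      (fun k hk => ((hasDerivAt_id k).const_mul z).add
        (((hasDerivAt_theta hτ (hpos k hk)).const_mul (m:ℝ)).const_mul σ))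
      (fun k hk => (((hasDerivAt_theta' hτ (hpos k hk)).const_mul (m:ℝ)).const_mul σ).const_add _)
      (by
        have h1 : ContinuousOn (fun k => -(Gf τ k) / wf τ k ^ 3) (Icc a b) :=
          (good_Gf hτ).continuous.neg.continuousOn.div (hwc.pow 3)
            (fun k hk => pow_ne_zero _ (hwne k hk))
        exact continuousOn_const.mul (continuousOn_const.mul h1))
      (fun k hk => by
        have h0 := wf_pos (hpos k hk)
        have h2 := (winv_bound hδ hM₁ (hlow k hk)).2.2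
        rw [abs_mul, hσa, one_mul, abs_mul, abs_of_pos hm0, abs_div, abs_neg,
          abs_of_pos (by positivity : 0 < wf τ k ^ 3)]
        have h3 : δ / 2 ≤ |Gf τ k| / wf τ k ^ 3 := by
          rw [le_div_iff₀ (by positivity)]
          calc δ / 2 * wf τ k ^ 3 ≤ δ / 2 * 1 :=
                mul_le_mul_of_nonneg_left (pow_le_one₀ h0.le h2) (by positivity)
            _ ≤ |Gf τ k| := by rw [mul_one]; exact hGl k hk
        have h4 : (n:ℝ) ≤ m := by exact_mod_cast hnm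
        calc n * δ / 2 = n * (δ / 2) := by ring
          _ ≤ m * (|Gf τ k| / wf τ k ^ 3) := mul_le_mul h4 h3 (by positivity) hm0.le)
      hcd hc'c hB0 hB1
    refine h1.trans ?_
    have hBn : 0 ≤ B := (norm_nonneg _).trans (hB0 a (left_mem_Icc.2 hab))
    have h2 : B * (1 + (b - a)) ≤ 2 * B := by nlinarith
    calc 10 / Real.sqrt (n * δ / 2) * (B * (1 + (b - a))) ≤
          10 / Real.sqrt (n * δ / 2) * (2 * B) := mul_le_mul_of_nonneg_left h2 (by positivity)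
      _ = _ := by ring
  have hcc : ContinuousOn c (Icc a b) := fun k hk => (hcd k hk).continuousAt.continuousWithinAt
  have hθc : ContinuousOn (fun k => Real.arccos (τ k)) (Icc a b) :=
    (Real.continuous_arccos.comp hτ.continuous).continuousOn
  have hoi : ∀ σ : ℝ, IntervalIntegrable
      (fun k => osc (fun k => z * k + σ * (m * Real.arccos (τ k))) k * c k) volume a b := by
    intro σ
    apply ContinuousOn.intervalIntegrable
    rw [uIcc_of_le hab]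
    refine (continuousOn_osc ?_).mul hcc
    exact (by fun_prop : ContinuousOn (fun k => z * k) (Icc a b)).add
      (continuousOn_const.mul (continuousOn_const.mul hθc))
  have heq : ∫ k in a..b, ch z k * ((Real.sin (m * Real.arccos (τ k)) * (wf τ k)⁻¹ : ℝ) * α k) =
      (-Complex.I / 2) * ((∫ k in a..b, osc (fun k => z * k + 1 * (m * Real.arccos (τ k))) k * c k)
        - ∫ k in a..b, osc (fun k => z * k + (-1) * (m * Real.arccos (τ k))) k * c k) := by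
    rw [← intervalIntegral.integral_sub (hoi 1) (hoi (-1)), ← intervalIntegral.integral_const_mul]
    refine intervalIntegral.integral_congr fun k _ => ?_
    simp only [osc, ch, hc]
    have e1 : Complex.exp (((z * k + 1 * (m * Real.arccos (τ k)) : ℝ) : ℂ) * Complex.I) =
        Complex.exp (((z * k : ℝ) : ℂ) * Complex.I) *
          Complex.exp (((m * Real.arccos (τ k) : ℝ) : ℂ) * Complex.I) := by
      rw [← Complex.exp_add]; congr 1; push_cast; ring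
    have e2 : Complex.exp (((z * k + (-1) * (m * Real.arccos (τ k)) : ℝ) : ℂ) * Complex.I) =
        Complex.exp (((z * k : ℝ) : ℂ) * Complex.I) *
          Complex.exp (-((m * Real.arccos (τ k) : ℝ) : ℂ) * Complex.I) := by
      rw [← Complex.exp_add]; congr 1; push_cast; ring
    rw [e1, e2, Complex.ofReal_mul (Real.sin _), Complex.ofReal_sin, Complex.sin]
    ring
  rw [heq, norm_mul]
  have h1 := key 1 (Or.inl rfl)
  have h2 := key (-1) (Or.inr rfl)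
  have h3 : ‖-Complex.I / 2‖ = 1 / 2 := by
    rw [norm_div, norm_neg, Complex.norm_I]
    norm_num
  rw [h3]
  have h4 := norm_sub_le (∫ k in a..b, osc (fun k => z * k + 1 * (m * Real.arccos (τ k))) k * c k)
    (∫ k in a..b, osc (fun k => z * k + (-1) * (m * Real.arccos (τ k))) k * c k)
  linarith

end

end H76DD
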