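import Mathlib
import Pool.Agent.L5helper76.DD.Piece

set_option autoImplicit false

open MeasureTheory Set Filter Topology
open scoped ContDiff

namespace H76DD

/-- the tail of a function with quadratic decay -/
lemma tail_bound {F : ℝ → ℂ} {M X : ℝ} (hX : 1 ≤ X) (hM : 0 ≤ M) (hF : Continuous F)
    (hFb : ∀ k, ‖F k‖ ≤ M / (1 + k ^ 2)) :
    Integrable F ∧ ‖(∫ k, F k) - ∫ k in (-X)..X, F k‖ ≤ 2 * M / X := by
  have hbi : Integrable (fun k : ℝ => M * (1 + k ^ 2)⁻¹) := integrable_inv_one_add_sq.const_mul M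
  have hFi : Integrable F := by
    refine hbi.mono' hF.aestronglyMeasurable (Eventually.of_forall fun k => ?_)
    rw [← div_eq_mul_inv]
    exact hFb k
  refine ⟨hFi, ?_⟩
  have h1 := integral_add_compl (measurableSet_Ioc (a := -X) (b := X)) hFi
  rw [intervalIntegral.integral_of_le (by linarith), ← h1, add_sub_cancel_left]
  have h2 : ‖∫ k in (Ioc (-X) X)ᶜ, F k‖ ≤ ∫ k in (Ioc (-X) X)ᶜ, M * (1 + k ^ 2)⁻¹ := by
    refine norm_integral_le_of_norm_le hbi.integrableOn (Eventually.of_forall fun k => ?_)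
    rw [← div_eq_mul_inv]
    exact hFb k
  refine h2.trans ?_
  have h3 := integral_add_compl (measurableSet_Ioc (a := -X) (b := X)) hbi
  have h4 : ∫ k in Ioc (-X) X, M * (1 + k ^ 2)⁻¹ = M * (Real.arctan X - Real.arctan (-X)) := by
    rw [← intervalIntegral.integral_of_le (by linarith), intervalIntegral.integral_const_mul,
      integral_inv_one_add_sq]
  have h5 : ∫ k : ℝ, M * (1 + k ^ 2)⁻¹ = M * Real.pi := by
    rw [integral_const_mul, integral_univ_inv_one_add_sq]
  rw [h4, h5, Real.arctan_neg] at h3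
  have h6 : ∫ k in (Ioc (-X) X)ᶜ, M * (1 + k ^ 2)⁻¹ = 2 * M * (Real.pi / 2 - Real.arctan X) := by
    linarith
  rw [h6, ← Real.arctan_inv_of_pos (by linarith)]
  have h7 : Real.arctan X⁻¹ ≤ X⁻¹ := by
    have h8 : 0 ≤ Real.arctan X⁻¹ := Real.arctan_nonneg.2 (by positivity)
    have := Real.le_tan h8 (Real.arctan_lt_pi_div_two _)
    rwa [Real.tan_arctan] at this
  rw [div_eq_mul_inv]
  exact mul_le_mul_of_nonneg_left h7 (by positivity)

lemma indicator_integrable (S : Set ℝ) (hS : MeasurableSet S) (a b : ℝ) :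
    IntervalIntegrable (S.indicator (1 : ℝ → ℝ)) volume a b := by
  have h : IntervalIntegrable (1 : ℝ → ℝ) volume a b := intervalIntegrable_const
  rw [intervalIntegrable_iff] at h ⊢
  exact h.indicator hS

theorem osc_main {τ : ℝ → ℝ} (hτ : Good τ) (hle : ∀ k, |τ k| ≤ 1) (hne : ∃ k, Hf τ k ≠ 0) :
    ∃ (C : ℝ) (Q : ℕ), 0 < C ∧ ∀ X : ℝ, 1 ≤ X → ∀ n : ℕ, X ^ Q ≤ n →
      ∀ (M : ℝ) (α₀ α₁ F : ℝ → ℂ) (z : ℝ), ContDiff ℝ 1 α₀ → ContDiff ℝ 1 α₁ →
      (∀ k, ‖α₀ k‖ ≤ M) → (∀ k, ‖α₁ k‖ ≤ M) → (∀ k, ‖deriv α₀ k‖ ≤ M) →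
      (∀ k, ‖deriv α₁ k‖ ≤ M) → Continuous F → (∀ k, ‖F k‖ ≤ M / (1 + k ^ 2)) →
      (∀ k, |τ k| < 1 → F k =
        ch z k * ((Real.sin ((n + 1 : ℕ) * Real.arccos (τ k)) * (wf τ k)⁻¹ : ℝ) * α₁ k) -
        ch z k * ((Real.sin (n * Real.arccos (τ k)) * (wf τ k)⁻¹ : ℝ) * α₀ k)) →
      ‖∫ k, F k‖ ≤ C * M / X := by
  obtain ⟨N, p, c, hc, hlow⟩ := (good_Hf hτ).lower hne
  obtain ⟨C₁, hC₁, hb₁⟩ := (good_Hf hτ).bounded_iter (max N 1)
  obtain ⟨C₂, hC₂, hb₂⟩ := (good_Gf hτ).bounded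
  obtain ⟨C₃, hC₃, hb₃⟩ := hτ.deriv.bounded
  set M₁ : ℝ := 1 + C₁ + C₂ + C₃ with hM₁def
  have hM₁ : 1 ≤ M₁ := by rw [hM₁def]; linarith
  have hM₁0 : 0 < M₁ := by linarith
  have hH0 : ∀ j ≤ N, ∀ t, |iteratedDeriv j (Hf τ) t| ≤ M₁ := fun j hj t =>
    (hb₁ j (hj.trans (le_max_left _ _)) t).trans (by rw [hM₁def]; linarith)
  have hH1 : ∀ t, |deriv (Hf τ) t| ≤ M₁ := fun t => by
    have := hb₁ 1 (le_max_right _ _) t
    rw [iteratedDeriv_one] at this
    exact this.trans (by rw [hM₁def]; linarith)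
  have hG : ∀ t, |Gf τ t| ≤ M₁ := fun t => (hb₂ t).trans (by rw [hM₁def]; linarith)
  have hτ' : ∀ t, |deriv τ t| ≤ M₁ := fun t => (hb₃ t).trans (by rw [hM₁def]; linarith)
  have hcM : c ≤ M₁ := by
    obtain ⟨j, hj, hj'⟩ := hlow 0
    have := hj'.trans (hH0 j hj.le 0)
    simpa using this
  set D := p + (p + 2) * N with hD
  set E := 3 * D + 2 with hE
  set c₁ := c * (2⁻¹ : ℝ) ^ p / 2 with hc₁
  have hc₁0 : 0 < c₁ := by positivity
  set K₂ := (4 * M₁ * 2 ^ p / c + 2) * 2 ^ (N + 1) with hK₂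
  set K₃ := (4 * M₁ / c₁ + 2) * (40 / Real.sqrt (c₁ / 2)) * ((1 + M₁) * (2 * M₁ / c₁) ^ 2)
    with hK₃
  have hK₂0 : 0 < K₂ := by positivity
  have hK₃0 : 0 < K₃ := by positivity
  refine ⟨K₃ + K₂ + 2, D + 2 * E, by positivity, ?_⟩
  intro X hX n hn M α₀ α₁ F z hα₀ hα₁ hα₀b hα₁b hα₀d hα₁d hF hFb hrep
  have hX0 : 0 < X := by linarith
  have hM : 0 ≤ M := (norm_nonneg _).trans (hα₀b 0)
  have hn1 : 1 ≤ n := by
    have : (1:ℝ) ≤ n := (one_le_pow₀ hX).trans hn
    exact_mod_cast this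
  have hn0 : (0:ℝ) < n := by exact_mod_cast hn1
  set lam := c * ((2 * X)⁻¹) ^ p with hlam
  set ε := (X⁻¹) ^ (p + 2) with hε
  set δ := lam / 2 * ε ^ N with hδ
  have hlam0 : 0 < lam := by positivity
  have hε0 : 0 < ε := by positivity
  have hXi : X⁻¹ ≤ 1 := inv_le_one_of_one_le₀ hX
  have hε1 : ε ≤ 1 := pow_le_one₀ (by positivity) hXi
  have hδ0 : 0 < δ := by positivity
  have hδe : δ = c₁ * (X⁻¹) ^ D := by
    rw [hδ, hlam, hε, hc₁, hD, mul_inv, mul_pow, ← pow_mul, pow_add]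
    ring
  have hlamc : lam ≤ c := by
    rw [hlam]
    have : ((2 * X)⁻¹) ^ p ≤ 1 := pow_le_one₀ (by positivity)
      (inv_le_one_of_one_le₀ (by linarith))
    nlinarith
  have hδM : δ ≤ M₁ / 2 := by
    have : ε ^ N ≤ 1 := pow_le_one₀ hε0.le hε1
    have h2 : δ ≤ lam / 2 * 1 := mul_le_mul_of_nonneg_left this (by positivity)
    linarith
  set η := δ / (2 * M₁) with hη
  have hη0 : 0 < η := by positivity
  have hη1 : η ≤ 1 := by
    rw [hη, div_le_one (by positivity)]
    linarith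
  have hFM : ∀ k, ‖F k‖ ≤ M := fun k => (hFb k).trans (div_le_self hM (by nlinarith [sq_nonneg k]))
  set S : Set ℝ := {k | |Hf τ k| < δ} with hS
  have hSm : MeasurableSet S :=
    (isOpen_lt (good_Hf hτ).continuous.abs continuous_const).measurableSet
  set B := 40 / Real.sqrt (n * δ / 2) * (M * (1 + M₁) * (2 * M₁ / δ) ^ 2) with hB
  have hB0 : 0 ≤ B := by positivity
  have hFi : ∀ a b, IntervalIntegrable F volume a b := fun a b => hF.intervalIntegrable _ _
  -- the grid estimate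
  have hgrid := grid (x := -X) (y := X) (η := η) (B := B) (by linarith) hη0 hB0
    (fun a b => ‖∫ k in a..b, F k‖ - M * ∫ k in a..b, S.indicator (1 : ℝ → ℝ) k)
    (by
      intro a b c _ _ _ _
      rw [← intervalIntegral.integral_add_adjacent_intervals (hFi a b) (hFi b c),
        ← intervalIntegral.integral_add_adjacent_intervals (indicator_integrable S hSm a b)
          (indicator_integrable S hSm b c)]
      have := norm_add_le (∫ k in a..b, F k) (∫ k in b..c, F k)
      linarith)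
    (by
      intro a b ha hab hb hba
      have hind0 : 0 ≤ ∫ k in a..b, S.indicator (1 : ℝ → ℝ) k :=
        intervalIntegral.integral_nonneg hab fun k _ =>
          indicator_nonneg (fun _ _ => (zero_le_one : (0:ℝ) ≤ 1)) k
      by_cases hcase : ∀ k ∈ Icc a b, |Hf τ k| < δ
      · -- bad interval
        have h1 : ∫ k in a..b, S.indicator (1 : ℝ → ℝ) k = b - a := by
          have : ∫ k in a..b, S.indicator (1 : ℝ → ℝ) k = ∫ k in a..b, (1:ℝ) := by
            refine intervalIntegral.integral_congr fun k hk => ?_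
            rw [uIcc_of_le hab] at hk
            have hkS : k ∈ S := hcase k hk
            simp [hkS]
          rw [this]
          simp
        have h2 : ‖∫ k in a..b, F k‖ ≤ M * (b - a) := by
          have := intervalIntegral.norm_integral_le_of_norm_le_const (a := a) (b := b)
            (f := F) (C := M) (fun k _ => hFM k)
          rwa [abs_of_nonneg (by linarith)] at this
        rw [h1]
        linarith
      · -- good interval
        push Not at hcase
        obtain ⟨k₀, hk₀, hk₀'⟩ := hcase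
        have hHl : ∀ k ∈ Icc a b, δ / 2 ≤ |Hf τ k| := by
          intro k hk
          have hmv : ‖Hf τ k - Hf τ k₀‖ ≤ M₁ * ‖k - k₀‖ := by
            refine Convex.norm_image_sub_le_of_norm_deriv_le (s := univ) (𝕜 := ℝ)
              (f := Hf τ) (fun s _ => ?_) (fun s _ => ?_) convex_univ
              (mem_univ _) (mem_univ _)
            · exact (good_Hf hτ).differentiable s
            · exact hH1 s
          have h1 : ‖k - k₀‖ ≤ η := by
            rw [Real.norm_eq_abs, abs_le]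
            constructor
            · linarith [hk.1, hk₀.2]
            · linarith [hk.2, hk₀.1]
          have h2 : M₁ * ‖k - k₀‖ ≤ δ / 2 := by
            calc M₁ * ‖k - k₀‖ ≤ M₁ * η := mul_le_mul_of_nonneg_left h1 hM₁0.le
              _ = δ / 2 := by rw [hη]; field_simp
          have h3 := abs_sub_abs_le_abs_sub (Hf τ k₀) (Hf τ k)
          rw [abs_sub_comm, ← Real.norm_eq_abs (Hf τ k - Hf τ k₀)] at h3
          linarith
        have hba1 : b - a ≤ 1 := hba.trans hη1
        have hFe : ∫ k in a..b, F k =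
            (∫ k in a..b, ch z k *
              ((Real.sin ((n + 1 : ℕ) * Real.arccos (τ k)) * (wf τ k)⁻¹ : ℝ) * α₁ k)) -
            ∫ k in a..b, ch z k *
              ((Real.sin (n * Real.arccos (τ k)) * (wf τ k)⁻¹ : ℝ) * α₀ k) := by
          have hpos : ∀ k ∈ Icc a b, 0 < 1 - τ k ^ 2 := fun k hk =>
            (pos_of_H hG hM₁ hle hδ0 (hHl k hk)).2.1
          have hwc : ContinuousOn (wf τ) (Icc a b) := fun k hk =>
            (hasDerivAt_wf hτ (hpos k hk)).continuousAt.continuousWithinAt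
          have hwi : ContinuousOn (fun k => (wf τ k)⁻¹) (Icc a b) :=
            hwc.inv₀ fun k hk => (wf_pos (hpos k hk)).ne'
          have hθc : Continuous (fun k => Real.arccos (τ k)) :=
            Real.continuous_arccos.comp hτ.continuous
          have hint : ∀ (m : ℕ) (α : ℝ → ℂ), ContDiff ℝ 1 α → IntervalIntegrable (fun k => ch z k *
              ((Real.sin (m * Real.arccos (τ k)) * (wf τ k)⁻¹ : ℝ) * α k)) volume a b := by
            intro m α hα
            apply ContinuousOn.intervalIntegrable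
            rw [uIcc_of_le hab]
            have h1 : ContinuousOn (fun k => Real.sin (m * Real.arccos (τ k)) * (wf τ k)⁻¹)
                (Icc a b) := by
              refine ContinuousOn.mul ?_ hwi
              exact (Real.continuous_sin.comp (continuous_const.mul hθc)).continuousOn
            exact (contDiff_ch z (n := 0)).continuous.continuousOn.mul
              ((Complex.continuous_ofReal.comp_continuousOn h1).mul hα.continuous.continuousOn)
          rw [← intervalIntegral.integral_sub (hint (n + 1) α₁ hα₁) (hint n α₀ hα₀)]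
          refine intervalIntegral.integral_congr fun k hk => ?_
          rw [uIcc_of_le hab] at hk
          exact hrep k (abs_lt_of_pos (hpos k hk))
        have h1 := sinterm hτ hG hτ' hM₁ hle hδ0 hab hba1 hHl hn1 (Nat.le_succ n) hα₁ hα₁b hα₁d z
        have h2 := sinterm hτ hG hτ' hM₁ hle hδ0 hab hba1 hHl hn1 le_rfl hα₀ hα₀b hα₀d z
        have h3 : ‖∫ k in a..b, F k‖ ≤ B := by
          rw [hFe]
          refine (norm_sub_le _ _).trans ?_
          rw [hB]
          have e : 40 / Real.sqrt (n * δ / 2) * (M * (1 + M₁) * (2 * M₁ / δ) ^ 2) =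
            20 / Real.sqrt (n * δ / 2) * (M * (1 + M₁) * (2 * M₁ / δ) ^ 2) +
            20 / Real.sqrt (n * δ / 2) * (M * (1 + M₁) * (2 * M₁ / δ) ^ 2) := by ring
          rw [e]
          exact add_le_add h1 h2
        have h4 : 0 ≤ M * ∫ k in a..b, S.indicator (1 : ℝ → ℝ) k := mul_nonneg hM hind0
        linarith)
  -- the measure of the bad set
  have hlowX : ∀ t ∈ Icc (-X) X, ∃ j < N, lam ≤ |iteratedDeriv j (Hf τ) t| := by
    intro t ht
    obtain ⟨j, hj, hj'⟩ := hlow t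
    refine ⟨j, hj, le_trans ?_ hj'⟩
    rw [hlam]
    refine mul_le_mul_of_nonneg_left (pow_le_pow_left₀ (by positivity) ?_ p) hc.le
    refine inv_anti₀ (by positivity) ?_
    have := abs_le.2 ht
    linarith
  have hvol := sublevel_unif ((good_Hf hτ).contDiff) (by linarith : -X ≤ X) hlam0 hM₁0 hε0 hε1
    hH0 hlowX
  have hvol2 : ∫ k in (-X)..X, S.indicator (1 : ℝ → ℝ) k ≤ K₂ / X := by
    have h1 : ∫ k in (-X)..X, S.indicator (1 : ℝ → ℝ) k = volume.real (Ioc (-X) X ∩ S) := by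
      rw [intervalIntegral.integral_of_le (by linarith), setIntegral_indicator hSm]
      simp
    rw [h1]
    have h2 : volume.real (Ioc (-X) X ∩ S) ≤ volume.real (slev (Hf τ) (-X) X δ) :=
      measureReal_mono (fun t ht => ⟨Ioc_subset_Icc_self ht.1, ht.2⟩) (slev_fin _ _ _ _)
    refine h2.trans (hvol.trans ?_)
    have h3 : 2 * M₁ * (X - -X) / lam = 4 * M₁ * 2 ^ p / c * X ^ (p + 1) := by
      rw [hlam, inv_pow, mul_pow]
      field_simp
      ring
    have h4 : (1:ℝ) ≤ X ^ (p + 1) := one_le_pow₀ hX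
    rw [h3]
    have h5 : X ^ (p + 1) * ε = X⁻¹ := by
      rw [hε, show p + 2 = (p + 1) + 1 by ring, pow_succ (X⁻¹), ← mul_assoc, ← mul_pow,
        mul_inv_cancel₀ hX0.ne', one_pow, one_mul]
    calc (4 * M₁ * 2 ^ p / c * X ^ (p + 1) + 2) * (2 ^ (N + 1) * ε)
        ≤ (4 * M₁ * 2 ^ p / c * X ^ (p + 1) + 2 * X ^ (p + 1)) * (2 ^ (N + 1) * ε) := by
          refine mul_le_mul_of_nonneg_right ?_ (by positivity)
          linarith
      _ = K₂ * (X ^ (p + 1) * ε) := by rw [hK₂]; ring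
      _ = K₂ / X := by rw [h5, div_eq_mul_inv]
  -- the number of pieces times the bound
  have hpieces : ((X - -X) / η + 2) * B ≤ K₃ * M / X := by
    have h1 : (X - -X) / η = 4 * M₁ / c₁ * X ^ (D + 1) := by
      rw [hη, hδe, inv_pow]
      field_simp
      ring
    have h2 : (1:ℝ) ≤ X ^ (D + 1) := one_le_pow₀ hX
    have h3 : (2 * M₁ / δ) ^ 2 = (2 * M₁ / c₁) ^ 2 * X ^ (2 * D) := by
      rw [hδe, inv_pow, mul_comm 2 D, pow_mul]
      field_simp
    have h4 : Real.sqrt (c₁ / 2) * X ^ E ≤ Real.sqrt (n * δ / 2) := by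
      have e : Real.sqrt (c₁ / 2) * X ^ E = Real.sqrt (c₁ / 2 * X ^ (2 * E)) := by
        rw [Real.sqrt_mul (by positivity), mul_comm 2 E, pow_mul, Real.sqrt_sq (by positivity)]
      rw [e]
      refine Real.sqrt_le_sqrt ?_
      rw [hδe]
      have h5 : X ^ (D + 2 * E) * (c₁ * X⁻¹ ^ D) ≤ n * (c₁ * X⁻¹ ^ D) :=
        mul_le_mul_of_nonneg_right hn (by positivity)
      have h6 : X ^ (D + 2 * E) * (c₁ * X⁻¹ ^ D) = c₁ * X ^ (2 * E) := by
        rw [pow_add, inv_pow]
        field_simp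
      linarith
    have h5 : 40 / Real.sqrt (n * δ / 2) ≤ 40 / Real.sqrt (c₁ / 2) * (X ^ E)⁻¹ := by
      rw [div_mul_eq_mul_div, ← div_eq_mul_inv, div_div, mul_comm (X ^ E)]
      exact div_le_div_of_nonneg_left (by norm_num) (by positivity) h4
    have h6 : B ≤ 40 / Real.sqrt (c₁ / 2) * (X ^ E)⁻¹ *
        (M * (1 + M₁) * ((2 * M₁ / c₁) ^ 2 * X ^ (2 * D))) := by
      rw [hB, h3]
      exact mul_le_mul_of_nonneg_right h5 (by positivity)
    have h7 : (X - -X) / η + 2 ≤ (4 * M₁ / c₁ + 2) * X ^ (D + 1) := by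
      rw [h1]
      linarith
    calc ((X - -X) / η + 2) * B ≤ (4 * M₁ / c₁ + 2) * X ^ (D + 1) *
          (40 / Real.sqrt (c₁ / 2) * (X ^ E)⁻¹ *
            (M * (1 + M₁) * ((2 * M₁ / c₁) ^ 2 * X ^ (2 * D)))) :=
          mul_le_mul h7 h6 hB0 (by positivity)
      _ = K₃ * M * (X ^ (D + 1) * X ^ (2 * D) * (X ^ E)⁻¹) := by rw [hK₃]; ring
      _ = K₃ * M / X := by
          rw [div_eq_mul_inv]
          congr 1
          rw [hE, ← pow_add, show 3 * D + 2 = (D + 1 + 2 * D) + 1 by ring, pow_succ X (D + 1 + 2 * D),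
            mul_inv, ← mul_assoc, mul_inv_cancel₀ (by positivity), one_mul]
  obtain ⟨_, htail⟩ := tail_bound hX hM hF hFb
  have hfin : ‖∫ k in (-X)..X, F k‖ ≤ K₃ * M / X + M * (K₂ / X) := by
    have h1 := hgrid.trans hpieces
    have h2 := mul_le_mul_of_nonneg_left hvol2 hM
    linarith
  have h1 : ‖∫ k, F k‖ ≤ ‖(∫ k, F k) - ∫ k in (-X)..X, F k‖ + ‖∫ k in (-X)..X, F k‖ := by
    have := norm_add_le ((∫ k, F k) - ∫ k in (-X)..X, F k) (∫ k in (-X)..X, F k)
    rwa [sub_add_cancel] at this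
  have e : (K₃ + K₂ + 2) * M / X = K₃ * M / X + M * (K₂ / X) + 2 * M / X := by ring
  rw [e]
  linarith

end H76DD
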