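import Mathlib
import Pool.Agent.L5helper76.DD.Main
import Pool.Agent.L5helper76.DD.Mat

set_option autoImplicit false

open MeasureTheory Set Filter Topology
open scoped ContDiff Quaternion

namespace H76DD

/-- powers of unit quaternions -/
lemma pow_formula {q : ℍ} (hq : ‖q‖ = 1) (hr : |q.re| < 1) (n : ℕ) :
    q ^ (n + 1) = (Real.sin ((n + 1 : ℕ) * Real.arccos q.re) * (Real.sqrt (1 - q.re ^ 2))⁻¹) • q -
      (Real.sin (n * Real.arccos q.re) * (Real.sqrt (1 - q.re ^ 2))⁻¹) • (1 : ℍ) := by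
  have hw : Real.sqrt (1 - q.re ^ 2) ≠ 0 := by
    have : q.re ^ 2 < 1 := (sq_lt_one_iff_abs_lt_one _).2 hr
    exact (Real.sqrt_pos.2 (by linarith)).ne'
  have hcos : Real.cos (Real.arccos q.re) = q.re :=
    Real.cos_arccos (abs_lt.1 hr).1.le (abs_lt.1 hr).2.le
  induction n with
  | zero =>
    simp only [zero_add, pow_one, Nat.cast_one, one_mul, Nat.cast_zero, zero_mul, Real.sin_zero,
      zero_smul, sub_zero, Real.sin_arccos]
    rw [mul_inv_cancel₀ hw, one_smul]
  | succ n ih =>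
    rw [pow_succ, ih, sub_mul, smul_mul_assoc, smul_mul_assoc, one_mul, sq_eq hq]
    set θ := Real.arccos q.re with hθ
    have e : Real.sin ((n + 1 + 1 : ℕ) * θ) =
        2 * q.re * Real.sin ((n + 1 : ℕ) * θ) - Real.sin (n * θ) := by
      have e1 : ((n + 1 + 1 : ℕ) : ℝ) * θ = (n + 1 : ℕ) * θ + θ := by push_cast; ring
      have e2 : (n : ℝ) * θ = (n + 1 : ℕ) * θ - θ := by push_cast; ring
      rw [e1, e2, Real.sin_add, Real.sin_sub, hcos]
      ring
    rw [e]
    set s := Real.sin ((n + 1 : ℕ) * θ)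
    set s' := Real.sin (n * θ)
    set W := (Real.sqrt (1 - q.re ^ 2))⁻¹
    module

/-- matrix entries of word propagators with a quadratic weight -/
noncomputable def amp (v : List (ℝ × ℝ)) (i j : Fin 2) (k : ℝ) : ℂ :=
  (((1 + k ^ 2)⁻¹ : ℝ) : ℂ) * mat (P v k) i j

lemma contDiff_amp {v : List (ℝ × ℝ)} (hv : NZ v) (i j : Fin 2) : ContDiff ℝ 1 (amp v i j) := by
  unfold amp
  have h1 : ContDiff ℝ 1 (fun k : ℝ => (1 + k ^ 2)⁻¹) :=
    ContDiff.inv (contDiff_const.add (contDiff_id.pow 2)) fun k => by positivity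
  have h2 : ContDiff ℝ 1 (fun k : ℝ => mat (P v k) i j) :=
    (matC i j).contDiff.comp (contDiff_P hv)
  exact (Complex.ofRealCLM.contDiff.comp h1).mul h2

lemma norm_amp_le {v : List (ℝ × ℝ)} (hv : NZ v) (i j : Fin 2) (k : ℝ) :
    ‖amp v i j k‖ ≤ (1 + k ^ 2)⁻¹ := by
  unfold amp
  rw [norm_mul, Complex.norm_real, Real.norm_eq_abs, abs_of_pos (by positivity)]
  have := norm_mat_le (P v k) i j
  rw [norm_P hv] at this
  calc _ ≤ (1 + k ^ 2)⁻¹ * 1 := mul_le_mul_of_nonneg_left this (by positivity)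
    _ = _ := mul_one _

lemma inv_le_one' (k : ℝ) : (1 + k ^ 2)⁻¹ ≤ 1 :=
  inv_le_one_of_one_le₀ (by nlinarith [sq_nonneg k])

lemma norm_deriv_amp {v : List (ℝ × ℝ)} (hv : NZ v) (i j : Fin 2) (k : ℝ) :
    ‖deriv (amp v i j) k‖ ≤ 1 + 6 * dur v := by
  have h1 : HasDerivAt (fun k : ℝ => (1 + k ^ 2)⁻¹) (-(2 * k) / (1 + k ^ 2) ^ 2) k := by
    have h0 : HasDerivAt (fun k : ℝ => 1 + k ^ 2) (2 * k) k := by
      have := (hasDerivAt_pow 2 k).const_add 1
      simpa using this
    exact h0.inv (by positivity)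
  have h2 : HasDerivAt (fun k : ℝ => mat (P v k) i j) (matC i j (deriv (P v) k)) k := by
    have h3 : HasDerivAt (P v) (deriv (P v) k) k :=
      (((contDiff_P hv (n := 1)).differentiable (by norm_num)) k).hasDerivAt
    exact (matC i j).hasFDerivAt.comp_hasDerivAt k h3
  have h3 : HasDerivAt (amp v i j) _ k := h1.ofReal_comp.mul h2
  rw [h3.deriv]
  refine (norm_add_le _ _).trans (add_le_add ?_ ?_)
  · rw [norm_mul, Complex.norm_real, Real.norm_eq_abs]
    have a1 := norm_mat_le (P v k) i j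
    rw [norm_P hv] at a1
    have a2 : |-(2 * k) / (1 + k ^ 2) ^ 2| ≤ 1 := by
      rw [abs_div, abs_neg, abs_mul, abs_of_pos (by positivity : (0:ℝ) < (1 + k ^ 2) ^ 2),
        div_le_one (by positivity), abs_two]
      have : 2 * |k| ≤ 1 + k ^ 2 := by
        have := sq_nonneg (|k| - 1)
        rw [sub_sq, sq_abs] at this
        linarith
      nlinarith [sq_nonneg k]
    calc _ ≤ 1 * 1 := mul_le_mul a2 a1 (norm_nonneg _) zero_le_one
      _ = 1 := one_mul _
  · rw [norm_mul, Complex.norm_real, Real.norm_eq_abs, abs_of_pos (by positivity)]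
    have a1 := (norm_mat_le (deriv (P v) k) i j).trans (norm_deriv_P hv k)
    calc _ ≤ 1 * (6 * dur v) := mul_le_mul (inv_le_one' k) a1 (norm_nonneg _) zero_le_one
      _ = _ := one_mul _

lemma NZ.append {w w' : List (ℝ × ℝ)} (h : NZ w) (h' : NZ w') : NZ (w ++ w') := by
  intro p hp
  rcases List.mem_append.1 hp with h1 | h1
  · exact h p h1
  · exact h' p h1

lemma dur_append (w w' : List (ℝ × ℝ)) : dur (w ++ w') = dur w + dur w' := by
  simp [dur]

lemma norm_UU {w : List (ℝ × ℝ)} (hw : NZ w) (hd : 0 < dur w) (k : ℝ) {t : ℝ} (ht : 0 ≤ t) :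
    ‖UU w k t‖ = 1 := by
  unfold UU V
  have h1 : 0 ≤ t - ⌊t / dur w⌋₊ * dur w := by
    have := Nat.floor_le (div_nonneg ht hd.le)
    rw [le_div_iff₀ hd] at this
    linarith
  rw [norm_mul, norm_pow, norm_P hw, norm_P (tr_nz hw h1), one_pow, mul_one]

lemma continuous_UU {w : List (ℝ × ℝ)} (hw : NZ w) (hd : 0 < dur w) {t : ℝ} (ht : 0 ≤ t) :
    Continuous fun k => UU w k t := by
  unfold UU V
  have h1 : 0 ≤ t - ⌊t / dur w⌋₊ * dur w := by
    have := Nat.floor_le (div_nonneg ht hd.le)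
    rw [le_div_iff₀ hd] at this
    linarith
  exact (contDiff_P (tr_nz hw h1) (n := 0)).continuous.mul
    ((contDiff_P hw (n := 0)).continuous.pow _)

/-- the integrand of the convolution kernel -/
noncomputable def kerF (w : List (ℝ × ℝ)) (t z : ℝ) (i j : Fin 2) (k : ℝ) : ℂ :=
  ch z k * ((((1 + k ^ 2)⁻¹ : ℝ) : ℂ) * mat (UU w k t) i j)

lemma continuous_kerF {w : List (ℝ × ℝ)} (hw : NZ w) (hd : 0 < dur w) {t : ℝ} (ht : 0 ≤ t)
    (z : ℝ) (i j : Fin 2) : Continuous (kerF w t z i j) := by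
  unfold kerF
  have h1 : Continuous (fun k : ℝ => (1 + k ^ 2)⁻¹) :=
    Continuous.inv₀ (by fun_prop) fun k => by positivity
  exact (contDiff_ch z (n := 0)).continuous.mul ((Complex.continuous_ofReal.comp h1).mul
    ((matC i j).continuous.comp (continuous_UU hw hd ht)))

lemma norm_kerF_le {w : List (ℝ × ℝ)} (hw : NZ w) (hd : 0 < dur w) {t : ℝ} (ht : 0 ≤ t)
    (z : ℝ) (i j : Fin 2) (k : ℝ) : ‖kerF w t z i j k‖ ≤ (1 + k ^ 2)⁻¹ := by
  unfold kerF
  rw [norm_mul, norm_ch, one_mul, norm_mul, Complex.norm_real, Real.norm_eq_abs,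
    abs_of_pos (by positivity)]
  have := norm_mat_le (UU w k t) i j
  rw [norm_UU hw hd k ht] at this
  calc _ ≤ (1 + k ^ 2)⁻¹ * 1 := mul_le_mul_of_nonneg_left this (by positivity)
    _ = _ := mul_one _

/-- uniform polynomial decay of the kernel -/
theorem kernel_decay {w : List (ℝ × ℝ)} (hw : Adm w) (ho : Odd w.length) (hd : 0 < dur w) :
    ∃ (C σ : ℝ), 0 < C ∧ 0 < σ ∧ ∀ t : ℝ, 0 < t → ∀ (z : ℝ) (i j : Fin 2),
      ‖∫ k, kerF w t z i j k‖ ≤ C / t ^ σ := by
  have hnz := hw.nz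
  have hH : ∃ k, Hf (tau w) k ≠ 0 :=
    Hf_ne (good_tau hnz) (tau_zero hw ho) (tau_neg w) (tau_ne hnz hd)
  obtain ⟨C, Q, hC, hmain⟩ := osc_main (good_tau hnz) (abs_tau_le hnz) hH
  set T := dur w with hT
  set q : ℕ := max Q 1 with hq
  have hq0 : (0:ℝ) < q := by
    have : 0 < q := lt_of_lt_of_le one_pos (le_max_right _ _)
    exact_mod_cast this
  set σ : ℝ := (q : ℝ)⁻¹ with hσ
  have hσ0 : 0 < σ := by positivity
  set M : ℝ := 1 + 12 * T with hM
  have hM1 : 1 ≤ M := by rw [hM]; linarith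
  refine ⟨C * M * (3 * T) ^ σ + Real.pi * (3 * T) ^ σ, σ, by positivity, hσ0, ?_⟩
  intro t ht z i j
  have htσ : 0 < t ^ σ := Real.rpow_pos_of_pos ht _
  have hT3 : (0:ℝ) < (3 * T) ^ σ := Real.rpow_pos_of_pos (by positivity) _
  set m := ⌊t / T⌋₊ with hm
  have hm1 : m * T ≤ t := by
    have := Nat.floor_le (div_nonneg ht.le hd.le)
    rwa [le_div_iff₀ hd] at this
  have hm2 : t < (m + 1) * T := by
    have := Nat.lt_floor_add_one (t / T)
    rwa [div_lt_iff₀ hd] at this
  rw [add_div]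
  rcases lt_or_ge m 2 with hlt | hge
  · -- small times
    have hm' : (m : ℝ) ≤ 1 := by
      have : m ≤ 1 := by omega
      exact_mod_cast this
    have ht2 : t ≤ 3 * T := by nlinarith
    have h1 : ‖∫ k, kerF w t z i j k‖ ≤ Real.pi := by
      rw [← integral_univ_inv_one_add_sq]
      exact norm_integral_le_of_norm_le integrable_inv_one_add_sq
        (Eventually.of_forall fun k => norm_kerF_le hnz hd ht.le z i j k)
    have h2 : Real.pi ≤ Real.pi * (3 * T) ^ σ / t ^ σ := by
      rw [le_div_iff₀ htσ]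
      exact mul_le_mul_of_nonneg_left (Real.rpow_le_rpow ht.le ht2 hσ0.le) Real.pi_pos.le
    have h3 : 0 ≤ C * M * (3 * T) ^ σ / t ^ σ := by positivity
    linarith
  · -- large times
    obtain ⟨n, hn⟩ : ∃ n, m = n + 1 := ⟨m - 1, by omega⟩
    have hn1 : 1 ≤ n := by omega
    have hn0 : (0:ℝ) < n := by exact_mod_cast hn1
    have hn1' : (1:ℝ) ≤ n := by exact_mod_cast hn1
    set X : ℝ := (n : ℝ) ^ σ with hX
    have hX1 : 1 ≤ X := Real.one_le_rpow hn1' hσ0.le
    have hXQ : X ^ Q ≤ n := by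
      have h1 : X ^ q = n := by
        rw [hX, hσ]
        exact Real.rpow_inv_natCast_pow hn0.le (by
          have : 0 < q := lt_of_lt_of_le one_pos (le_max_right _ _)
          omega)
      calc X ^ Q ≤ X ^ q := pow_le_pow_right₀ hX1 (le_max_left _ _)
        _ = n := h1
    set s := t - m * T with hs
    have hs0 : 0 ≤ s := by linarith
    have htr := tr_nz hnz hs0
    have hdtr := dur_tr_le hnz hs0
    have hcomb : NZ (w ++ tr w s) := hnz.append htr
    have hmain' := hmain X hX1 n hXQ M (amp (tr w s) i j) (amp (w ++ tr w s) i j)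
      (kerF w t z i j) z (contDiff_amp htr i j) (contDiff_amp hcomb i j)
      (fun k => ((norm_amp_le htr i j k).trans (inv_le_one' k)).trans hM1)
      (fun k => ((norm_amp_le hcomb i j k).trans (inv_le_one' k)).trans hM1)
      (fun k => (norm_deriv_amp htr i j k).trans (by rw [hM]; linarith))
      (fun k => (norm_deriv_amp hcomb i j k).trans (by rw [hM, dur_append]; linarith))
      (continuous_kerF hnz hd ht.le z i j)
      (fun k => (norm_kerF_le hnz hd ht.le z i j k).trans (by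
        rw [← one_div]
        exact div_le_div_of_nonneg_right hM1 (by positivity)))
      (fun k hk => by
        have hU : UU w k t = P (tr w s) k * P w k ^ (n + 1) := by
          unfold UU V
          rw [← hT, ← hm, ← hs, hn]
        have hpf := pow_formula (norm_P hnz k) hk n
        unfold kerF
        have h1 : mat (UU w k t) i j =
            ((Real.sin ((n + 1 : ℕ) * Real.arccos (tau w k)) * (wf (tau w) k)⁻¹ : ℝ) : ℂ) *
              mat (P (w ++ tr w s) k) i j -
            ((Real.sin (n * Real.arccos (tau w k)) * (wf (tau w) k)⁻¹ : ℝ) : ℂ) *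
              mat (P (tr w s) k) i j := by
          rw [hU, hpf, mul_sub, mul_smul_comm, mul_smul_comm, mul_one, ← P_append,
            ← matC_apply, map_sub, map_smul, map_smul, matC_apply, matC_apply,
            Complex.real_smul, Complex.real_smul]
          rfl
        rw [h1]
        unfold amp
        ring)
    have h3 : C * M / X ≤ C * M * (3 * T) ^ σ / t ^ σ := by
      rw [div_le_div_iff₀ (by positivity) htσ]
      have h4 : t ^ σ ≤ (3 * T) ^ σ * X := by
        rw [hX, ← Real.mul_rpow (by positivity) hn0.le]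
        refine Real.rpow_le_rpow ht.le ?_ hσ0.le
        have : (m : ℝ) = n + 1 := by rw [hn]; push_cast; ring
        rw [this] at hm2
        nlinarith
      calc C * M * t ^ σ ≤ C * M * ((3 * T) ^ σ * X) :=
            mul_le_mul_of_nonneg_left h4 (by positivity)
        _ = _ := by ring
    have h5 : 0 ≤ Real.pi * (3 * T) ^ σ / t ^ σ := by positivity
    linarith

end H76DD
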