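import Mathlib
import Pool.Agent.L5helper76.DD.Decay
import Pool.Agent.L5helper76.DD.Kernel

set_option autoImplicit false

open MeasureTheory Set Filter Topology FourierTransform
open scoped ContDiff Quaternion

namespace H76DD

/-- coordinate projection -/
noncomputable def pj (j : Fin 2) : Sp →L[ℂ] ℂ := EuclideanSpace.proj j

lemma pj_apply (j : Fin 2) (v : Sp) : pj j v = v j := rfl

/-- the symbol `(1 + (2πξ)²)⁻¹ U` -/
noncomputable def gsym (w : List (ℝ × ℝ)) (t x : ℝ) (i j : Fin 2) (ξ : ℝ) : ℂ :=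
  ch x (2 * Real.pi * ξ) * ((((1 + (2 * Real.pi * ξ) ^ 2)⁻¹ : ℝ) : ℂ) *
    mat (UU w (2 * Real.pi * ξ) t) i j)

lemma gsym_eq (w : List (ℝ × ℝ)) (t x : ℝ) (i j : Fin 2) (ξ : ℝ) :
    gsym w t x i j ξ = kerF w t x i j (2 * Real.pi * ξ) := rfl

lemma integrable_gsym {w : List (ℝ × ℝ)} (hw : NZ w) (hd : 0 < dur w) {t : ℝ} (ht : 0 ≤ t)
    (x : ℝ) (i j : Fin 2) : Integrable (gsym w t x i j) := by
  have h1 : Integrable (kerF w t x i j) :=
    integrable_inv_one_add_sq.mono' (continuous_kerF hw hd ht x i j).aestronglyMeasurable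
      (Eventually.of_forall fun k => norm_kerF_le hw hd ht x i j k)
  exact h1.comp_mul_left' (by positivity : (2 * Real.pi : ℝ) ≠ 0)

lemma fourier_gsym {w : List (ℝ × ℝ)} {t : ℝ} (x y : ℝ) (i j : Fin 2) :
    𝓕 (gsym w t x i j) y = ((2 * Real.pi)⁻¹ : ℝ) • ∫ k, kerF w t (x - y) i j k := by
  rw [Real.fourier_real_eq_integral_exp_smul]
  have h1 : ∀ ξ : ℝ, Complex.exp (((-2 * Real.pi * ξ * y : ℝ) : ℂ) * Complex.I) •
      gsym w t x i j ξ = kerF w t (x - y) i j (2 * Real.pi * ξ) := by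
    intro ξ
    unfold gsym kerF
    rw [smul_eq_mul, ← mul_assoc]
    congr 1
    unfold ch
    rw [← Complex.exp_add]
    congr 1
    push_cast
    ring
  simp only [h1]
  rw [Measure.integral_comp_mul_left (fun k => kerF w t (x - y) i j k) (2 * Real.pi),
    abs_of_pos (by positivity)]

/-- dispersive estimate from the kernel bound -/
lemma decay_of_kernel {w : List (ℝ × ℝ)} (hw : Adm w) (hd : 0 < dur w) {C σ : ℝ}
    (_hC : 0 < C)
    (hker : ∀ t : ℝ, 0 < t → ∀ (z : ℝ) (i j : Fin 2), ‖∫ k, kerF w t z i j k‖ ≤ C / t ^ σ)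
    (hν : ∀ i j, Measurable fun t => (((per w t : ℂ) • σ₁ : M2)) i j) {M : ℝ}
    (hM : ∀ t i j, ‖(((per w t : ℂ) • σ₁ : M2)) i j‖ ≤ M) :
    DecayEstimate (fun t => (per w t : ℂ) • σ₁) 2 σ := by
  refine ⟨4 * C, ?_⟩
  intro t ht f α h hf hα
  obtain ⟨hhi, hh⟩ := hf
  obtain ⟨U, hU, hα⟩ := hα
  have htσ : 0 < t ^ σ := Real.rpow_pos_of_pos ht _
  have hUe : ∀ k, U k t = mat (UU w k t) := fun k =>
    (hU k).unique hν hM (isPropagator hw hd k) t ht.le
  -- the transform of the solution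
  set G : ℝ → Sp := fun ξ => mv (mat (UU w (2 * Real.pi * ξ) t))
    ((((1 + (2 * Real.pi * ξ) ^ 2)⁻¹ : ℝ) : ℂ) • 𝓕 h ξ) with hG
  have hαG : ((𝓕 α : L2) : ℝ → Sp) =ᵐ[volume] G := by
    filter_upwards [hh, hα] with ξ h1 h2
    ext i
    rw [h2 i, hG]
    simp only
    rw [mv_apply, h1]
    refine Finset.sum_congr rfl fun j _ => ?_
    rw [hUe]
    have e : (1 + (2 * Real.pi * ξ) ^ 2) ^ ((2:ℝ) / 2) = 1 + (2 * Real.pi * ξ) ^ 2 := by
      norm_num
    rw [e, smul_smul, ← Complex.ofReal_mul, inv_mul_cancel₀ (by positivity), Complex.ofReal_one,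
      one_smul]
  have hhc : Continuous (𝓕 h) := VectorFourier.fourierIntegral_continuous
    Real.continuous_fourierChar continuous_inner hhi
  have hhb : ∀ ξ, ‖𝓕 h ξ‖ ≤ ∫ x, ‖h x‖ := fun ξ =>
    VectorFourier.norm_fourierIntegral_le_integral_norm _ _ _ _ ξ
  have hgi : ∀ x i j, Integrable fun ξ => gsym w t x i j ξ • 𝓕 h ξ := by
    intro x i j
    exact (integrable_gsym hw.nz hd ht.le x i j).smul_bdd (∫ x, ‖h x‖)
      hhc.aestronglyMeasurable (Eventually.of_forall hhb)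
  -- coordinates of the inverse transform
  have hGi : Integrable G := by
    have h1 : ∀ i j, Integrable fun ξ => (gsym w t 0 i j ξ * (𝓕 h ξ) j) •
        (EuclideanSpace.single i (1:ℂ) : Sp) := by
      intro i j
      refine Integrable.smul_const ?_ _
      have := (pj j).integrable_comp (hgi 0 i j)
      refine this.congr (Eventually.of_forall fun ξ => ?_)
      simp [pj_apply]
    have h2 : G = fun ξ => ∑ i, ∑ j, (gsym w t 0 i j ξ * (𝓕 h ξ) j) •
        (EuclideanSpace.single i (1:ℂ) : Sp) := by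
      funext ξ
      rw [hG]
      simp only [mv]
      refine Finset.sum_congr rfl fun i _ => ?_
      rw [Finset.sum_smul]
      refine Finset.sum_congr rfl fun j _ => ?_
      congr 1
      unfold gsym
      simp [ch]
      ring
    rw [h2]
    exact integrable_finsetSum _ fun i _ => integrable_finsetSum _ fun j _ => h1 i j
  have hrep := ae_eq_fourierInv hGi hαG
  filter_upwards [hrep] with x hx
  rw [hx]
  -- bound each coordinate
  have hker2 : ∀ i j, ‖∫ ξ, gsym w t x i j ξ • 𝓕 h ξ‖ ≤ C / t ^ σ * ∫ y, ‖h y‖ := by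
    intro i j
    rw [← integral_fourier_smul (integrable_gsym hw.nz hd ht.le x i j) hhi]
    have hb : ∀ y, ‖𝓕 (gsym w t x i j) y • h y‖ ≤ C / t ^ σ * ‖h y‖ := by
      intro y
      rw [norm_smul, fourier_gsym, norm_smul, Real.norm_eq_abs, abs_of_pos (by positivity)]
      refine mul_le_mul_of_nonneg_right ?_ (norm_nonneg _)
      have h1 : (2 * Real.pi)⁻¹ ≤ 1 := inv_le_one_of_one_le₀ (by linarith [Real.pi_gt_three])
      calc _ ≤ 1 * (C / t ^ σ) := mul_le_mul h1 (hker t ht _ i j) (norm_nonneg _) zero_le_one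
        _ = _ := one_mul _
    calc _ ≤ ∫ y, C / t ^ σ * ‖h y‖ :=
          norm_integral_le_of_norm_le (hhi.norm.const_mul _) (Eventually.of_forall hb)
      _ = _ := integral_const_mul _ _
  have hcoord : ∀ i, (𝓕⁻ G x) i = ∑ j, (∫ ξ, gsym w t x i j ξ • 𝓕 h ξ) j := by
    intro i
    have hGi' : Integrable fun ξ : ℝ => Complex.exp (((2 * Real.pi * (ξ * x) : ℝ) : ℂ) *
        Complex.I) • G ξ := by
      exact hGi.bdd_smul 1 (by fun_prop : Continuous fun ξ : ℝ =>
          Complex.exp (((2 * Real.pi * (ξ * x) : ℝ) : ℂ) * Complex.I)).aestronglyMeasurable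
        (Eventually.of_forall fun ξ => (Complex.norm_exp_ofReal_mul_I _).le)
    have e1 : 𝓕⁻ G x = ∫ ξ : ℝ, Complex.exp (((2 * Real.pi * (ξ * x) : ℝ) : ℂ) *
        Complex.I) • G ξ := by
      rw [Real.fourierInv_eq']
      refine integral_congr_ae (Eventually.of_forall fun ξ => ?_)
      simp [mul_comm]
    have e2 : (𝓕⁻ G x) i = ∫ ξ : ℝ, (Complex.exp (((2 * Real.pi * (ξ * x) : ℝ) : ℂ) *
        Complex.I) • G ξ) i := by
      rw [e1]
      exact ((pj i).integral_comp_comm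
        hGi').symm
    have e3 : ∀ j, (∫ ξ, gsym w t x i j ξ • 𝓕 h ξ) j = ∫ ξ, gsym w t x i j ξ * (𝓕 h ξ) j := by
      intro j
      exact ((pj j).integral_comp_comm
        (hgi x i j)).symm
    have e4 : ∀ j, Integrable fun ξ => gsym w t x i j ξ * (𝓕 h ξ) j := by
      intro j
      have := (pj j).integrable_comp (hgi x i j)
      refine this.congr (Eventually.of_forall fun ξ => ?_)
      simp [pj_apply]
    rw [e2]
    simp only [e3]
    rw [← integral_finsetSum _ fun j _ => e4 j]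
    refine integral_congr_ae (Eventually.of_forall fun ξ => ?_)
    simp only [PiLp.smul_apply, smul_eq_mul, hG, mv_apply]
    rw [Finset.mul_sum]
    refine Finset.sum_congr rfl fun j _ => ?_
    unfold gsym ch
    have e5 : x * (2 * Real.pi * ξ) = 2 * Real.pi * (ξ * x) := by ring
    rw [e5]
    ring
  have hci : ∀ i, ‖(𝓕⁻ G x) i‖ ≤ 2 * (C / t ^ σ * ∫ y, ‖h y‖) := by
    intro i
    rw [hcoord i, Fin.sum_univ_two]
    refine (norm_add_le _ _).trans ?_
    have h0 := (norm_coord_le _ 0).trans (hker2 i 0)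
    have h1 := (norm_coord_le _ 1).trans (hker2 i 1)
    linarith
  refine (norm_le_coords _).trans ?_
  have h0 := hci 0
  have h1 := hci 1
  have e : 4 * C / t ^ σ * ∫ x, ‖h x‖ = 2 * (C / t ^ σ * ∫ y, ‖h y‖) +
    2 * (C / t ^ σ * ∫ y, ‖h y‖) := by ring
  rw [e]
  exact add_le_add h0 h1

end H76DD
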