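import Mathlib
import Pool.Agent.L5helper76.DD.FT

set_option autoImplicit false

open MeasureTheory Set Filter Topology FourierTransform SchwartzMap
open scoped ContDiff

namespace H76DD

/-- pairing of the `L²` Fourier transform with test functions -/
lemma fourier_pairing (α : L2) {φ : ℝ → ℂ} (hφ : ContDiff ℝ (⊤ : ℕ∞) φ)
    (hφs : HasCompactSupport φ) :
    ∫ x, 𝓕 φ x • α x = ∫ ξ, φ ξ • (𝓕 α : L2) ξ := by
  set ψ : 𝓢(ℝ, ℂ) := hφs.toSchwartzMap hφ with hψ
  have hψx : ∀ x, ψ x = φ x := fun x => rfl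
  have h1 := congrArg (fun T : 𝓢'(ℝ, Sp) => T ψ) (Lp.fourier_toTemperedDistribution_eq α)
  simp only [TemperedDistribution.fourier_apply, Lp.toTemperedDistribution_apply] at h1
  have h2 : ∫ x, ((𝓕 ψ : 𝓢(ℝ, ℂ)) x) • α x = ∫ x, 𝓕 φ x • α x := by
    refine integral_congr_ae (Eventually.of_forall fun x => ?_)
    congr 1
  rw [← h2, h1]
  rfl

/-- the elementary characterisation of the `L²` Fourier transform -/
lemma isFourier_iff (f F : ℝ → Sp) :
    (MemLp f 2 volume ∧ MemLp F 2 volume ∧ ∀ φ : ℝ → ℂ, ContDiff ℝ (⊤ : ℕ∞) φ →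
      HasCompactSupport φ → ∫ x, 𝓕 φ x • f x = ∫ ξ, φ ξ • F ξ) ↔
    ∃ hf : MemLp f 2 volume, ((𝓕 (hf.toLp f) : L2) : ℝ → Sp) =ᵐ[volume] F := by
  constructor
  · rintro ⟨hf, hF, h⟩
    refine ⟨hf, ?_⟩
    refine ae_eq_of_integral_contDiff_smul_eq ?_ ?_ ?_
    · exact (Lp.memLp _).locallyIntegrable (by norm_num)
    · exact hF.locallyIntegrable (by norm_num)
    · intro g hg hgs
      have hgc : ContDiff ℝ ∞ (fun x => (g x : ℂ)) := Complex.ofRealCLM.contDiff.comp hg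
      have hgcs : HasCompactSupport (fun x => (g x : ℂ)) := hgs.comp_left Complex.ofReal_zero
      have h1 := fourier_pairing (hf.toLp f) hgc hgcs
      have h2 := h _ hgc hgcs
      have h3 : ∫ x, 𝓕 (fun x => (g x : ℂ)) x • (hf.toLp f) x =
          ∫ x, 𝓕 (fun x => (g x : ℂ)) x • f x := by
        refine integral_congr_ae ?_
        filter_upwards [hf.coeFn_toLp] with x hx
        rw [hx]
      have h4 : ∀ v : ℝ → Sp, ∫ ξ, (g ξ : ℂ) • v ξ = ∫ ξ, g ξ • v ξ := fun v => by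
        refine integral_congr_ae (Eventually.of_forall fun x => ?_)
        exact Complex.coe_smul (g x) (v x)
      rw [← h4, ← h4, ← h2, ← h3, h1]
  · rintro ⟨hf, h⟩
    refine ⟨hf, (memLp_congr_ae h).1 (Lp.memLp _), fun φ hφ hφs => ?_⟩
    have h1 := fourier_pairing (hf.toLp f) hφ hφs
    have h3 : ∫ x, 𝓕 φ x • (hf.toLp f) x = ∫ x, 𝓕 φ x • f x := by
      refine integral_congr_ae ?_
      filter_upwards [hf.coeFn_toLp] with x hx
      rw [hx]
    have h4 : ∫ ξ, φ ξ • (𝓕 (hf.toLp f) : L2) ξ = ∫ ξ, φ ξ • F ξ := by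
      refine integral_congr_ae ?_
      filter_upwards [h] with ξ hξ
      rw [hξ]
    rw [← h3, h1, h4]

end H76DD
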