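import Mathlib
import Pool.Agent.L5helper76.DD.Decay
import Pool.Agent.L5helper76.DD.Kernel

set_option autoImplicit false

open MeasureTheory Set Filter Topology FourierTransform
open scoped ContDiff Quaternion

namespace H76DD

/-- first basis spinor -/
noncomputable def e0 : Sp := EuclideanSpace.single 0 (1 : ℂ)

lemma norm_e0 : ‖e0‖ = 1 := by simp [e0]

/-- normalised Gaussian of width `β` -/
noncomputable def gs (β ξ : ℝ) : ℝ := β⁻¹ * Real.exp (-Real.pi * ξ ^ 2 / β ^ 2)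

/-- Gaussian spinor data -/
noncomputable def hs (β x : ℝ) : Sp :=
  ((Real.exp (-(Real.pi * β ^ 2) * x ^ 2) : ℝ) : ℂ) • e0

lemma gs_pos {β : ℝ} (hβ : 0 < β) (ξ : ℝ) : 0 < gs β ξ := by unfold gs; positivity

lemma continuous_gs (β : ℝ) : Continuous (gs β) := by unfold gs; fun_prop

lemma norm_hs (β x : ℝ) : ‖hs β x‖ = Real.exp (-(Real.pi * β ^ 2) * x ^ 2) := by
  unfold hs
  rw [norm_smul, norm_e0, mul_one, Complex.norm_real, Real.norm_eq_abs,
    abs_of_pos (Real.exp_pos _)]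

lemma continuous_hs (β : ℝ) : Continuous (hs β) := by unfold hs; fun_prop

lemma integrable_hs {β : ℝ} (hβ : 0 < β) : Integrable (hs β) := by
  have h1 := integrable_exp_neg_mul_sq (b := Real.pi * β ^ 2) (by positivity)
  exact h1.mono' (continuous_hs β).aestronglyMeasurable
    (Eventually.of_forall fun x => (norm_hs β x).le)

lemma integral_norm_hs {β : ℝ} (hβ : 0 < β) : ∫ x, ‖hs β x‖ = β⁻¹ := by
  simp only [norm_hs]
  rw [integral_gaussian, show Real.pi / (Real.pi * β ^ 2) = (β⁻¹) ^ 2 by field_simp,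
    Real.sqrt_sq (by positivity)]

lemma fourier_hs {β : ℝ} (hβ : 0 < β) (ξ : ℝ) : 𝓕 (hs β) ξ = ((gs β ξ : ℝ) : ℂ) • e0 := by
  have h1 : 𝓕 (hs β) ξ =
      (𝓕 (fun x : ℝ => Complex.exp (-Real.pi * ((β : ℂ) ^ 2) * x ^ 2)) ξ) • e0 := by
    rw [Real.fourier_real_eq_integral_exp_smul, Real.fourier_real_eq_integral_exp_smul,
      ← integral_smul_const]
    refine integral_congr_ae (Eventually.of_forall fun x => ?_)
    simp only [hs, smul_smul, smul_eq_mul]
    congr 2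
    push_cast
    congr 1
    ring
  rw [h1, fourier_gaussian_pi (by
    rw [← Complex.ofReal_pow, Complex.ofReal_re]; positivity)]
  congr 1
  have h2 : ((β : ℂ) ^ 2) ^ (1 / 2 : ℂ) = β := by
    rw [← Complex.ofReal_pow, show (1 / 2 : ℂ) = ((1 / 2 : ℝ) : ℂ) by push_cast; ring,
      ← Complex.ofReal_cpow (by positivity), ← Real.sqrt_eq_rpow, Real.sqrt_sq hβ.le]
  rw [h2]
  unfold gs
  push_cast
  rw [one_div]
  congr 2
  ring

lemma integral_scale {β : ℝ} (hβ : 0 < β) (g : ℝ → ℝ) :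
    ∫ ξ, g ξ = β * ∫ u, g (β * u) := by
  rw [Measure.integral_comp_mul_left, abs_of_pos (by positivity), smul_eq_mul, ← mul_assoc,
    mul_inv_cancel₀ hβ.ne', one_mul]

/-- Gaussian moments -/
noncomputable def mom (N : ℕ) : ℝ := ∫ u : ℝ, |u| ^ N * Real.exp (-Real.pi * u ^ 2)

lemma integrable_mom (N : ℕ) : Integrable fun u : ℝ => |u| ^ N * Real.exp (-Real.pi * u ^ 2) := by
  have h1 := integrable_rpow_mul_exp_neg_mul_sq Real.pi_pos
    (by have := (Nat.cast_nonneg N : (0:ℝ) ≤ N); linarith : (-1:ℝ) < N)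
  refine h1.norm.congr (Eventually.of_forall fun u => ?_)
  simp only [norm_mul, Real.norm_eq_abs, Real.abs_exp, Real.rpow_natCast, abs_pow]

lemma mom_nonneg (N : ℕ) : 0 ≤ mom N := integral_nonneg fun u => by positivity

lemma gs_scale {β : ℝ} (hβ : 0 < β) (u : ℝ) :
    gs β (β * u) = β⁻¹ * Real.exp (-Real.pi * u ^ 2) := by
  unfold gs
  congr 2
  field_simp

lemma moment {β : ℝ} (hβ : 0 < β) (N : ℕ) : Integrable (fun ξ => |ξ| ^ N * gs β ξ) ∧
    ∫ ξ, |ξ| ^ N * gs β ξ = β ^ N * mom N := by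
  have e : ∀ u, |β * u| ^ N * gs β (β * u) =
      (β ^ N * β⁻¹) * (|u| ^ N * Real.exp (-Real.pi * u ^ 2)) := by
    intro u
    rw [gs_scale hβ, abs_mul, abs_of_pos hβ, mul_pow]
    ring
  constructor
  · have h1 : Integrable (fun u => (fun ξ => |ξ| ^ N * gs β ξ) (β * u)) := by
      simp only [e]
      exact (integrable_mom N).const_mul _
    exact (integrable_comp_mul_left_iff _ hβ.ne').1 h1
  · rw [integral_scale hβ]
    simp only [e]
    rw [integral_const_mul]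
    unfold mom
    field_simp

lemma integral_gs {β : ℝ} (hβ : 0 < β) : Integrable (gs β) ∧ ∫ ξ, gs β ξ = 1 := by
  have h := moment hβ 0
  simp only [pow_zero, one_mul] at h
  refine ⟨h.1, ?_⟩
  rw [h.2]
  unfold mom
  simp only [pow_zero, one_mul]
  rw [integral_gaussian, div_self Real.pi_ne_zero, Real.sqrt_one]

/-- the weight -/
noncomputable def wt (r ξ : ℝ) : ℝ := (1 + (2 * Real.pi * ξ) ^ 2) ^ (-(r / 2))

lemma wt_pos (r ξ : ℝ) : 0 < wt r ξ := Real.rpow_pos_of_pos (by positivity) _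

lemma continuous_wt (r : ℝ) : Continuous (wt r) := by
  unfold wt
  exact Continuous.rpow_const (by fun_prop) fun ξ => Or.inl (by positivity)

lemma wt_le_one {r : ℝ} (hr : 0 ≤ r) (ξ : ℝ) : wt r ξ ≤ 1 :=
  Real.rpow_le_one_of_one_le_of_nonpos (by nlinarith [sq_nonneg (2 * Real.pi * ξ)])
    (by linarith)

lemma one_sub_wt {r : ℝ} (hr : 0 ≤ r) (ξ : ℝ) :
    |wt r ξ - 1| ≤ r / 2 * (2 * Real.pi) ^ 2 * |ξ| ^ 2 := by
  have h0 := wt_le_one hr ξ
  rw [abs_sub_comm, abs_of_nonneg (by linarith)]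
  set y := (2 * Real.pi * ξ) ^ 2 with hy
  have hy0 : 0 ≤ y := sq_nonneg _
  have h1 : wt r ξ = Real.exp (Real.log (1 + y) * (-(r / 2))) := by
    unfold wt
    rw [Real.rpow_def_of_pos (by positivity)]
  have h2 : Real.log (1 + y) ≤ y := by
    have := Real.log_le_sub_one_of_pos (by positivity : 0 < 1 + y)
    linarith
  have h3 := Real.add_one_le_exp (Real.log (1 + y) * (-(r / 2)))
  rw [h1]
  have h4 : Real.log (1 + y) * (r / 2) ≤ y * (r / 2) :=
    mul_le_mul_of_nonneg_right h2 (by linarith)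
  have h5 : y * (r / 2) = r / 2 * (2 * Real.pi) ^ 2 * |ξ| ^ 2 := by
    rw [hy, sq_abs]; ring
  linarith

/-- the transform of the data -/
noncomputable def fG (r β ξ : ℝ) : Sp := ((wt r ξ * gs β ξ : ℝ) : ℂ) • e0

lemma continuous_fG (r β : ℝ) : Continuous (fG r β) := by
  unfold fG
  exact (Complex.continuous_ofReal.comp ((continuous_wt r).mul (continuous_gs β))).smul
    continuous_const

lemma norm_fG_le {r β : ℝ} (hr : 0 ≤ r) (hβ : 0 < β) (ξ : ℝ) : ‖fG r β ξ‖ ≤ gs β ξ := by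
  unfold fG
  rw [norm_smul, norm_e0, mul_one, Complex.norm_real, Real.norm_eq_abs,
    abs_of_pos (mul_pos (wt_pos r ξ) (gs_pos hβ ξ))]
  calc _ ≤ 1 * gs β ξ := mul_le_mul_of_nonneg_right (wt_le_one hr ξ) (gs_pos hβ ξ).le
    _ = _ := one_mul _

lemma memLp_fG {r β : ℝ} (hr : 0 ≤ r) (hβ : 0 < β) : MemLp (fG r β) 2 volume := by
  have h1 : MemLp (gs β) 2 volume := by
    rw [memLp_two_iff_integrable_sq (continuous_gs β).aestronglyMeasurable]
    have h2 := (integrable_exp_neg_mul_sq (b := 2 * Real.pi / β ^ 2) (by positivity)).const_mul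
      ((β⁻¹) ^ 2)
    refine h2.congr (Eventually.of_forall fun ξ => ?_)
    simp only [gs]
    rw [mul_pow, ← Real.exp_nat_mul]
    congr 2
    push_cast
    ring
  refine h1.mono (continuous_fG r β).aestronglyMeasurable (Eventually.of_forall fun ξ => ?_)
  rw [Real.norm_eq_abs, abs_of_pos (gs_pos hβ ξ)]
  exact norm_fG_le hr hβ ξ

/-- even powers are close to `± 1` -/
lemma pow_close {q : ℍ} (hq : ‖q‖ = 1) (n : ℕ) :
    ‖q ^ (2 * n) - (-1) ^ n‖ ≤ n * (2 * |q.re|) := by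
  induction n with
  | zero => simp
  | succ n ih =>
    have h1 : ‖q * q + 1‖ = 2 * |q.re| := by
      rw [sq_eq hq, sub_add_cancel, norm_smul, hq, mul_one, Real.norm_eq_abs, abs_mul, abs_two]
    have e : q ^ (2 * (n + 1)) - (-1) ^ (n + 1) =
        q ^ (2 * n) * (q * q + 1) - (q ^ (2 * n) - (-1) ^ n) := by
      rw [mul_add, mul_one, pow_add, pow_two, pow_succ]
      noncomm_ring
    rw [e]
    refine (norm_sub_le _ _).trans ?_
    rw [norm_mul, norm_pow, hq, one_pow, one_mul, h1]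
    push_cast
    linarith

lemma mat_neg_one_pow (n : ℕ) : mat ((-1) ^ n) 0 0 = (-1) ^ n := by
  rcases Nat.even_or_odd n with hn | hn
  · rw [hn.neg_one_pow, hn.neg_one_pow, mat_one]; simp
  · rw [hn.neg_one_pow, hn.neg_one_pow]; simp [mat]

/-- lower bound for the solution with Gaussian data -/
lemma lower_bound {w : List (ℝ × ℝ)} (hw : Adm w) (hd : 0 < dur w) {N : ℕ} {C : ℝ}
    (hC : 0 < C) (hτ : ∀ k, |tau w k| ≤ C * |k| ^ N) {r σ c : ℝ} (hr : 0 ≤ r)
    (hdec : ∀ t : ℝ, 0 < t → ∀ (f α : L2) (h : ℝ → Sp), IsWeighted r f h →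
      SolvesAt (fun t => (per w t : ℂ) • σ₁) f t α →
      ∀ᵐ x : ℝ, ‖α x‖ ≤ c / t ^ σ * ∫ x, ‖h x‖) {n : ℕ} (hn : 1 ≤ n) {β : ℝ} (hβ : 0 < β) :
    1 - (n * (2 * C * (2 * Real.pi) ^ N * β ^ N * mom N) +
      r / 2 * (2 * Real.pi) ^ 2 * β ^ 2 * mom 2) ≤
      c / ((2 * n : ℕ) * dur w) ^ σ * β⁻¹ := by
  have hn0 : (0:ℝ) < n := by exact_mod_cast hn
  set t : ℝ := (2 * n : ℕ) * dur w with ht
  have ht0 : 0 < t := by rw [ht]; push_cast; positivity
  -- the data
  set f : L2 := 𝓕⁻ ((memLp_fG hr hβ).toLp _ : L2) with hf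
  have hff : ((𝓕 f : L2) : ℝ → Sp) =ᵐ[volume] fG r β := by
    rw [hf, fourier_fourierInv_eq]
    exact (memLp_fG hr hβ).coeFn_toLp
  have hfw : IsWeighted r f (hs β) := by
    refine ⟨integrable_hs hβ, ?_⟩
    filter_upwards [hff] with ξ hξ
    rw [fourier_hs hβ, hξ, fG, smul_smul, ← Complex.ofReal_mul, ← mul_assoc]
    congr 2
    unfold wt
    rw [← Real.rpow_add (by positivity), add_neg_cancel, Real.rpow_zero, one_mul]
  have hU : ∀ k, IsPropagator (fun t => (per w t : ℂ) • σ₁) k (fun t => mat (UU w k t)) :=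
    isPropagator hw hd
  obtain ⟨α, hα, hαe⟩ := exists_solvesAt hU (t := t)
    (fun i j => (matC i j).continuous.comp (continuous_UU hw.nz hd ht0.le))
    (fun k i j => by
      have := norm_mat_le (UU w k t) i j
      rwa [norm_UU hw.nz hd k ht0.le] at this) f
  -- the transform of the solution
  set G : ℝ → Sp := fun ξ => mv (mat (UU w (2 * Real.pi * ξ) t)) (fG r β ξ) with hG
  have hαG : ((𝓕 α : L2) : ℝ → Sp) =ᵐ[volume] G := by
    filter_upwards [hαe, hff] with ξ h1 h2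
    rw [h1, h2]
  have hmatc : ∀ i j, Continuous fun ξ : ℝ => mat (UU w (2 * Real.pi * ξ) t) i j := fun i j =>
    ((matC i j).continuous.comp (continuous_UU hw.nz hd ht0.le)).comp
      (by fun_prop : Continuous fun ξ : ℝ => 2 * Real.pi * ξ)
  have hGi : Integrable G := by
    refine ((integral_gs hβ).1.const_mul 4).mono'
      (aesm_mv hmatc (continuous_fG r β).aestronglyMeasurable) (Eventually.of_forall fun ξ => ?_)
    refine (norm_mv_le (fun i j => ?_) _).trans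
      (mul_le_mul_of_nonneg_left (norm_fG_le hr hβ ξ) (by norm_num))
    have := norm_mat_le (UU w (2 * Real.pi * ξ) t) i j
    rwa [norm_UU hw.nz hd _ ht0.le] at this
  have hrep := ae_eq_fourierInv hGi hαG
  have hbd : ∀ᵐ x : ℝ, ‖𝓕⁻ G x‖ ≤ c / t ^ σ * β⁻¹ := by
    filter_upwards [hdec t ht0 f α (hs β) hfw hα, hrep] with x h1 h2
    rw [← h2, ← integral_norm_hs hβ]
    exact h1
  have hb0 := bound_everywhere (continuous_fourierInv hGi) hbd 0
  refine le_trans ?_ (((norm_coord_le _ 0).trans hb0))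
  -- the value at the origin
  have hval : (𝓕⁻ G 0) 0 = ∫ ξ : ℝ, mat (P w (2 * Real.pi * ξ) ^ (2 * n)) 0 0 *
      ((wt r ξ * gs β ξ : ℝ) : ℂ) := by
    have e1 : 𝓕⁻ G 0 = ∫ ξ : ℝ, G ξ := by
      rw [Real.fourierInv_eq']
      simp
    have e2 : (𝓕⁻ G 0) 0 = ∫ ξ : ℝ, (G ξ) 0 := by
      rw [e1]
      have h1 : (EuclideanSpace.proj (𝕜 := ℂ) (0 : Fin 2) : Sp →L[ℂ] ℂ) (∫ ξ : ℝ, G ξ) =
          ∫ ξ : ℝ, (EuclideanSpace.proj (𝕜 := ℂ) (0 : Fin 2) : Sp →L[ℂ] ℂ) (G ξ) :=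
        (ContinuousLinearMap.integral_comp_comm _ hGi).symm
      exact h1
    rw [e2]
    refine integral_congr_ae (Eventually.of_forall fun ξ => ?_)
    simp only [hG, mv_apply, Fin.sum_univ_two, fG, e0]
    have hUn : UU w (2 * Real.pi * ξ) t = P w (2 * Real.pi * ξ) ^ (2 * n) := by
      rw [ht]
      exact UU_nat hw.nz hd _ (2 * n)
    rw [hUn]
    simp
  have hgi := (integral_gs hβ).1
  -- comparison with `(-1)^n`
  set F : ℝ → ℂ := fun ξ => mat (P w (2 * Real.pi * ξ) ^ (2 * n)) 0 0 *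
      ((wt r ξ * gs β ξ : ℝ) : ℂ) with hF
  have hFc : Continuous F := by
    have h1 : Continuous fun ξ : ℝ => mat (P w (2 * Real.pi * ξ) ^ (2 * n)) 0 0 :=
      (matC 0 0).continuous.comp
        (((contDiff_P hw.nz (n := 0)).continuous.comp (by fun_prop)).pow _)
    exact h1.mul (Complex.continuous_ofReal.comp ((continuous_wt r).mul (continuous_gs β)))
  have hcmp : ∀ ξ, ‖F ξ - (-1) ^ n * ((gs β ξ : ℝ) : ℂ)‖ ≤
      n * (2 * C * (2 * Real.pi) ^ N) * (|ξ| ^ N * gs β ξ) +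
        r / 2 * (2 * Real.pi) ^ 2 * (|ξ| ^ 2 * gs β ξ) := by
    intro ξ
    set q := P w (2 * Real.pi * ξ) with hq
    have hqn : ‖q‖ = 1 := norm_P hw.nz _
    have h1 : ‖mat (q ^ (2 * n)) 0 0 - (-1) ^ n‖ ≤ n * (2 * |q.re|) := by
      rw [← mat_neg_one_pow, ← matC_apply, ← matC_apply, ← map_sub, matC_apply]
      exact (norm_mat_le _ 0 0).trans (pow_close hqn n)
    have h2 : |q.re| ≤ C * (2 * Real.pi) ^ N * |ξ| ^ N := by
      have := hτ (2 * Real.pi * ξ)
      rw [abs_mul, abs_of_pos (by positivity : (0:ℝ) < 2 * Real.pi), mul_pow, ← mul_assoc] at this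
      exact this
    have e : F ξ - (-1) ^ n * ((gs β ξ : ℝ) : ℂ) =
        (mat (q ^ (2 * n)) 0 0 - (-1) ^ n) * ((wt r ξ * gs β ξ : ℝ) : ℂ) +
          (-1) ^ n * (((wt r ξ - 1) * gs β ξ : ℝ) : ℂ) := by
      simp only [hF]
      push_cast
      ring
    have hg0 := gs_pos hβ ξ
    rw [e]
    refine (norm_add_le _ _).trans (add_le_add ?_ ?_)
    · rw [norm_mul, Complex.norm_real, Real.norm_eq_abs,
        abs_of_pos (mul_pos (wt_pos r ξ) hg0)]
      have h3 : wt r ξ * gs β ξ ≤ gs β ξ := by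
        calc _ ≤ 1 * gs β ξ := mul_le_mul_of_nonneg_right (wt_le_one hr ξ) hg0.le
          _ = _ := one_mul _
      have h4 : ‖mat (q ^ (2 * n)) 0 0 - (-1) ^ n‖ ≤
          n * (2 * (C * (2 * Real.pi) ^ N * |ξ| ^ N)) := h1.trans (by gcongr)
      calc _ ≤ n * (2 * (C * (2 * Real.pi) ^ N * |ξ| ^ N)) * gs β ξ :=
            mul_le_mul h4 h3 (mul_pos (wt_pos r ξ) hg0).le (by positivity)
        _ = _ := by ring
    · rw [norm_mul, norm_pow, norm_neg, norm_one, one_pow, one_mul, Complex.norm_real,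
        Real.norm_eq_abs, abs_mul, abs_of_pos hg0]
      calc _ ≤ r / 2 * (2 * Real.pi) ^ 2 * |ξ| ^ 2 * gs β ξ :=
            mul_le_mul_of_nonneg_right (one_sub_wt hr ξ) hg0.le
        _ = _ := by ring
  have hgiC : Integrable fun ξ => (-1 : ℂ) ^ n * ((gs β ξ : ℝ) : ℂ) := hgi.ofReal.const_mul _
  have hFi : Integrable F := by
    refine hgi.mono' hFc.aestronglyMeasurable (Eventually.of_forall fun ξ => ?_)
    have hg0 := gs_pos hβ ξ
    simp only [hF]
    rw [norm_mul, Complex.norm_real, Real.norm_eq_abs, abs_of_pos (mul_pos (wt_pos r ξ) hg0)]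
    have h1 := norm_mat_le (P w (2 * Real.pi * ξ) ^ (2 * n)) 0 0
    rw [norm_pow, norm_P hw.nz, one_pow] at h1
    calc _ ≤ 1 * (1 * gs β ξ) := mul_le_mul h1
          (mul_le_mul_of_nonneg_right (wt_le_one hr ξ) hg0.le)
          (mul_pos (wt_pos r ξ) hg0).le zero_le_one
      _ = _ := by ring
  have hmN := moment hβ N
  have hm2 := moment hβ 2
  have hdiff : ‖(∫ ξ, F ξ) - (-1) ^ n‖ ≤ n * (2 * C * (2 * Real.pi) ^ N * β ^ N * mom N) +
      r / 2 * (2 * Real.pi) ^ 2 * β ^ 2 * mom 2 := by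
    have e1 : ((-1 : ℂ)) ^ n = ∫ ξ, (-1 : ℂ) ^ n * ((gs β ξ : ℝ) : ℂ) := by
      rw [integral_const_mul, integral_complex_ofReal, (integral_gs hβ).2]
      simp
    rw [e1, ← integral_sub hFi hgiC]
    have h1 := norm_integral_le_of_norm_le
      ((hmN.1.const_mul (n * (2 * C * (2 * Real.pi) ^ N))).add
        (hm2.1.const_mul (r / 2 * (2 * Real.pi) ^ 2))) (Eventually.of_forall hcmp)
    refine h1.trans (le_of_eq ?_)
    simp only [Pi.add_apply]
    rw [integral_add (hmN.1.const_mul _) (hm2.1.const_mul _), integral_const_mul,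
      integral_const_mul, hmN.2, hm2.2]
    ring
  rw [hval]
  have h1 : ‖((-1 : ℂ)) ^ n‖ = 1 := by simp
  have h2 := norm_sub_norm_le ((-1 : ℂ) ^ n) ((-1) ^ n - ∫ ξ, F ξ)
  rw [sub_sub_cancel, norm_sub_rev, h1] at h2
  have h3 : ‖(∫ ξ, F ξ) - (-1) ^ n‖ = ‖(-1 : ℂ) ^ n - ∫ ξ, F ξ‖ := norm_sub_rev _ _
  rw [h3] at hdiff
  have h4 := norm_sub_norm_le ((-1 : ℂ) ^ n) (∫ ξ, F ξ)
  rw [h1] at h4
  linarith

end H76DD
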