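import Mathlib
import Pool.Agent.L5helper76.DD.Disp
import Pool.Agent.L5helper76.DD.Slow

set_option autoImplicit false

open MeasureTheory Set Filter Topology FourierTransform
open scoped ContDiff Quaternion

namespace H76DD

/-- a high vanishing order forces slow decay -/
lemma slow_of_order {w : List (ℝ × ℝ)} (hw : Adm w) (hd : 0 < dur w) {N : ℕ} (hN : 1 ≤ N) {C : ℝ}
    (hC : 0 < C) (hτ : ∀ k, |tau w k| ≤ C * |k| ^ N) {r σ : ℝ} (hr : 0 ≤ r)
    (hdec : DecayEstimate (fun t => (per w t : ℂ) • σ₁) r σ) : σ ≤ 1 / N := by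
  obtain ⟨c, hdec⟩ := hdec
  by_contra hcon
  push Not at hcon
  have hN0 : (0:ℝ) < N := by exact_mod_cast hN
  set A : ℝ := 2 * C * (2 * Real.pi) ^ N * mom N with hA
  have hA0 : 0 ≤ A := by have := mom_nonneg N; positivity
  set B : ℝ := r / 2 * (2 * Real.pi) ^ 2 * mom 2 with hB
  set κ : ℝ := 1 / (4 * (A + 1)) with hκ
  have hκ0 : 0 < κ := by positivity
  have hκ1 : κ ≤ 1 := by
    rw [hκ, div_le_one (by positivity)]
    linarith
  have hAκ : A * κ ^ N ≤ 1 / 4 := by
    have h1 : κ ^ N ≤ κ := by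
      calc κ ^ N ≤ κ ^ 1 := pow_le_pow_of_le_one hκ0.le hκ1 hN
        _ = κ := pow_one _
    have h2 : A * κ ≤ 1 / 4 := by
      rw [hκ, mul_one_div, div_le_div_iff₀ (by positivity) (by norm_num)]
      linarith
    exact (mul_le_mul_of_nonneg_left h1 hA0).trans h2
  set T := dur w with hT
  set c' : ℝ := c * ((2 * T) ^ σ)⁻¹ * κ⁻¹ with hc'
  have key : ∀ n : ℕ, 1 ≤ n → 3 / 4 - B * κ ^ 2 * (n : ℝ) ^ (-(2 / (N : ℝ))) ≤
      c' * (n : ℝ) ^ (-(σ - 1 / N)) := by
    intro n hn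
    have hn0 : (0:ℝ) < n := by exact_mod_cast hn
    set β : ℝ := κ * (n : ℝ) ^ (-(1 / (N : ℝ))) with hβ
    have hβ0 : 0 < β := by positivity
    have h1 := lower_bound hw hd hC hτ hr hdec hn hβ0
    have h2 : n * (2 * C * (2 * Real.pi) ^ N * β ^ N * mom N) = A * κ ^ N := by
      have h3 : ((n : ℝ) ^ (-(1 / (N : ℝ)))) ^ N = (n : ℝ)⁻¹ := by
        rw [← Real.rpow_natCast, ← Real.rpow_mul hn0.le]
        rw [show -(1 / (N : ℝ)) * N = -1 by field_simp, Real.rpow_neg_one]
      rw [hβ, mul_pow κ, h3, hA]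
      field_simp
    have h3 : r / 2 * (2 * Real.pi) ^ 2 * β ^ 2 * mom 2 =
        B * κ ^ 2 * (n : ℝ) ^ (-(2 / (N : ℝ))) := by
      have h4 : ((n : ℝ) ^ (-(1 / (N : ℝ)))) ^ 2 = (n : ℝ) ^ (-(2 / (N : ℝ))) := by
        rw [← Real.rpow_natCast, ← Real.rpow_mul hn0.le]
        congr 1
        push_cast
        ring
      rw [hβ, mul_pow κ, h4, hB]
      ring
    have h4 : c / ((2 * n : ℕ) * dur w) ^ σ * β⁻¹ = c' * (n : ℝ) ^ (-(σ - 1 / N)) := by
      have e1 : (((2 * n : ℕ) : ℝ) * dur w) ^ σ = (2 * T) ^ σ * (n : ℝ) ^ σ := by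
        rw [← Real.mul_rpow (by positivity) hn0.le]
        congr 1
        push_cast
        ring
      have e2 : (n : ℝ) ^ (-(σ - 1 / N)) = ((n : ℝ) ^ σ)⁻¹ * ((n : ℝ) ^ (-(1 / (N : ℝ))))⁻¹ := by
        rw [← Real.rpow_neg hn0.le, ← Real.rpow_neg hn0.le, neg_neg, ← Real.rpow_add hn0]
        congr 1
        ring
      rw [e1, hβ, hc', e2, div_eq_mul_inv, mul_inv, mul_inv]
      ring
    rw [h2, h3, h4] at h1
    linarith
  have hl1 : Tendsto (fun n : ℕ => 3 / 4 - B * κ ^ 2 * (n : ℝ) ^ (-(2 / (N : ℝ)))) atTop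
      (𝓝 (3 / 4 - B * κ ^ 2 * 0)) :=
    tendsto_const_nhds.sub (((tendsto_rpow_neg_atTop (by positivity : 0 < 2 / (N : ℝ))).comp
      tendsto_natCast_atTop_atTop).const_mul _)
  have hl2 : Tendsto (fun n : ℕ => c' * (n : ℝ) ^ (-(σ - 1 / N))) atTop (𝓝 (c' * 0)) :=
    ((tendsto_rpow_neg_atTop (by linarith : 0 < σ - 1 / N)).comp
      tendsto_natCast_atTop_atTop).const_mul _
  have := le_of_tendsto_of_tendsto hl1 hl2 (by
    filter_upwards [eventually_ge_atTop 1] with n hn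
    exact key n hn)
  norm_num at this

lemma fd_mem (w : List (ℝ × ℝ)) : ∀ t, fd w t ∈ (0 : ℝ) :: w.map Prod.snd := by
  induction w with
  | nil => intro t; simp [fd]
  | cons p w ih =>
    intro t
    unfold fd
    split_ifs with h
    · simp
    · have := ih (t - p.1)
      simp only [List.map_cons, List.mem_cons] at this ⊢
      tauto

lemma measurable_fd (w : List (ℝ × ℝ)) : Measurable (fd w) := by
  induction w with
  | nil => exact measurable_const
  | cons p w ih =>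
    have : fd (p :: w) = fun t => if t < p.1 then p.2 else fd w (t - p.1) := by
      funext t; rfl
    rw [this]
    exact Measurable.ite measurableSet_Iio measurable_const
      (ih.comp (measurable_id.sub_const _))

lemma measurable_per (w : List (ℝ × ℝ)) : Measurable (per w) := by
  unfold per
  exact (measurable_fd w).comp
    ((measurable_fract.comp (measurable_id.div_const _)).const_mul _)

lemma finite_range_per (w : List (ℝ × ℝ)) : (range (per w)).Finite := by
  refine ((0 : ℝ) :: w.map Prod.snd).toFinset.finite_toSet.subset ?_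
  rintro _ ⟨t, rfl⟩
  rw [Finset.mem_coe, List.mem_toFinset]
  exact fd_mem w _

/-- the main statement for words -/
theorem main_words (N : ℕ) (hN : 1 ≤ N) : ∃ (T : ℝ) (m : ℝ → ℝ), 0 < T ∧ Measurable m ∧
    (range m).Finite ∧ Function.Periodic m T ∧
    (∀ f : L2, ∀ t : ℝ, 0 ≤ t → ∃! α : L2, SolvesAt (fun t => (m t : ℂ) • σ₁) f t α) ∧
    (∃ σ : ℝ, 0 < σ ∧ DecayEstimate (fun t => (m t : ℂ) • σ₁) 2 σ) ∧
    ∀ r σ : ℝ, 0 ≤ r → DecayEstimate (fun t => (m t : ℂ) • σ₁) r σ → σ ≤ 1 / N := by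
  obtain ⟨w, hw, ho, g, hg, hgw⟩ := exists_word N
  obtain ⟨C, hC, hτ⟩ := tau_bound hw.nz hg hgw
  have hd : 0 < dur w := by
    cases w with
    | nil => simp at ho
    | cons p w =>
      rw [dur_cons]
      have := (hw p List.mem_cons_self).1
      have := dur_nonneg hw.tail.nz
      linarith
  have hmeas : ∀ i j, Measurable fun t => (((per w t : ℂ) • σ₁ : M2)) i j := by
    intro i j
    simp only [Matrix.smul_apply, smul_eq_mul]
    exact (Complex.measurable_ofReal.comp (measurable_per w)).mul_const _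
  obtain ⟨B, hB⟩ : ∃ B : ℝ, ∀ t, |per w t| ≤ B := by
    obtain ⟨B, hB⟩ := (finite_range_per w).isBounded.exists_norm_le
    exact ⟨B, fun t => hB _ ⟨t, rfl⟩⟩
  have hbd : ∀ t i j, ‖(((per w t : ℂ) • σ₁ : M2)) i j‖ ≤ B := by
    intro t i j
    rw [Matrix.smul_apply, smul_eq_mul, norm_mul, Complex.norm_real, Real.norm_eq_abs]
    have h1 : ‖σ₁ i j‖ ≤ 1 := by
      fin_cases i <;> fin_cases j <;> simp [σ₁]
    calc _ ≤ |per w t| * 1 := mul_le_mul_of_nonneg_left h1 (abs_nonneg _)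
      _ ≤ B := by rw [mul_one]; exact hB t
  refine ⟨dur w, per w, hd, measurable_per w, finite_range_per w, per_periodic hd, ?_, ?_, ?_⟩
  · intro f t ht
    obtain ⟨α, hα, -⟩ := exists_solvesAt (isPropagator hw hd) (t := t)
      (fun i j => (matC i j).continuous.comp (continuous_UU hw.nz hd ht))
      (fun k i j => by
        have := norm_mat_le (UU w k t) i j
        rwa [norm_UU hw.nz hd k ht] at this) f
    exact ⟨α, hα, fun α' hα' => solvesAt_unique hmeas hbd ht hα' hα⟩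
  · obtain ⟨K, σ, hK, hσ, hker⟩ := kernel_decay hw ho hd
    exact ⟨σ, hσ, decay_of_kernel hw hd hK hker hmeas hbd⟩
  · intro r σ hr hdec
    exact slow_of_order hw hd hN hC hτ hr hdec

end H76DD
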